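import Mathlib
import Pool.Prelude.Def_F_6038d89f

namespace Pool.Agent.Helper950

/-- The normal subsemigroup generated by `a`. -/
inductive NS {Γ : Type*} [Group Γ] (a : Γ) : Γ → Prop
  | conj (g : Γ) : NS a (g * a * g⁻¹)
  | mul {x y : Γ} : NS a x → NS a y → NS a (x * y)

section
variable {Γ : Type*} [Group Γ] {a x y : Γ}

theorem NS.self (a : Γ) : NS a a := by
  have := NS.conj (a := a) 1
  simpa using this

theorem NS.conj_mem (h : NS a x) (g : Γ) : NS a (g * x * g⁻¹) := by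
  induction h with
  | conj k =>
    have := NS.conj (a := a) (g * k)
    have h2 : g * (k * a * k⁻¹) * g⁻¹ = (g * k) * a * (g * k)⁻¹ := by group
    rw [h2]; exact this
  | mul hx hy ihx ihy =>
    rename_i u v
    have h2 : g * (u * v) * g⁻¹ = (g * u * g⁻¹) * (g * v * g⁻¹) := by group
    rw [h2]; exact NS.mul ihx ihy

theorem NS.trans (h : NS a x) (h' : NS x y) : NS a y := by
  induction h' with
  | conj k => exact h.conj_mem k
  | mul _ _ ihx ihy => exact NS.mul ihx ihy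

theorem NS.inv (h : NS a x) : NS a⁻¹ x⁻¹ := by
  induction h with
  | conj k =>
    have h2 : (k * a * k⁻¹)⁻¹ = k * a⁻¹ * k⁻¹ := by group
    rw [h2]; exact NS.conj k
  | mul hx hy ihx ihy =>
    rw [mul_inv_rev]; exact NS.mul ihy ihx

theorem NS.map {Δ : Type*} [Group Δ] (f : Γ →* Δ) (h : NS a x) : NS (f a) (f x) := by
  induction h with
  | conj k =>
    rw [map_mul, map_mul, map_inv]; exact NS.conj _
  | mul hx hy ihx ihy =>
    rw [map_mul]; exact NS.mul ihx ihy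

theorem NS.pow (h : NS a x) (n : ℕ) : NS a (x ^ (n + 1)) := by
  induction n with
  | zero => simpa using h
  | succ k ih => rw [pow_succ]; exact NS.mul ih h

/-- The local extension property at `a`. -/
def Good (a : Γ) : Prop := ¬ NS a 1 ∧ ∀ x y, NS a x → NS a y → ∃ w, NS x w ∧ NS y w

/-- Positive cones of bi-invariant orders. -/
def IsCone (P : Set Γ) : Prop :=
  (1 : Γ) ∈ P ∧ (∀ x ∈ P, ∀ y ∈ P, x * y ∈ P) ∧ (∀ g, ∀ x ∈ P, g * x * g⁻¹ ∈ P) ∧
    (∀ x ∈ P, x⁻¹ ∈ P → x = 1)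

theorem IsCone.ns {P : Set Γ} (hP : IsCone P) (hx : x ∈ P) (h : NS x y) : y ∈ P := by
  induction h with
  | conj k => exact hP.2.2.1 k x hx
  | mul _ _ ihx ihy => exact hP.2.1 _ ihx _ ihy

theorem cone_extend {P : Set Γ} (hP : Maximal (fun Q : Set Γ => IsCone Q) P) {b : Γ}
    (hb : b ∉ P) : ∃ p ∈ P, NS b p⁻¹ := by
  by_contra hcon
  push Not at hcon
  obtain ⟨hP1, hPm, hPc, hPa⟩ := hP.prop
  set P1 : Set Γ := {z | z ∈ P ∨ ∃ p ∈ P, ∃ s, NS b s ∧ z = p * s} with hP1def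
  have hcone : IsCone P1 := by
    refine ⟨Or.inl hP1, ?_, ?_, ?_⟩
    · rintro x (hx | ⟨p, hp, s, hs, rfl⟩) y (hy | ⟨q, hq, t, ht, rfl⟩)
      · exact Or.inl (hPm x hx y hy)
      · exact Or.inr ⟨x * q, hPm x hx q hq, t, ht, by group⟩
      · refine Or.inr ⟨p * y, hPm p hp y hy, y⁻¹ * s * y⁻¹⁻¹, hs.conj_mem _, by group⟩
      · refine Or.inr ⟨p * q, hPm p hp q hq, (q⁻¹ * s * q⁻¹⁻¹) * t,
          NS.mul (hs.conj_mem _) ht, by group⟩
    · rintro g x (hx | ⟨p, hp, s, hs, rfl⟩)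
      · exact Or.inl (hPc g x hx)
      · exact Or.inr ⟨g * p * g⁻¹, hPc g p hp, g * s * g⁻¹, hs.conj_mem g, by group⟩
    · rintro z (hx | ⟨p, hp, s, hs, hz⟩) (hy | ⟨q, hq, t, ht, hz'⟩)
      · exact hPa z hx hy
      · exfalso
        apply hcon (z * q) (hPm z hx q hq)
        have : (z * q)⁻¹ = t := by
          rw [inv_eq_iff_mul_eq_one, mul_assoc, ← hz', mul_inv_cancel]
        rw [this]; exact ht
      · exfalso
        apply hcon (z⁻¹ * p) (hPm _ hy p hp)
        have : (z⁻¹ * p)⁻¹ = s := by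
          rw [inv_eq_iff_mul_eq_one, mul_assoc, ← hz, inv_mul_cancel]
        rw [this]; exact hs
      · exfalso
        apply hcon (p * q) (hPm p hp q hq)
        have : (p * q)⁻¹ = (q⁻¹ * s * q⁻¹⁻¹) * t := by
          rw [inv_eq_iff_mul_eq_one]
          calc p * q * (q⁻¹ * s * q⁻¹⁻¹ * t) = (p * s) * (q * t) := by group
            _ = 1 := by rw [← hz, ← hz', mul_inv_cancel]
        rw [this]
        exact NS.mul (hs.conj_mem _) ht
  have hle : P ⊆ P1 := fun z hz => Or.inl hz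
  have h1 : P1 ⊆ P := hP.le_of_ge hcone hle
  exact hb (h1 (Or.inr ⟨1, hP1, b, NS.self b, by simp⟩))

theorem cone_total {P : Set Γ} (hP : Maximal (fun Q : Set Γ => IsCone Q) P) (a : Γ)
    (hgood : Good a) : a ∈ P ∨ a⁻¹ ∈ P := by
  by_contra hcon
  push Not at hcon
  obtain ⟨p, hp, hps⟩ := cone_extend hP hcon.1
  obtain ⟨q, hq, hqs⟩ := cone_extend hP hcon.2
  have h1 : NS a q := by
    have := hqs.inv
    simpa using this
  obtain ⟨w, hw1, hw2⟩ := hgood.2 q p⁻¹ h1 hps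
  have h2 : w ∈ P := hP.prop.ns hq hw1
  have h3 : w⁻¹ ∈ P := by
    have h4 : NS p w⁻¹ := by
      have := hw2.inv
      simpa using this
    exact hP.prop.ns hp h4
  have h5 : w = 1 := hP.prop.2.2.2 w h2 h3
  subst h5
  exact hgood.1 (h1.trans hw1)

/-- Extension criterion. -/
theorem proOrderable_of_good (h : ∀ a : Γ, a ≠ 1 → Good a ∨ Good a⁻¹) :
    N5f09da3c.ProOrderable Γ := by
  intro r hr hbi
  obtain ⟨hL, hR⟩ := hbi
  have hrefl : ∀ x, r x x := hr.refl
  have htrans : ∀ x y z, r x y → r y z → r x z := hr.trans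
  have hanti : ∀ x y, r x y → r y x → x = y := hr.antisymm
  have hcone0 : IsCone {x : Γ | r 1 x} := by
    refine ⟨hrefl 1, ?_, ?_, ?_⟩
    · intro x hx y hy
      have h1 := hL x 1 y hy
      rw [mul_one] at h1
      exact htrans _ _ _ hx h1
    · intro g x hx
      have h1 := hR g⁻¹ _ _ (hL g 1 x hx)
      simpa using h1
    · intro x hx hx'
      have h1 := hL x 1 x⁻¹ hx'
      rw [mul_one, mul_inv_cancel] at h1
      exact hanti _ _ h1 hx
  obtain ⟨P, hP0, hPmax⟩ := zorn_subset_nonempty {Q : Set Γ | IsCone Q} (by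
    intro c hc hchain hne
    refine ⟨⋃₀ c, ?_, fun s hs => Set.subset_sUnion_of_mem hs⟩
    obtain ⟨Q0, hQ0⟩ := hne
    refine ⟨⟨Q0, hQ0, (hc hQ0).1⟩, ?_, ?_, ?_⟩
    · rintro x ⟨Q, hQ, hx⟩ y ⟨R, hR, hy⟩
      rcases hchain.total hQ hR with hle | hle
      · exact ⟨R, hR, (hc hR).2.1 x (hle hx) y hy⟩
      · exact ⟨Q, hQ, (hc hQ).2.1 x hx y (hle hy)⟩
    · rintro g x ⟨Q, hQ, hx⟩
      exact ⟨Q, hQ, (hc hQ).2.2.1 g x hx⟩
    · rintro x ⟨Q, hQ, hx⟩ ⟨R, hR, hy⟩
      rcases hchain.total hQ hR with hle | hle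
      · exact (hc hR).2.2.2 x (hle hx) hy
      · exact (hc hQ).2.2.2 x hx (hle hy)) _ hcone0
  have hPc : IsCone P := hPmax.prop
  have htot : ∀ a : Γ, a ∈ P ∨ a⁻¹ ∈ P := by
    intro a
    by_cases ha : a = 1
    · left; rw [ha]; exact hPc.1
    · rcases h a ha with hg | hg
      · exact cone_total hPmax a hg
      · have := cone_total hPmax a⁻¹ hg
        rw [inv_inv] at this
        exact this.symm
  refine ⟨fun x y => x⁻¹ * y ∈ P, ?_, ⟨?_, ?_⟩, ?_⟩
  · refine { refl := ?_, trans := ?_, antisymm := ?_, total := ?_ }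
    · intro x
      rw [inv_mul_cancel]; exact hPc.1
    · intro x y z hxy hyz
      have := hPc.2.1 _ hxy _ hyz
      have h2 : x⁻¹ * y * (y⁻¹ * z) = x⁻¹ * z := by group
      rwa [h2] at this
    · intro x y hxy hyx
      have h1 : (x⁻¹ * y)⁻¹ ∈ P := by
        rw [mul_inv_rev, inv_inv]; exact hyx
      have h2 := hPc.2.2.2 _ hxy h1
      rw [inv_mul_eq_one] at h2
      exact h2
    · intro x y
      rcases htot (x⁻¹ * y) with h1 | h1
      · left; exact h1
      · right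
        rw [mul_inv_rev, inv_inv] at h1
        exact h1
  · intro g a b hab
    have h2 : (g * a)⁻¹ * (g * b) = a⁻¹ * b := by group
    rw [h2]; exact hab
  · intro g a b hab
    have h2 : (a * g)⁻¹ * (b * g) = g⁻¹ * (a⁻¹ * b) * g⁻¹⁻¹ := by group
    rw [h2]; exact hPc.2.2.1 _ _ hab
  · intro x y hxy
    apply hP0
    show r 1 (x⁻¹ * y)
    have := hL x⁻¹ _ _ hxy
    rwa [inv_mul_cancel] at this

end

end Pool.Agent.Helper950
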