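import Pool.Agent.Helper950.Glue

namespace Pool.Agent.Helper950

theorem SP.mul_same {f g : ℝ ≃o ℝ} {l m n : ℝ} (hf : SP f l m) (hg : SP g l n) :
    SP (f * g : ℝ ≃o ℝ) l (m * n) := by
  refine ⟨hf.1.mul hg.1, ?_⟩
  intro t ht
  show t < f (g t)
  have h1 := hg.2 t ht
  have h2 := hf.2 (g t) (ht.trans h1)
  linarith

theorem SP.pow {f : ℝ ≃o ℝ} {l m : ℝ} (hf : SP f l m) (n : ℕ) :
    SP (f ^ (n + 1) : ℝ ≃o ℝ) l (m ^ (n + 1)) := by
  induction n with
  | zero => simpa using hf
  | succ k ih =>
    rw [pow_succ f, pow_succ m]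
    exact ih.mul_same hf

/-- Commutes with the unit translation on the nonnegative half line. -/
def Per (X : ℝ → ℝ) : Prop := ∀ t, 0 ≤ t → X (t + 1) = X t + 1

theorem Per.nat {X : ℝ → ℝ} (h : Per X) (n : ℕ) (t : ℝ) (ht : 0 ≤ t) : X (t + n) = X t + n := by
  induction n with
  | zero => simp
  | succ k ih =>
    have h1 := h (t + k) (by positivity)
    push_cast
    rw [← add_assoc, h1, ih, add_assoc]

/-- Main domination lemma. -/
theorem dominate {X : ℝ ≃o ℝ} (hX : X ∈ RAG) (hper : Per X) {l m : ℝ} (hl : Lead X l m)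
    (hm : 1 < m) : ∃ c ∈ RAG, SP (X * (c * X * c⁻¹) : ℝ ≃o ℝ) l (m * m) := by
  have hl0 : 0 < l := hl.pos hX hm.ne'
  have hX0 : X 0 = 0 := hl.1 0 hl0.le
  obtain ⟨hid, hmpos, e, he, haff⟩ := id hl
  have hXl : X l = l := hid l le_rfl
  -- the small step
  obtain ⟨h, hh0, hh1, hh2⟩ : ∃ h, 0 < h ∧ m * (m * h) < e ∧ m * (m * (m * h)) < 1 := by
    refine ⟨min e 1 / (2 * (m * (m * m))), ?_, ?_, ?_⟩
    · have : 0 < min e 1 := lt_min he one_pos
      positivity
    · have h1 : m * (m * (min e 1 / (2 * (m * (m * m))))) = min e 1 / (2 * m) := by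
        field_simp
      rw [h1, div_lt_iff₀ (by positivity)]
      have h2 : min e 1 ≤ e := min_le_left _ _
      nlinarith
    · have h1 : m * (m * (m * (min e 1 / (2 * (m * (m * m)))))) = min e 1 / 2 := by
        field_simp
      rw [h1]
      have h2 : min e 1 ≤ 1 := min_le_right _ _
      linarith
  have hmh : h < m * h := by nlinarith
  have hmmh : m * h < m * (m * h) := by nlinarith
  have hmmmh : m * (m * h) < m * (m * (m * h)) := by nlinarith
  set s := l + h with hs
  set s' := l + m * h with hs'
  set s'' := l + m * (m * h) with hs''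
  have hXs : X s = s' := by
    rw [hs, haff h hh0.le (by linarith), hXl]
  have hXs' : X s' = s'' := by
    rw [hs', haff (m * h) (by linarith) (by linarith), hXl]
  have hXs'' : s'' < X s'' := by
    rw [hs'', haff (m * (m * h)) (by linarith) hh1, hXl]
    linarith
  have hgood : ∀ r, l < r → r ≤ s'' → r < X r := by
    intro r hr1 hr2
    have h1 := haff (r - l) (by linarith) (by linarith)
    have h2 : l + (r - l) = r := by ring
    rw [h2, hXl] at h1
    rw [h1]
    nlinarith
  -- location of the bad points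
  have hbad : ∀ t, l < t → X t ≤ t → ∃ n : ℕ, (n : ℝ) + s'' < t ∧ t ≤ n + 1 + l := by
    intro t ht hXt
    set k : ℕ := ⌊t - l⌋₊ with hk
    have hk1 : (k : ℝ) ≤ t - l := Nat.floor_le (by linarith)
    have hk2 : t - l < k + 1 := Nat.lt_floor_add_one _
    set r := t - k with hr
    have hr1 : l ≤ r := by linarith
    have hr2 : r < l + 1 := by linarith
    have htr : t = r + k := by rw [hr]; ring
    have hXr : X t = X r + k := by
      rw [htr]; exact hper.nat k r (by linarith)
    have hXr2 : X r ≤ r := by linarith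
    rcases eq_or_lt_of_le hr1 with h1 | h1
    · -- r = l
      rcases Nat.eq_zero_or_pos k with hk0 | hkpos
      · exfalso
        rw [hk0] at htr
        simp at htr
        linarith
      · refine ⟨k - 1, ?_, ?_⟩
        · rw [Nat.cast_sub hkpos]
          push_cast
          rw [htr, ← h1]
          linarith
        · rw [Nat.cast_sub hkpos]
          push_cast
          rw [htr, ← h1]
          linarith
    · rcases le_or_gt r s'' with h2 | h2
      · exfalso
        have := hgood r h1 h2
        linarith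
      · exact ⟨k, by linarith, by linarith⟩
  have hXn : ∀ (n : ℕ) t, 0 ≤ t → X (n + t) = n + X t := by
    intro n t ht
    rw [add_comm (n : ℝ) t, hper.nat n t ht, add_comm]
  -- the sequences
  set a : ℕ → ℝ := fun k => ((k / 3 : ℕ) : ℝ) + (if k % 3 = 0 then l else if k % 3 = 1 then s else s')
    with ha
  set b : ℕ → ℝ := fun k => if k = 0 then l else
    ((k / 3 : ℕ) : ℝ) + (if k % 3 = 0 then s' else if k % 3 = 1 then s'' else 1 + s) with hb
  have hmod : ∀ k : ℕ, k % 3 = 0 ∨ k % 3 = 1 ∨ k % 3 = 2 := by omega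
  have hamono : StrictMono a := by
    apply strictMono_nat_of_lt_succ
    intro k
    rcases hmod k with h0 | h0 | h0
    · have h1 : (k + 1) % 3 = 1 := by omega
      have h2 : (k + 1) / 3 = k / 3 := by omega
      simp only [ha, h0, h1, h2]
      simp
      linarith
    · have h1 : (k + 1) % 3 = 2 := by omega
      have h2 : (k + 1) / 3 = k / 3 := by omega
      simp only [ha, h0, h1, h2]
      simp
      linarith
    · have h1 : (k + 1) % 3 = 0 := by omega
      have h2 : (k + 1) / 3 = k / 3 + 1 := by omega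
      simp only [ha, h0, h1, h2]
      push_cast
      simp
      linarith
  have hbmono : StrictMono b := by
    apply strictMono_nat_of_lt_succ
    intro k
    rcases Nat.eq_zero_or_pos k with hk | hk
    · subst hk
      simp [hb]
      linarith
    · have hk0 : k ≠ 0 := by omega
      have hk1 : k + 1 ≠ 0 := by omega
      rcases hmod k with h0 | h0 | h0
      · have h1 : (k + 1) % 3 = 1 := by omega
        have h2 : (k + 1) / 3 = k / 3 := by omega
        simp only [hb, h0, h1, h2, hk0, hk1]
        simp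
        linarith
      · have h1 : (k + 1) % 3 = 2 := by omega
        have h2 : (k + 1) / 3 = k / 3 := by omega
        simp only [hb, h0, h1, h2, hk0, hk1]
        simp
        linarith
      · have h1 : (k + 1) % 3 = 0 := by omega
        have h2 : (k + 1) / 3 = k / 3 + 1 := by omega
        simp only [hb, h0, h1, h2, hk0, hk1]
        push_cast
        simp
        linarith
  have ha0 : a 0 = l := by simp [ha]
  have hb0 : b 0 = l := by simp [hb]
  have haval0 : ∀ n : ℕ, a (3 * n) = n + l := by
    intro n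
    have h1 : (3 * n) % 3 = 0 := by omega
    have h2 : (3 * n) / 3 = n := by omega
    simp only [ha, h1, h2]
    simp
  have haval1 : ∀ n : ℕ, a (3 * n + 1) = n + s := by
    intro n
    have h1 : (3 * n + 1) % 3 = 1 := by omega
    have h2 : (3 * n + 1) / 3 = n := by omega
    simp only [ha, h1, h2]
    simp
  have haval2 : ∀ n : ℕ, a (3 * n + 2) = n + s' := by
    intro n
    have h1 : (3 * n + 2) % 3 = 2 := by omega
    have h2 : (3 * n + 2) / 3 = n := by omega
    simp only [ha, h1, h2]
    simp
  have hbval0 : ∀ n : ℕ, b (3 * (n + 1)) = n + 1 + s' := by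
    intro n
    have h0 : 3 * (n + 1) ≠ 0 := by omega
    have h1 : (3 * (n + 1)) % 3 = 0 := by omega
    have h2 : (3 * (n + 1)) / 3 = n + 1 := by omega
    simp only [hb, h0, h1, h2]
    simp
  have hbval1 : ∀ n : ℕ, b (3 * n + 1) = n + s'' := by
    intro n
    have h0 : 3 * n + 1 ≠ 0 := by omega
    have h1 : (3 * n + 1) % 3 = 1 := by omega
    have h2 : (3 * n + 1) / 3 = n := by omega
    simp only [hb, h0, h1, h2]
    simp
  have hbval2 : ∀ n : ℕ, b (3 * n + 2) = n + (1 + s) := by
    intro n
    have h0 : 3 * n + 2 ≠ 0 := by omega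
    have h1 : (3 * n + 2) % 3 = 2 := by omega
    have h2 : (3 * n + 2) / 3 = n := by omega
    simp only [hb, h0, h1, h2]
    simp
  have hau : ∀ y, ∃ n, y ≤ a n := by
    intro y
    obtain ⟨n, hn⟩ := exists_nat_ge y
    exact ⟨3 * n, by rw [haval0]; linarith⟩
  have hbu : ∀ y, ∃ n, y ≤ b n := by
    intro y
    obtain ⟨n, hn⟩ := exists_nat_ge y
    exact ⟨3 * n + 1, by rw [hbval1]; linarith⟩
  obtain ⟨c, hc, hcab, hcid⟩ := interp a b hamono hbmono (by rw [ha0, hb0]) (by rw [hb0]; exact hl0)
    hau hbu
  have hcl : c l = l := hcid l ha0.ge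
  have hc1 : ∀ n : ℕ, c (n + s) = n + s'' := by
    intro n; rw [← haval1, hcab, hbval1]
  have hc2 : ∀ n : ℕ, c (n + s') = n + (1 + s) := by
    intro n; rw [← haval2, hcab, hbval2]
  have hc3 : ∀ n : ℕ, c (n + 1 + l) = n + 1 + s' := by
    intro n
    have h1 : ((n : ℝ) + 1 + l) = a (3 * (n + 1)) := by rw [haval0]; push_cast; ring
    rw [h1, hcab, hbval0]
  refine ⟨c, hc, ?_, ?_⟩
  · apply hl.mul
    have := hl.conj (hc.1 l)
    rwa [hcl] at this
  intro t ht
  show t < X (c (X (c⁻¹ t)))
  set u := c⁻¹ t with hu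
  have hcu : c u = t := by rw [hu, RelIso.apply_inv_self]
  have hlu : l < u := by
    rw [← c.lt_iff_lt, hcl, hcu]; exact ht
  rcases lt_or_ge u (X u) with hgu | hbu'
  · -- case 1
    have hY : t < c (X u) := by
      have := c.strictMono hgu
      rwa [hcu] at this
    rcases le_or_gt t (X t) with h1 | h1
    · exact lt_of_le_of_lt h1 (X.strictMono hY)
    · obtain ⟨n, hn1, hn2⟩ := hbad t ht h1.le
      have h2 : (n : ℝ) + s ≤ u := by
        rw [← c.le_iff_le, hcu, hc1]; exact hn1.le
      have h3 : (n : ℝ) + (1 + s) ≤ c (X u) := by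
        rw [← hc2]
        apply c.monotone
        have h4 := X.monotone h2
        rw [hXn n s (by linarith), hXs] at h4
        exact h4
      have h5 : (n : ℝ) + (1 + s) < X (n + (1 + s)) := by
        have h6 : (n : ℝ) + (1 + s) = ((n + 1 : ℕ) : ℝ) + s := by push_cast; ring
        rw [h6, hXn (n + 1) s (by linarith), hXs]
        linarith
      calc t ≤ n + 1 + l := hn2
        _ < n + (1 + s) := by linarith
        _ < X (n + (1 + s)) := h5
        _ ≤ X (c (X u)) := X.monotone h3
  · -- case 2
    obtain ⟨n, hn1, hn2⟩ := hbad u hlu hbu'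
    have h1 : t ≤ n + 1 + s' := by
      rw [← hc3, ← hcu]; exact c.monotone hn2
    have h2 : (n : ℝ) + s' < X u := by
      have h4 := X.monotone hn1.le
      rw [hXn n s'' (by linarith)] at h4
      linarith
    have h3 : (n : ℝ) + (1 + s) < c (X u) := by
      rw [← hc2]; exact c.strictMono h2
    have h4 : X (n + (1 + s)) = n + 1 + s' := by
      have h6 : (n : ℝ) + (1 + s) = ((n + 1 : ℕ) : ℝ) + s := by push_cast; ring
      rw [h6, hXn (n + 1) s (by linarith), hXs]
      push_cast; ring
    calc t ≤ n + 1 + s' := h1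
      _ = X (n + (1 + s)) := h4.symm
      _ < X (c (X u)) := X.strictMono h3

end Pool.Agent.Helper950
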