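import Pool.Agent.Helper950.RA

namespace Pool.Agent.Helper950

/-- Limits of eventually stable sequences. -/
theorem glue (g : ℕ → ℝ ≃o ℝ) (hg : ∀ n, g n ∈ RAG) (T : ℕ → ℝ) (hT : Monotone T)
    (hTu : ∀ y, ∃ n, y ≤ T n) (hT2 : ∀ y, ∃ n, y ≤ g n (T n))
    (hstep : ∀ n, ∀ t, t ≤ T n → g (n + 1) t = g n t) :
    ∃ c ∈ RAG, ∀ n, ∀ t, t ≤ T n → c t = g n t := by
  have hst : ∀ n k t, t ≤ T n → g (n + k) t = g n t := by
    intro n k
    induction k with
    | zero => intro t _; rfl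
    | succ k ih =>
      intro t ht
      rw [← add_assoc, hstep (n + k) t (ht.trans (hT (Nat.le_add_right _ _))), ih t ht]
  have hst2 : ∀ n m t, t ≤ T n → t ≤ T m → g n t = g m t := by
    intro n m t hn hm
    rcases le_total n m with h | h
    · obtain ⟨k, rfl⟩ := Nat.exists_eq_add_of_le h
      exact (hst n k t hn).symm
    · obtain ⟨k, rfl⟩ := Nat.exists_eq_add_of_le h
      exact hst m k t hm
  choose N hN using hTu
  set c : ℝ → ℝ := fun t => g (N t) t with hc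
  have hcn : ∀ n t, t ≤ T n → c t = g n t := fun n t ht => hst2 _ _ t (hN t) ht
  have hmono : StrictMono c := by
    intro a b hab
    rw [hcn (N b) a (hab.le.trans (hN b)), hcn (N b) b (hN b)]
    exact (g (N b)).strictMono hab
  have hsurj : Function.Surjective c := by
    intro y
    obtain ⟨n, hn⟩ := hT2 y
    refine ⟨(g n)⁻¹ y, ?_⟩
    have h1 : (g n)⁻¹ y ≤ T n := by
      have := (g n)⁻¹.monotone hn
      rwa [RelIso.inv_apply_self] at this
    rw [hcn n _ h1, RelIso.apply_inv_self]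
  refine ⟨StrictMono.orderIsoOfSurjective c hmono hsurj, ⟨?_, ?_⟩, ?_⟩
  · intro x
    obtain ⟨m, hm⟩ := (hg (N (x + 1))).1 x
    refine ⟨m, hm.congr 1 one_pos ?_⟩
    intro t _ ht
    exact hcn _ _ (ht.le.trans (hN (x + 1)))
  · obtain ⟨ε, hε, hid⟩ := (hg (N 1)).2
    refine ⟨min ε 1, lt_min hε one_pos, ?_⟩
    intro t ht
    have h1 : t ≤ 1 := ht.trans (min_le_right _ _)
    show c t = t
    rw [hcn (N 1) t (h1.trans (hN 1)), hid t (ht.trans (min_le_left _ _))]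
  · intro n t ht
    exact hcn n t ht

/-- The elementary map, identity up to `b` and affine of slope `μ` after. -/
theorem exists_elem (b μ : ℝ) (hb : 0 < b) (hμ : 0 < μ) :
    ∃ e ∈ RAG, (∀ t, t ≤ b → e t = t) ∧ (∀ t, b ≤ t → e t = b + μ * (t - b)) := by
  set c : ℝ → ℝ := fun t => if t ≤ b then t else b + μ * (t - b) with hc
  have h1 : ∀ t, t ≤ b → c t = t := fun t ht => by simp [hc, ht]
  have h2 : ∀ t, b ≤ t → c t = b + μ * (t - b) := by
    intro t ht
    rcases eq_or_lt_of_le ht with h | h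
    · subst h; simp [hc]
    · simp [hc, not_le.mpr h]
  have hmono : StrictMono c := by
    intro x y hxy
    rcases le_total y b with hy | hy
    · rw [h1 x (hxy.le.trans hy), h1 y hy]; exact hxy
    · rcases le_total x b with hx | hx
      · rw [h1 x hx, h2 y hy]
        rcases eq_or_lt_of_le hy with h | h
        · subst h; simpa using hxy
        · have : 0 < μ * (y - b) := mul_pos hμ (by linarith)
          linarith
      · rw [h2 x hx, h2 y hy]
        have : μ * (x - b) < μ * (y - b) := mul_lt_mul_of_pos_left (by linarith) hμ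
        linarith
  have hsurj : Function.Surjective c := by
    intro y
    rcases le_total y b with hy | hy
    · exact ⟨y, h1 y hy⟩
    · refine ⟨b + μ⁻¹ * (y - b), ?_⟩
      rw [h2]
      · field_simp; ring
      · have : 0 ≤ μ⁻¹ * (y - b) := mul_nonneg (inv_pos.mpr hμ).le (by linarith)
        linarith
  refine ⟨StrictMono.orderIsoOfSurjective c hmono hsurj, ⟨?_, b, hb, h1⟩, h1, h2⟩
  intro x
  rcases lt_or_ge x b with hx | hx
  · refine ⟨1, (RAt.id x).congr (b - x) (by linarith) ?_⟩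
    intro t _ ht
    exact h1 t (by linarith)
  · refine ⟨μ, hμ, 1, one_pos, ?_⟩
    intro s hs _
    show c (x + s) = c x + μ * s
    rw [h2 (x + s) (by linarith), h2 x hx]
    ring

/-- Interpolation. -/
theorem interp (a b : ℕ → ℝ) (ha : StrictMono a) (hb : StrictMono b) (h0 : a 0 = b 0)
    (h0' : 0 < b 0) (hau : ∀ y, ∃ n, y ≤ a n) (hbu : ∀ y, ∃ n, y ≤ b n) :
    ∃ c ∈ RAG, (∀ n, c (a n) = b n) ∧ ∀ t, t ≤ a 0 → c t = t := by
  have hbpos : ∀ n, 0 < b n := fun n => lt_of_lt_of_le h0' (hb.monotone (Nat.zero_le n))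
  let Q : ℕ → (ℝ ≃o ℝ) → Prop := fun n g =>
    g ∈ RAG ∧ g (a n) = b n ∧ ∀ t, t ≤ a 0 → g t = t
  have step : ∀ n (g : {g // Q n g}), ∃ g' : {g // Q (n + 1) g},
      ∀ t, t ≤ a n → (g' : ℝ ≃o ℝ) t = (g : ℝ ≃o ℝ) t := by
    rintro n ⟨g, hg1, hg2, hg3⟩
    have h1 : b n < g (a (n + 1)) := by
      rw [← hg2]; exact g.strictMono (ha (Nat.lt_succ_self n))
    have h2 : b n < b (n + 1) := hb (Nat.lt_succ_self n)
    obtain ⟨e, he1, he2, he3⟩ := exists_elem (b n) ((b (n + 1) - b n) / (g (a (n + 1)) - b n))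
      (hbpos n) (div_pos (by linarith) (by linarith))
    refine ⟨⟨e * g, RAG.mul_mem he1 hg1, ?_, ?_⟩, ?_⟩
    · show e (g (a (n + 1))) = b (n + 1)
      rw [he3 _ h1.le]
      have : g (a (n + 1)) - b n ≠ 0 := by linarith
      field_simp
      ring
    · intro t ht
      show e (g t) = t
      rw [hg3 t ht]
      apply he2
      calc t ≤ a 0 := ht
        _ = b 0 := h0
        _ ≤ b n := hb.monotone (Nat.zero_le n)
    · intro t ht
      show e (g t) = g t
      apply he2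
      rw [← hg2]
      exact g.monotone ht
  choose F hF using step
  let G : (n : ℕ) → {g // Q n g} := fun n =>
    Nat.rec (motive := fun n => {g // Q n g}) ⟨1, RAG.one_mem, h0, fun t _ => rfl⟩ (fun n g => F n g) n
  have hG : ∀ n t, t ≤ a n → (G (n + 1) : ℝ ≃o ℝ) t = (G n : ℝ ≃o ℝ) t := fun n => hF n (G n)
  obtain ⟨c, hc, hc2⟩ := glue (fun n => (G n : ℝ ≃o ℝ)) (fun n => (G n).2.1) a ha.monotone hau
    (fun y => by
      obtain ⟨n, hn⟩ := hbu y
      exact ⟨n, by rw [(G n).2.2.1]; exact hn⟩) hG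
  refine ⟨c, hc, ?_, ?_⟩
  · intro n
    rw [hc2 n (a n) le_rfl]
    exact (G n).2.2.1
  · intro t ht
    rw [hc2 0 t ht]
    rfl

/-- Strongly positive: identity up to `l`, slope `m` at `l`, above the identity after `l`. -/
def SP (f : ℝ → ℝ) (l m : ℝ) : Prop := Lead f l m ∧ ∀ t, l < t → t < f t

theorem SP.one_lt {f : ℝ → ℝ} {l m : ℝ} (h : SP f l m) : 1 < m := by
  obtain ⟨⟨h1, h2, e, he, h3⟩, h4⟩ := h
  have h5 := h3 (e / 2) (by linarith) (by linarith)
  have h6 := h4 (l + e / 2) (by linarith)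
  rw [h5, h1 l le_rfl] at h6
  by_contra hcon
  push Not at hcon
  have : m * (e / 2) ≤ 1 * (e / 2) := mul_le_mul_of_nonneg_right hcon (by linarith)
  linarith

theorem SP.le {f : ℝ → ℝ} {l m : ℝ} (h : SP f l m) (t : ℝ) : t ≤ f t := by
  rcases le_or_gt t l with h1 | h1
  · rw [h.1.1 t h1]
  · exact (h.2 t h1).le

theorem SP.conj {f c : ℝ ≃o ℝ} {l m : ℝ} (hf : SP f l m) (hc : c ∈ RAG) :
    SP (c * f * c⁻¹ : ℝ ≃o ℝ) (c l) m := by
  refine ⟨hf.1.conj (hc.1 l), ?_⟩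
  intro t ht
  show t < c (f (c⁻¹ t))
  have h1 : l < c⁻¹ t := by
    have := c⁻¹.strictMono ht
    rwa [RelIso.inv_apply_self] at this
  have h2 := c.strictMono (hf.2 _ h1)
  rwa [RelIso.apply_inv_self] at h2

theorem SP.iter_unbdd {z : ℝ ≃o ℝ} {l m t0 : ℝ} (h : SP z l m) (ht0 : l < t0) (y : ℝ) :
    ∃ n : ℕ, y ≤ (z ^ n) t0 := by
  by_contra hcon
  push Not at hcon
  set S : Set ℝ := Set.range fun n : ℕ => (z ^ n) t0 with hS
  have hne : S.Nonempty := ⟨_, 0, rfl⟩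
  have hbdd : BddAbove S := ⟨y, by rintro _ ⟨n, rfl⟩; exact (hcon n).le⟩
  set q := sSup S with hq
  have h1 : t0 ≤ q := le_csSup hbdd ⟨0, rfl⟩
  have h2 : q < z q := h.2 q (by linarith)
  have h3 : z⁻¹ q < q := by
    have := z⁻¹.strictMono h2
    rwa [RelIso.inv_apply_self] at this
  obtain ⟨_, ⟨n, rfl⟩, hn⟩ := exists_lt_of_lt_csSup hne h3
  have h4 := z.strictMono hn
  rw [RelIso.apply_inv_self] at h4
  have h5 : (z ^ (n + 1)) t0 = z ((z ^ n) t0) := by
    rw [pow_succ']; rfl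
  have h6 : (z ^ (n + 1)) t0 ≤ q := le_csSup hbdd ⟨n + 1, rfl⟩
  rw [h5] at h6
  simp only at h4
  linarith

theorem SP.iter_mono {z : ℝ ≃o ℝ} {l m t0 : ℝ} (h : SP z l m) :
    Monotone fun n : ℕ => (z ^ n) t0 := by
  apply monotone_nat_of_le_succ
  intro n
  show (z ^ n) t0 ≤ (z ^ (n + 1)) t0
  have h5 : (z ^ (n + 1)) t0 = z ((z ^ n) t0) := by
    rw [pow_succ']; rfl
  rw [h5]
  exact h.le _

/-- Two strongly positive elements with the same left end and the same slope are conjugate. -/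
theorem conj_same {z w : ℝ ≃o ℝ} (hz : z ∈ RAG) (hw : w ∈ RAG) {l m : ℝ}
    (h1 : SP z l m) (h2 : SP w l m) : ∃ c ∈ RAG, c * z * c⁻¹ = w := by
  obtain ⟨⟨hz1, -, e1, he1, hz3⟩, hz4⟩ := id h1
  obtain ⟨⟨hw1, -, e2, he2, hw3⟩, hw4⟩ := id h2
  set e := min e1 e2 with he
  have hepos : 0 < e := lt_min he1 he2
  have heq : ∀ t, t < l + e → z t = w t := by
    intro t ht
    rcases le_or_gt t l with h | h
    · rw [hz1 t h, hw1 t h]
    · have ha := hz3 (t - l) (by linarith) (by linarith [min_le_left e1 e2])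
      have hb := hw3 (t - l) (by linarith) (by linarith [min_le_right e1 e2])
      have hc : l + (t - l) = t := by ring
      rw [hc] at ha hb
      rw [ha, hb, hz1 l le_rfl, hw1 l le_rfl]
  set t0 := l + e / 2 with ht0
  have hlt0 : l < t0 := by linarith
  set g : ℕ → ℝ ≃o ℝ := fun n => w ^ n * (z ^ n)⁻¹ with hg
  set T : ℕ → ℝ := fun n => (z ^ n) t0 with hT
  have hgT : ∀ n, g n (T n) = (w ^ n) t0 := by
    intro n
    show (w ^ n) ((z ^ n)⁻¹ ((z ^ n) t0)) = (w ^ n) t0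
    rw [RelIso.inv_apply_self]
  have hstep : ∀ n, ∀ t, t ≤ T n → g (n + 1) t = g n t := by
    intro n t ht
    have hv : (z ^ n)⁻¹ t ≤ t0 := by
      have := ((z ^ n)⁻¹).monotone ht
      rwa [hT, RelIso.inv_apply_self] at this
    set v := (z ^ n)⁻¹ t with hvdef
    have hzv : z⁻¹ v ≤ v := by
      have := z⁻¹.monotone (h1.le v)
      rwa [RelIso.inv_apply_self] at this
    have h3 : w (z⁻¹ v) = v := by
      rw [← heq _ (by linarith), RelIso.apply_inv_self]
    show (w ^ (n + 1)) ((z ^ (n + 1))⁻¹ t) = (w ^ n) v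
    have h4 : (z ^ (n + 1))⁻¹ t = z⁻¹ v := by
      rw [pow_succ, mul_inv_rev]; rfl
    rw [h4, pow_succ]
    show (w ^ n) (w (z⁻¹ v)) = (w ^ n) v
    rw [h3]
  obtain ⟨c, hc, hc2⟩ := glue g (fun n => RAG.mul_mem (RAG.pow_mem hw n)
      (RAG.inv_mem (RAG.pow_mem hz n))) T h1.iter_mono (fun y => h1.iter_unbdd hlt0 y)
    (fun y => by
      obtain ⟨n, hn⟩ := h2.iter_unbdd hlt0 y
      exact ⟨n, by rw [hgT]; exact hn⟩) hstep
  refine ⟨c, hc, ?_⟩
  rw [mul_inv_eq_iff_eq_mul]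
  ext t
  show c (z t) = w (c t)
  obtain ⟨n, hn⟩ := h1.iter_unbdd hlt0 t
  have hn1 : z t ≤ T (n + 1) := by
    show z t ≤ (z ^ (n + 1)) t0
    rw [pow_succ']
    exact z.monotone hn
  rw [hc2 (n + 1) (z t) hn1, hc2 n t hn]
  show (w ^ (n + 1)) ((z ^ (n + 1))⁻¹ (z t)) = w ((w ^ n) ((z ^ n)⁻¹ t))
  have h4 : (z ^ (n + 1))⁻¹ (z t) = (z ^ n)⁻¹ t := by
    rw [pow_succ', mul_inv_rev]
    show (z ^ n)⁻¹ (z⁻¹ (z t)) = (z ^ n)⁻¹ t
    rw [RelIso.inv_apply_self]
  rw [h4, pow_succ']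
  rfl

theorem exists_move {l l' : ℝ} (hl : 0 < l) (hl' : 0 < l') : ∃ c ∈ RAG, c l = l' := by
  set b := min l l' / 2 with hb
  have hm : 0 < min l l' := lt_min hl hl'
  have h1 : b < l := by linarith [min_le_left l l']
  have h2 : b < l' := by linarith [min_le_right l l']
  obtain ⟨e, he, _, he3⟩ := exists_elem b ((l' - b) / (l - b)) (by linarith)
    (div_pos (by linarith) (by linarith))
  refine ⟨e, he, ?_⟩
  rw [he3 l h1.le]
  have : l - b ≠ 0 := by linarith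
  field_simp
  ring

/-- Two strongly positive elements with the same slope are conjugate. -/
theorem conj_all {z w : ℝ ≃o ℝ} (hz : z ∈ RAG) (hw : w ∈ RAG) {l l' m : ℝ}
    (h1 : SP z l m) (h2 : SP w l' m) : ∃ c ∈ RAG, c * z * c⁻¹ = w := by
  have hl : 0 < l := h1.1.pos hz h1.one_lt.ne'
  have hl' : 0 < l' := h2.1.pos hw h2.one_lt.ne'
  obtain ⟨d, hd, hdl⟩ := exists_move hl hl'
  have h3 : SP (d * z * d⁻¹ : ℝ ≃o ℝ) l' m := by
    have := h1.conj hd
    rwa [hdl] at this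
  obtain ⟨c, hc, hc2⟩ := conj_same (RAG.mul_mem (RAG.mul_mem hd hz) (RAG.inv_mem hd)) hw h3 h2
  refine ⟨c * d, RAG.mul_mem hc hd, ?_⟩
  rw [← hc2]
  group

end Pool.Agent.Helper950
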