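import Pool.Agent.Helper950.Phi
import Pool.Agent.Helper950.Crit

namespace Pool.Agent.Helper950

/-- The embedding as an element of the endomorphism monoid. -/
noncomputable def PhE : Monoid.End RAG := Ph

/-- The transition maps. -/
noncomputable def fPh (i j : ℕ) (_ : i ≤ j) : RAG →* RAG := (PhE ^ (j - i) : Monoid.End RAG)

instance : DirectedSystem (fun _ : ℕ => RAG) (fun i j h => ⇑(fPh i j h)) where
  map_self i x := by
    simp only [fPh, Nat.sub_self, pow_zero]; rfl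
  map_map k j i hij hjk x := by
    have h1 : PhE ^ (k - i) = PhE ^ (k - j) * PhE ^ (j - i) := by
      rw [← pow_add]; congr 1; omega
    simp only [fPh]
    rw [h1]
    rfl

/-- The direct limit group. -/
abbrev Lim : Type := DirectLimit (fun _ : ℕ => RAG) fPh

/-- The canonical functions. -/
noncomputable def inc0 (n : ℕ) (x : RAG) : Lim := Quotient.mk _ ⟨n, x⟩

theorem inc0_mul (n : ℕ) (x y : RAG) : inc0 n (x * y) = inc0 n x * inc0 n y := by
  have := DirectLimit.mul_def (f := fPh) n x y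
  exact this.symm

theorem inc0_one (n : ℕ) : inc0 n 1 = 1 := by
  have := DirectLimit.one_def (f := fPh) n
  exact this.symm

/-- The canonical maps. -/
noncomputable def inc (n : ℕ) : RAG →* Lim where
  toFun x := inc0 n x
  map_one' := inc0_one n
  map_mul' x y := inc0_mul n x y

theorem inc_surj (x : Lim) : ∃ n g, inc n g = x := by
  induction x using DirectLimit.induction with
  | _ i x => exact ⟨i, x, rfl⟩

theorem inc_le {i j : ℕ} (h : i ≤ j) (g : RAG) : inc j (fPh i j h g) = inc i g := by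
  have := DirectLimit.eq_of_le (f := fPh) ⟨i, g⟩ j h
  exact this.symm

theorem inc_succ (i : ℕ) (g : RAG) : inc (i + 1) (Ph g) = inc i g := by
  have h := inc_le (Nat.le_succ i) g
  have h2 : fPh i (i + 1) (Nat.le_succ i) g = Ph g := by
    have h3 : i + 1 - i = 1 := by omega
    simp only [fPh, h3, pow_one]; rfl
  rw [← h2]; exact h

/-- Positive elements. -/
def Pos (f : RAG) : Prop := ∃ l m, 1 < m ∧ Lead (f : ℝ ≃o ℝ) l m

theorem pos_or (f : RAG) (hf : f ≠ 1) : Pos f ∨ Pos f⁻¹ := by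
  obtain ⟨l, m, hm, h⟩ := exists_lead f.2 (by
    intro h
    exact hf (Subtype.ext h))
  rcases lt_or_gt_of_ne hm with h1 | h1
  · right
    refine ⟨l, m⁻¹, ?_, h.inv⟩
    exact (one_lt_inv₀ h.2.1).mpr h1
  · left
    exact ⟨l, m, h1, h⟩

theorem Ph_lead {f : RAG} {l m : ℝ} (hm : m ≠ 1) (h : Lead (f : ℝ ≃o ℝ) l m) :
    Lead ((Ph f : RAG) : ℝ ≃o ℝ) (th l) m :=
  phE_lead f.2 (h.pos f.2 hm).le h

theorem Ph_pos {f : RAG} (h : Pos f) : Pos (Ph f) := by
  obtain ⟨l, m, hm, h⟩ := h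
  exact ⟨th l, m, hm, Ph_lead hm.ne' h⟩

theorem not_pos_one : ¬ Pos 1 := by
  rintro ⟨l, m, hm, h⟩
  have h1 : RAt (fun t => t) l m := h.2
  have := h1.unique (RAt.id l)
  linarith

theorem Ph_inj {f : RAG} (h : Ph f = 1) : f = 1 := by
  by_contra hf
  rcases pos_or f hf with h1 | h1
  · have := Ph_pos h1
    rw [h] at this
    exact not_pos_one this
  · have := Ph_pos h1
    rw [map_inv, h, inv_one] at this
    exact not_pos_one this

theorem inc_inj {n : ℕ} {f : RAG} (h : inc n f = 1) : f = 1 := by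
  have h0 : (Quotient.mk _ ⟨n, f⟩ : Lim) = 1 := h
  have h1 := (DirectLimit.exists_eq_one (f := fPh) (⟨n, f⟩ : (_ : ℕ) × RAG)).mp h0
  obtain ⟨j, hj, h2⟩ := h1
  have key : ∀ k : ℕ, (PhE ^ k) f = 1 → f = 1 := by
    intro k
    induction k with
    | zero => intro h; simpa using h
    | succ k ih =>
      intro h
      apply ih
      apply Ph_inj
      rw [pow_succ'] at h
      exact h
  exact key _ h2

/-- the leads of the elements of the normal semigroup -/
theorem NS_lead {a x : RAG} {l m : ℝ} (hm : 1 < m) (ha : Lead (a : ℝ ≃o ℝ) l m) (hx : NS a x) :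
    ∃ (l' : ℝ) (i : ℕ), Lead (x : ℝ ≃o ℝ) l' (m ^ (i + 1)) := by
  induction hx with
  | conj g =>
    refine ⟨(g : ℝ ≃o ℝ) l, 0, ?_⟩
    have := ha.conj (g.2.1 l)
    simpa using this
  | mul _ _ ihx ihy =>
    obtain ⟨l1, i, h1⟩ := ihx
    obtain ⟨l2, j, h2⟩ := ihy
    rcases lt_trichotomy l1 l2 with h | h | h
    · refine ⟨l1, i, ?_⟩
      have := h1.mul (h2.of_lt h)
      rwa [mul_one] at this
    · subst h
      refine ⟨l1, i + j + 1, ?_⟩
      have := h1.mul h2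
      rw [← pow_add] at this
      have h3 : i + j + 1 + 1 = i + 1 + (j + 1) := by ring
      rw [h3]; exact this
    · refine ⟨l2, j, ?_⟩
      have := (h1.of_lt h).mul h2
      rwa [one_mul] at this

theorem exists_SP_in_NS {x : RAG} {l m : ℝ} (hm : 1 < m) (hx : Lead (x : ℝ ≃o ℝ) l m) :
    ∃ z : RAG, NS (Ph x) z ∧ SP (z : ℝ ≃o ℝ) (th l) (m * m) := by
  obtain ⟨c, hc, hSP⟩ := dominate (X := ((Ph x : RAG) : ℝ ≃o ℝ)) (Ph x).2 (phE_per _ x.2)
    (Ph_lead hm.ne' hx) hm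
  refine ⟨Ph x * ((⟨c, hc⟩ : RAG) * Ph x * (⟨c, hc⟩ : RAG)⁻¹), NS.mul (NS.self _) (NS.conj _), ?_⟩
  rw [Subgroup.coe_mul, Subgroup.coe_mul, Subgroup.coe_mul, Subgroup.coe_inv]
  exact hSP

/-- the key intersection property -/
theorem NS_meet {a x y : RAG} (ha : Pos a) (hx : NS a x) (hy : NS a y) :
    ∃ w, NS (Ph x) w ∧ NS (Ph y) w := by
  obtain ⟨l, m, hm, hl⟩ := ha
  obtain ⟨l1, i, h1⟩ := NS_lead hm hl hx
  obtain ⟨l2, j, h2⟩ := NS_lead hm hl hy
  obtain ⟨z1, hz1, hSP1⟩ := exists_SP_in_NS (one_lt_pow₀ hm (Nat.succ_ne_zero i)) h1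
  obtain ⟨z2, hz2, hSP2⟩ := exists_SP_in_NS (one_lt_pow₀ hm (Nat.succ_ne_zero j)) h2
  have h3 := hSP1.pow j
  have h4 := hSP2.pow i
  have h5 : (m ^ (i + 1) * m ^ (i + 1)) ^ (j + 1) = (m ^ (j + 1) * m ^ (j + 1)) ^ (i + 1) := by
    rw [← mul_pow, ← mul_pow, ← pow_mul, ← pow_mul, mul_comm (i + 1)]
  rw [h5] at h3
  obtain ⟨c, hc, hcc⟩ := conj_all (RAG.pow_mem z1.2 _) (RAG.pow_mem z2.2 _) h3 h4
  refine ⟨z2 ^ (i + 1), ?_, hz2.pow i⟩
  have h6 : z2 ^ (i + 1) = (⟨c, hc⟩ : RAG) * z1 ^ (j + 1) * (⟨c, hc⟩ : RAG)⁻¹ := by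
    apply Subtype.ext
    exact hcc.symm
  rw [h6]
  exact (hz1.pow j).conj_mem _

theorem NS_not_one {a : RAG} (ha : Pos a) : ¬ NS a 1 := by
  intro h
  obtain ⟨l, m, hm, hl⟩ := ha
  obtain ⟨l', i, h1⟩ := NS_lead hm hl h
  exact not_pos_one ⟨l', m ^ (i + 1), one_lt_pow₀ hm (Nat.succ_ne_zero i), h1⟩

/-- pulling the normal semigroup back to a level -/
theorem NS_level {n : ℕ} {a : RAG} {x : Lim} (hx : NS (inc n a) x) :
    ∃ k, n ≤ k ∧ ∀ j (hj : k ≤ j) (hnj : n ≤ j), ∃ x', NS (fPh n j hnj a) x' ∧ inc j x' = x := by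
  induction hx with
  | conj g =>
    obtain ⟨k, g', rfl⟩ := inc_surj g
    refine ⟨max n k, le_max_left _ _, ?_⟩
    intro j hj hnj
    refine ⟨fPh k j (le_trans (le_max_right _ _) hj) g' * fPh n j hnj a *
      (fPh k j (le_trans (le_max_right _ _) hj) g')⁻¹, NS.conj _, ?_⟩
    rw [map_mul, map_mul, map_inv, inc_le, inc_le]
  | mul _ _ ihx ihy =>
    obtain ⟨k1, hk1, h1⟩ := ihx
    obtain ⟨k2, hk2, h2⟩ := ihy
    refine ⟨max k1 k2, le_trans hk1 (le_max_left _ _), ?_⟩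
    intro j hj hnj
    obtain ⟨x', hx', hx2⟩ := h1 j (le_trans (le_max_left _ _) hj) hnj
    obtain ⟨y', hy', hy2⟩ := h2 j (le_trans (le_max_right _ _) hj) hnj
    exact ⟨x' * y', NS.mul hx' hy', by rw [map_mul, hx2, hy2]⟩

theorem Ph_pow_pos (k : ℕ) {a : RAG} (ha : Pos a) : Pos ((PhE ^ k) a) := by
  induction k with
  | zero => simpa using ha
  | succ k ih =>
    rw [pow_succ']
    exact Ph_pos ih

theorem good_inc {n : ℕ} {a : RAG} (ha : Pos a) : Good (inc n a) := by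
  constructor
  · intro h
    obtain ⟨k, hk, h1⟩ := NS_level h
    obtain ⟨x', hx', hx2⟩ := h1 k le_rfl hk
    rw [inc_inj hx2] at hx'
    exact NS_not_one (Ph_pow_pos _ ha) hx'
  · intro x y hx hy
    obtain ⟨k1, hk1, h1⟩ := NS_level hx
    obtain ⟨k2, hk2, h2⟩ := NS_level hy
    obtain ⟨x', hx', rfl⟩ := h1 (max k1 k2) (le_max_left _ _) (le_trans hk1 (le_max_left _ _))
    obtain ⟨y', hy', rfl⟩ := h2 (max k1 k2) (le_max_right _ _) (le_trans hk1 (le_max_left _ _))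
    obtain ⟨w, hw1, hw2⟩ := NS_meet (Ph_pow_pos _ ha) hx' hy'
    refine ⟨inc (max k1 k2 + 1) w, ?_, ?_⟩
    · have := hw1.map (inc (max k1 k2 + 1))
      rwa [inc_succ] at this
    · have := hw2.map (inc (max k1 k2 + 1))
      rwa [inc_succ] at this

theorem lim_good (a : Lim) (ha : a ≠ 1) : Good a ∨ Good a⁻¹ := by
  obtain ⟨n, g, rfl⟩ := inc_surj a
  have hg : g ≠ 1 := by
    rintro rfl
    exact ha (map_one _)
  rcases pos_or g hg with h | h
  · left; exact good_inc h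
  · right
    rw [← map_inv]
    exact good_inc h

theorem lim_simple : IsSimpleGroup Lim := by
  have key : ∀ N : Subgroup Lim, N.Normal → ∀ n (g : RAG), Pos g → inc n g ∈ N →
      ∀ h : RAG, inc (n + 1) h ∈ N := by
    intro N hN n g hg hgN h
    obtain ⟨l, m, hm, hl⟩ := hg
    obtain ⟨z, hz, hSP⟩ := exists_SP_in_NS hm hl
    have hns : ∀ {u v : Lim}, NS u v → u ∈ N → v ∈ N := by
      intro u v huv hu
      induction huv with
      | conj k => exact hN.conj_mem _ hu k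
      | mul _ _ ihx ihy => exact N.mul_mem ihx ihy
    have h1 : inc (n + 1) z ∈ N := by
      apply hns (hz.map (inc (n + 1)))
      rw [inc_succ]; exact hgN
    have h2 : (N.comap (inc (n + 1))).Normal := hN.comap _
    have h3 := normal_of_SP (N.comap (inc (n + 1))) h2 z.2 h1 hSP
    have h4 : h ∈ N.comap (inc (n + 1)) := by rw [h3]; trivial
    exact h4
  have hnt : Nontrivial Lim := by
    obtain ⟨e, he, he1, he2⟩ := exists_elem 1 2 one_pos two_pos
    refine ⟨inc 0 ⟨e, he⟩, 1, ?_⟩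
    intro h
    have h1 := inc_inj h
    have h2 : e = 1 := congrArg Subtype.val h1
    have h3 := he2 2 (by norm_num)
    rw [h2] at h3
    have h4 : (2 : ℝ) = 1 + 2 * (2 - 1) := h3
    norm_num at h4
  refine { hnt with eq_bot_or_eq_top_of_normal := ?_ }
  intro N hN
  by_cases hbot : N = ⊥
  · left; exact hbot
  right
  obtain ⟨x, hx1⟩ := (Subgroup.ne_bot_iff_exists_ne_one).mp hbot
  have hxN := x.2
  obtain ⟨n, g, hg⟩ := inc_surj (x : Lim)
  have hg1 : g ≠ 1 := by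
    rintro rfl
    apply hx1
    apply Subtype.ext
    rw [← hg, map_one]
    rfl
  have hgN : inc n g ∈ N := by rw [hg]; exact hxN
  obtain ⟨g', hg', hg'N⟩ : ∃ g', Pos g' ∧ inc n g' ∈ N := by
    rcases pos_or g hg1 with h | h
    · exact ⟨g, h, hgN⟩
    · exact ⟨g⁻¹, h, by rw [map_inv]; exact N.inv_mem hgN⟩
  rw [eq_top_iff]
  intro y _
  obtain ⟨k, h, rfl⟩ := inc_surj y
  -- go to level j = max n k
  set j := max n k with hj
  have h1 : inc j (fPh n j (le_max_left _ _) g') ∈ N := by rw [inc_le]; exact hg'N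
  have h2 := key N hN j _ (Ph_pow_pos _ hg') h1 (fPh k (j + 1) (by omega) h)
  rwa [inc_le] at h2

end Pool.Agent.Helper950
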