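import Pool.Agent.Helper950.Sup

namespace Pool.Agent.Helper950

/-- A piecewise affine bijection from the nonnegative half line onto `[0,1)`. -/
noncomputable def th (u : ℝ) : ℝ := 1 - (1 / 2) ^ ⌊u⌋₊ * (1 - (u - ⌊u⌋₊) / 2)

theorem th_eq {u : ℝ} (n : ℕ) (h1 : (n : ℝ) ≤ u) (h2 : u < n + 1) :
    th u = 1 - (1 / 2) ^ n * (1 - (u - n) / 2) := by
  have h3 : ⌊u⌋₊ = n := by
    rw [Nat.floor_eq_iff (le_trans (Nat.cast_nonneg n) h1)]
    exact ⟨h1, h2⟩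
  rw [th, h3]

theorem floor_bounds {u : ℝ} (hu : 0 ≤ u) : ((⌊u⌋₊ : ℕ) : ℝ) ≤ u ∧ u < ⌊u⌋₊ + 1 :=
  ⟨Nat.floor_le hu, Nat.lt_floor_add_one u⟩

theorem th_lower {u : ℝ} (hu : 0 ≤ u) : 1 - (1 / 2 : ℝ) ^ ⌊u⌋₊ ≤ th u := by
  obtain ⟨h1, h2⟩ := floor_bounds hu
  have h3 : (0 : ℝ) < (1 / 2) ^ ⌊u⌋₊ := by positivity
  rw [th]
  nlinarith

theorem th_upper {u : ℝ} (hu : 0 ≤ u) : th u < 1 - (1 / 2 : ℝ) ^ (⌊u⌋₊ + 1) := by
  obtain ⟨h1, h2⟩ := floor_bounds hu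
  have h3 : (0 : ℝ) < (1 / 2) ^ ⌊u⌋₊ := by positivity
  rw [th, pow_succ]
  nlinarith

theorem th_zero : th 0 = 0 := by
  rw [th_eq 0 (by simp) (by simp)]; simp

theorem th_nonneg {u : ℝ} (hu : 0 ≤ u) : 0 ≤ th u := by
  refine le_trans ?_ (th_lower hu)
  have : (1 / 2 : ℝ) ^ ⌊u⌋₊ ≤ 1 := pow_le_one₀ (by norm_num) (by norm_num)
  linarith

theorem th_lt_one {u : ℝ} (hu : 0 ≤ u) : th u < 1 := by
  refine lt_trans (th_upper hu) ?_
  have : (0 : ℝ) < (1 / 2) ^ (⌊u⌋₊ + 1) := by positivity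
  linarith

theorem th_lt {u v : ℝ} (hu : 0 ≤ u) (huv : u < v) : th u < th v := by
  have hv : 0 ≤ v := hu.trans huv.le
  have hfl : ⌊u⌋₊ ≤ ⌊v⌋₊ := Nat.floor_mono huv.le
  rcases eq_or_lt_of_le hfl with h | h
  · have h3 : (0 : ℝ) < (1 / 2) ^ ⌊v⌋₊ := by positivity
    rw [th, th, h]
    have : (1 / 2 : ℝ) ^ ⌊v⌋₊ * (v - u) > 0 := mul_pos h3 (by linarith)
    nlinarith
  · have h1 := th_upper hu
    have h2 := th_lower hv
    have h3 : (1 / 2 : ℝ) ^ ⌊v⌋₊ ≤ (1 / 2 : ℝ) ^ (⌊u⌋₊ + 1) :=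
      pow_le_pow_of_le_one (by norm_num) (by norm_num) h
    linarith

theorem th_le_iff {u v : ℝ} (hu : 0 ≤ u) (hv : 0 ≤ v) : th u ≤ th v ↔ u ≤ v := by
  constructor
  · intro h
    by_contra hcon
    push Not at hcon
    exact absurd (th_lt hv hcon) (not_lt.mpr h)
  · intro h
    rcases eq_or_lt_of_le h with h | h
    · rw [h]
    · exact (th_lt hu h).le

theorem th_surj {v : ℝ} (h0 : 0 ≤ v) (h1 : v < 1) : ∃ u, 0 ≤ u ∧ th u = v := by
  have hpos : 0 < 1 - v := by linarith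
  obtain ⟨n, hn1, hn2⟩ := exists_nat_pow_near (x := 1 / (1 - v)) (y := 2)
    (by rw [le_div_iff₀ hpos]; linarith) (by norm_num)
  have h2 : (0 : ℝ) < 2 ^ n := by positivity
  rw [le_div_iff₀ hpos] at hn1
  rw [div_lt_iff₀ hpos, pow_succ] at hn2
  refine ⟨n + 2 * (1 - 2 ^ n * (1 - v)), ?_, ?_⟩
  · have : (0 : ℝ) ≤ n := Nat.cast_nonneg n
    nlinarith
  · rw [th_eq n (by nlinarith) (by nlinarith)]
    have h3 : (1 / 2 : ℝ) ^ n * 2 ^ n = 1 := by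
      rw [← mul_pow]; norm_num
    have h4 : 1 - ((n : ℝ) + 2 * (1 - 2 ^ n * (1 - v)) - n) / 2 = 2 ^ n * (1 - v) := by ring
    rw [h4, ← mul_assoc, h3]
    ring

theorem th_RAt {u : ℝ} (hu : 0 ≤ u) : ∃ m, RAt th u m := by
  obtain ⟨h1, h2⟩ := floor_bounds hu
  refine ⟨(1 / 2) ^ (⌊u⌋₊ + 1), by positivity, ⌊u⌋₊ + 1 - u, by linarith, ?_⟩
  intro s hs0 hs
  rw [th_eq ⌊u⌋₊ (by linarith) (by linarith), th_eq ⌊u⌋₊ h1 h2, pow_succ]
  ring

/-- The inverse of `th`. -/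
noncomputable def ps (v : ℝ) : ℝ := if h : 0 ≤ v ∧ v < 1 then Classical.choose (th_surj h.1 h.2) else 0

theorem ps_nonneg (v : ℝ) : 0 ≤ ps v := by
  rw [ps]
  split_ifs with h
  · exact (Classical.choose_spec (th_surj h.1 h.2)).1
  · exact le_rfl

theorem th_ps {v : ℝ} (h0 : 0 ≤ v) (h1 : v < 1) : th (ps v) = v := by
  rw [ps, dif_pos ⟨h0, h1⟩]
  exact (Classical.choose_spec (th_surj h0 h1)).2

theorem ps_th {u : ℝ} (hu : 0 ≤ u) : ps (th u) = u := by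
  have h1 := th_ps (th_nonneg hu) (th_lt_one hu)
  have h2 := (th_le_iff (ps_nonneg _) hu).mp h1.le
  have h3 := (th_le_iff hu (ps_nonneg _)).mp h1.ge
  exact le_antisymm h2 h3

theorem ps_le_iff {v w : ℝ} (h0 : 0 ≤ v) (h1 : v < 1) (h2 : 0 ≤ w) (h3 : w < 1) :
    ps v ≤ ps w ↔ v ≤ w := by
  rw [← th_le_iff (ps_nonneg _) (ps_nonneg _), th_ps h0 h1, th_ps h2 h3]

theorem ps_lt_iff {v w : ℝ} (h0 : 0 ≤ v) (h1 : v < 1) (h2 : 0 ≤ w) (h3 : w < 1) :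
    ps v < ps w ↔ v < w := by
  rw [← not_le, ps_le_iff h2 h3 h0 h1, not_le]

theorem ps_RAt {u m : ℝ} (hu : 0 ≤ u) (h : RAt th u m) : RAt ps (th u) m⁻¹ := by
  obtain ⟨hm, e, he, haff⟩ := h
  refine ⟨inv_pos.mpr hm, m * e, mul_pos hm he, ?_⟩
  intro s hs0 hs
  have h1 : th u + s = th (u + m⁻¹ * s) := by
    rw [haff (m⁻¹ * s) (by positivity) ?_]
    · field_simp
    · rw [inv_mul_lt_iff₀ hm]; exact hs
  have h2 : 0 ≤ m⁻¹ * s := by positivity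
  rw [h1, ps_th (by linarith), ps_th hu]

/-- The periodic copy of `f`. -/
noncomputable def phf (f : ℝ → ℝ) (t : ℝ) : ℝ :=
  if t < 0 then t else ⌊t⌋ + th (f (ps (Int.fract t)))

theorem phf_neg {f : ℝ → ℝ} {t : ℝ} (ht : t < 0) : phf f t = t := by
  rw [phf, if_pos ht]

theorem phf_nonneg {f : ℝ → ℝ} {t : ℝ} (ht : 0 ≤ t) :
    phf f t = ⌊t⌋ + th (f (ps (Int.fract t))) := by
  rw [phf, if_neg (not_lt.mpr ht)]

theorem RAG_zero {f : ℝ ≃o ℝ} (hf : f ∈ RAG) : f 0 = 0 := by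
  obtain ⟨_, ε, hε, hid⟩ := hf
  exact hid 0 hε.le

theorem RAG_nonneg {f : ℝ ≃o ℝ} (hf : f ∈ RAG) {u : ℝ} (hu : 0 ≤ u) : 0 ≤ f u := by
  rw [← RAG_zero hf]; exact f.monotone hu

theorem phf_floor {f : ℝ ≃o ℝ} (hf : f ∈ RAG) {t : ℝ} (ht : 0 ≤ t) :
    ⌊phf f t⌋ = ⌊t⌋ ∧ Int.fract (phf f t) = th (f (ps (Int.fract t))) := by
  have h1 : 0 ≤ f (ps (Int.fract t)) := RAG_nonneg hf (ps_nonneg _)
  have h2 := th_nonneg h1
  have h3 := th_lt_one h1
  rw [phf_nonneg ht]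
  have h4 : ⌊((⌊t⌋ : ℤ) : ℝ) + th (f (ps (Int.fract t)))⌋ = ⌊t⌋ := by
    rw [Int.floor_eq_iff]
    constructor <;> linarith
  refine ⟨h4, ?_⟩
  rw [Int.fract, h4]
  ring

theorem phf_pos {f : ℝ ≃o ℝ} (hf : f ∈ RAG) {t : ℝ} (ht : 0 ≤ t) : 0 ≤ phf f t := by
  rw [phf_nonneg ht]
  have h1 : 0 ≤ f (ps (Int.fract t)) := RAG_nonneg hf (ps_nonneg _)
  have h2 := th_nonneg h1
  have h3 : (0 : ℝ) ≤ ⌊t⌋ := by exact_mod_cast Int.floor_nonneg.mpr ht
  linarith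

theorem phf_comp {f g : ℝ ≃o ℝ} (hg : g ∈ RAG) (t : ℝ) :
    phf (f * g : ℝ ≃o ℝ) t = phf f (phf g t) := by
  rcases lt_or_ge t 0 with ht | ht
  · rw [phf_neg ht, phf_neg ht, phf_neg ht]
  · rw [phf_nonneg (f := f) (phf_pos hg ht), (phf_floor hg ht).1, (phf_floor hg ht).2,
      ps_th (RAG_nonneg hg (ps_nonneg _)), phf_nonneg ht]
    rfl

theorem phf_one (t : ℝ) : phf (1 : ℝ ≃o ℝ) t = t := by
  rcases lt_or_ge t 0 with ht | ht
  · exact phf_neg ht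
  · rw [phf_nonneg ht]
    show (⌊t⌋ : ℝ) + th (ps (Int.fract t)) = t
    rw [th_ps (Int.fract_nonneg t) (Int.fract_lt_one t)]
    exact Int.floor_add_fract t

theorem phf_strictMono {f : ℝ ≃o ℝ} (hf : f ∈ RAG) : StrictMono (phf f) := by
  intro x y hxy
  rcases lt_or_ge x 0 with hx | hx
  · rw [phf_neg hx]
    rcases lt_or_ge y 0 with hy | hy
    · rw [phf_neg hy]; exact hxy
    · exact lt_of_lt_of_le hx (phf_pos hf hy)
  · have hy : 0 ≤ y := hx.trans hxy.le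
    rcases eq_or_lt_of_le (Int.floor_mono hxy.le) with h | h
    · rw [phf_nonneg hx, phf_nonneg hy, h]
      have h1 : Int.fract x < Int.fract y := by
        have h2 := Int.floor_add_fract x
        have h3 := Int.floor_add_fract y
        rw [h] at h2
        linarith
      have h2 : ps (Int.fract x) < ps (Int.fract y) :=
        (ps_lt_iff (Int.fract_nonneg x) (Int.fract_lt_one x) (Int.fract_nonneg y)
          (Int.fract_lt_one y)).mpr h1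
      have h3 := th_lt (RAG_nonneg hf (ps_nonneg _)) (f.strictMono h2)
      linarith
    · have h1 := (phf_floor hf hx).1
      have h2 := (phf_floor hf hy).1
      rw [← h1, ← h2] at h
      by_contra hcon
      push Not at hcon
      exact absurd (Int.floor_mono hcon) (not_le.mpr h)

/-- The periodic copy as an order isomorphism. -/
noncomputable def phE (f : ℝ ≃o ℝ) (hf : f ∈ RAG) : ℝ ≃o ℝ :=
  StrictMono.orderIsoOfSurjective (phf f) (phf_strictMono hf) (by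
    intro y
    refine ⟨phf (f⁻¹ : ℝ ≃o ℝ) y, ?_⟩
    rw [← phf_comp (RAG.inv_mem hf), mul_inv_cancel]
    exact phf_one y)

theorem phE_apply (f : ℝ ≃o ℝ) (hf : f ∈ RAG) (t : ℝ) : phE f hf t = phf f t := rfl

/-- local behaviour of the periodic copy -/
theorem phf_RAt {f : ℝ ≃o ℝ} (hf : f ∈ RAG) {t : ℝ} (ht : 0 ≤ t) {k m n : ℝ}
    (hk : RAt th (f (ps (Int.fract t))) k) (hm : RAt f (ps (Int.fract t)) m)
    (hn : RAt th (ps (Int.fract t)) n) : RAt (phf f) t (k * (m * n⁻¹)) := by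
  have h0 := Int.fract_nonneg t
  have h1 := Int.fract_lt_one t
  have hp : RAt ps (Int.fract t) n⁻¹ := by
    have := ps_RAt (ps_nonneg _) hn
    rwa [th_ps h0 h1] at this
  have h2 := RAt.comp (f := th) (g := fun v => f (ps v)) hk (hm.comp hp)
  obtain ⟨h3, e, he, haff⟩ := h2
  refine ⟨h3, min e (1 - Int.fract t), lt_min he (by linarith), ?_⟩
  intro s hs0 hs
  have hs1 : s < e := lt_of_lt_of_le hs (min_le_left _ _)
  have hs2 : s < 1 - Int.fract t := lt_of_lt_of_le hs (min_le_right _ _)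
  have h4 : ⌊t + s⌋ = ⌊t⌋ := by
    rw [Int.floor_eq_iff]
    have := Int.floor_add_fract t
    constructor <;> linarith
  have h5 : Int.fract (t + s) = Int.fract t + s := by
    rw [Int.fract, Int.fract, h4]; ring
  rw [phf_nonneg (by linarith), phf_nonneg ht, h4, h5]
  have h6 := haff s hs0 hs1
  simp only at h6
  rw [h6]
  ring

theorem phE_id {f : ℝ ≃o ℝ} {l : ℝ} (hl : 0 ≤ l) (hid : ∀ t, t ≤ l → f t = t) (t : ℝ)
    (ht : t ≤ th l) : phf f t = t := by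
  rcases lt_or_ge t 0 with h | h
  · exact phf_neg h
  · have h1 : t < 1 := lt_of_le_of_lt ht (th_lt_one hl)
    have hfr : Int.fract t = t := Int.fract_eq_self.mpr ⟨h, h1⟩
    have hfl : ⌊t⌋ = 0 := Int.floor_eq_zero_iff.mpr ⟨h, h1⟩
    have h2 : ps t ≤ l := by
      rw [← th_le_iff (ps_nonneg _) hl, th_ps h h1]; exact ht
    rw [phf_nonneg h, hfr, hfl, hid _ h2, th_ps h h1]
    simp

theorem phE_mem (f : ℝ ≃o ℝ) (hf : f ∈ RAG) : phE f hf ∈ RAG := by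
  obtain ⟨hra, ε, hε, hid⟩ := id hf
  refine ⟨?_, th ε, ?_, ?_⟩
  · intro x
    rcases lt_or_ge x 0 with hx | hx
    · refine ⟨1, (RAt.id x).congr (-x) (by linarith) ?_⟩
      intro t _ ht
      exact phf_neg (by linarith)
    · obtain ⟨n, hn⟩ := th_RAt (ps_nonneg (Int.fract x))
      obtain ⟨m, hm⟩ := hra (ps (Int.fract x))
      obtain ⟨k, hk⟩ := th_RAt (RAG_nonneg hf (ps_nonneg (Int.fract x)))
      exact ⟨_, phf_RAt hf hx hk hm hn⟩
  · have := th_lt le_rfl hε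
    rwa [th_zero] at this
  · exact fun t ht => phE_id hε.le hid t ht

theorem phE_per (f : ℝ ≃o ℝ) (hf : f ∈ RAG) : Per (phE f hf) := by
  intro t ht
  rw [phE_apply, phE_apply, phf_nonneg ht, phf_nonneg (by linarith), Int.floor_add_one,
    Int.fract_add_one]
  push_cast
  ring

theorem phE_lead {f : ℝ ≃o ℝ} (hf : f ∈ RAG) {l m : ℝ} (hl : 0 ≤ l) (h : Lead f l m) :
    Lead (phE f hf) (th l) m := by
  refine ⟨fun t ht => phE_id hl h.1 t ht, ?_⟩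
  have h0 := th_nonneg hl
  have h1 := th_lt_one hl
  have hfr : Int.fract (th l) = th l := Int.fract_eq_self.mpr ⟨h0, h1⟩
  obtain ⟨n, hn⟩ := th_RAt hl
  have h2 : RAt th (f (ps (Int.fract (th l)))) n := by
    rw [hfr, ps_th hl, h.1 l le_rfl]; exact hn
  have h3 : RAt f (ps (Int.fract (th l))) m := by
    rw [hfr, ps_th hl]; exact h.2
  have h4 : RAt th (ps (Int.fract (th l))) n := by
    rw [hfr, ps_th hl]; exact hn
  have h5 := phf_RAt hf h0 h2 h3 h4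
  have h6 : n * (m * n⁻¹) = m := by
    have := hn.1.ne'
    field_simp
  rw [h6] at h5
  exact h5

/-- The embedding of `RAG` into itself. -/
noncomputable def Ph : RAG →* RAG where
  toFun f := ⟨phE f.1 f.2, phE_mem f.1 f.2⟩
  map_one' := by
    apply Subtype.ext
    ext t
    exact phf_one t
  map_mul' := by
    rintro ⟨f, hf⟩ ⟨g, hg⟩
    apply Subtype.ext
    ext t
    exact phf_comp hg t

theorem Ph_apply (f : RAG) : ((Ph f : RAG) : ℝ ≃o ℝ) = phE f.1 f.2 := rfl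

end Pool.Agent.Helper950
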