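import Mathlib

namespace Pool.Agent.Helper950

/-- `f` is right-affine at `x` with slope `m > 0`. -/
def RAt (f : ℝ → ℝ) (x m : ℝ) : Prop :=
  0 < m ∧ ∃ ε, 0 < ε ∧ ∀ s, 0 ≤ s → s < ε → f (x + s) = f x + m * s

theorem RAt.comp {f g : ℝ → ℝ} {x m n : ℝ} (hf : RAt f (g x) m) (hg : RAt g x n) :
    RAt (fun t => f (g t)) x (m * n) := by
  obtain ⟨hm, e1, he1, h1⟩ := hf
  obtain ⟨hn, e2, he2, h2⟩ := hg
  refine ⟨mul_pos hm hn, min e2 (e1 / n), lt_min he2 (div_pos he1 hn), ?_⟩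
  intro s hs0 hs
  have hs1 : s < e2 := lt_of_lt_of_le hs (min_le_left _ _)
  have hs2 : s < e1 / n := lt_of_lt_of_le hs (min_le_right _ _)
  have hs3 : n * s < e1 := by
    rw [lt_div_iff₀ hn] at hs2
    linarith
  show f (g (x + s)) = f (g x) + m * n * s
  rw [h2 s hs0 hs1, h1 (n * s) (by positivity) hs3]
  ring

theorem RAt.congr {f g : ℝ → ℝ} {x m : ℝ} (hf : RAt f x m) (e : ℝ) (he : 0 < e)
    (h : ∀ t, x ≤ t → t < x + e → g t = f t) : RAt g x m := by
  obtain ⟨hm, e1, he1, h1⟩ := hf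
  refine ⟨hm, min e e1, lt_min he he1, ?_⟩
  intro s hs0 hs
  have hs1 : s < e := lt_of_lt_of_le hs (min_le_left _ _)
  have hs2 : s < e1 := lt_of_lt_of_le hs (min_le_right _ _)
  rw [h (x + s) (by linarith) (by linarith), h x le_rfl (by linarith), h1 s hs0 hs2]

theorem RAt.id (x : ℝ) : RAt (fun t => t) x 1 :=
  ⟨one_pos, 1, one_pos, fun s _ _ => by ring⟩

theorem RAt.symm {f : ℝ ≃o ℝ} {x m : ℝ} (hf : RAt f x m) :
    RAt (f⁻¹ : ℝ ≃o ℝ) (f x) m⁻¹ := by
  obtain ⟨hm, e1, he1, h1⟩ := hf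
  refine ⟨inv_pos.mpr hm, m * e1, mul_pos hm he1, ?_⟩
  intro s hs0 hs
  have h2 : f x + s = f (x + m⁻¹ * s) := by
    rw [h1 (m⁻¹ * s) (by positivity) ?_]
    · field_simp
    · rw [inv_mul_lt_iff₀ hm]; exact hs
  rw [h2]
  show f.symm (f (x + m⁻¹ * s)) = f.symm (f x) + m⁻¹ * s
  simp

theorem RAt.unique {f : ℝ → ℝ} {x m n : ℝ} (h1 : RAt f x m) (h2 : RAt f x n) : m = n := by
  obtain ⟨_, e1, he1, h1⟩ := h1
  obtain ⟨_, e2, he2, h2⟩ := h2
  have hpos : 0 < min e1 e2 := lt_min he1 he2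
  have ha := h1 (min e1 e2 / 2) (by linarith) (by linarith [min_le_left e1 e2])
  have hb := h2 (min e1 e2 / 2) (by linarith) (by linarith [min_le_right e1 e2])
  rw [ha] at hb
  have : (m - n) * (min e1 e2 / 2) = 0 := by linarith
  rcases mul_eq_zero.mp this with h | h
  · linarith
  · linarith

/-- The group of order automorphisms of the line that are right-affine everywhere and are the
identity on a neighbourhood of the nonpositive half line. -/
def RAG : Subgroup (ℝ ≃o ℝ) where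
  carrier := {f | (∀ x, ∃ m, RAt f x m) ∧ ∃ ε, 0 < ε ∧ ∀ t, t ≤ ε → f t = t}
  mul_mem' := by
    rintro f g ⟨hf1, e1, he1, hf2⟩ ⟨hg1, e2, he2, hg2⟩
    refine ⟨?_, min e1 e2, lt_min he1 he2, ?_⟩
    · intro x
      obtain ⟨n, hn⟩ := hg1 x
      obtain ⟨m, hm⟩ := hf1 (g x)
      exact ⟨m * n, hm.comp hn⟩
    · intro t ht
      show f (g t) = t
      rw [hg2 t (le_trans ht (min_le_right _ _)), hf2 t (le_trans ht (min_le_left _ _))]
  one_mem' := ⟨fun x => ⟨1, RAt.id x⟩, 1, one_pos, fun t _ => rfl⟩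
  inv_mem' := by
    rintro f ⟨hf1, e1, he1, hf2⟩
    refine ⟨?_, e1, he1, ?_⟩
    · intro y
      obtain ⟨m, hm⟩ := hf1 (f⁻¹ y)
      refine ⟨m⁻¹, ?_⟩
      have := hm.symm
      rwa [RelIso.apply_inv_self] at this
    · intro t ht
      have h := hf2 t ht
      calc f⁻¹ t = f⁻¹ (f t) := by rw [h]
        _ = t := RelIso.inv_apply_self f t

theorem mem_RAG {f : ℝ ≃o ℝ} :
    f ∈ RAG ↔ (∀ x, ∃ m, RAt f x m) ∧ ∃ ε, 0 < ε ∧ ∀ t, t ≤ ε → f t = t := Iff.rfl

/-- `f` is the identity up to `l` and is right-affine at `l` with slope `m`. -/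
def Lead (f : ℝ → ℝ) (l m : ℝ) : Prop := (∀ t, t ≤ l → f t = t) ∧ RAt f l m

theorem Lead.mul {f g : ℝ ≃o ℝ} {l m n : ℝ} (hf : Lead f l m) (hg : Lead g l n) :
    Lead (f * g : ℝ ≃o ℝ) l (m * n) := by
  refine ⟨?_, ?_⟩
  · intro t ht
    show f (g t) = t
    rw [hg.1 t ht, hf.1 t ht]
  · have h1 : RAt f (g l) m := by
      rw [hg.1 l le_rfl]; exact hf.2
    exact h1.comp hg.2

theorem Lead.of_lt {f : ℝ → ℝ} {l m l' : ℝ} (hf : Lead f l m) (h : l' < l) : Lead f l' 1 := by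
  refine ⟨fun t ht => hf.1 t (by linarith), ?_⟩
  refine (RAt.id l').congr (l - l') (by linarith) ?_
  intro t _ ht
  exact hf.1 t (by linarith)

theorem Lead.inv {f : ℝ ≃o ℝ} {l m : ℝ} (hf : Lead f l m) : Lead (f⁻¹ : ℝ ≃o ℝ) l m⁻¹ := by
  refine ⟨?_, ?_⟩
  · intro t ht
    calc f⁻¹ t = f⁻¹ (f t) := by rw [hf.1 t ht]
      _ = t := RelIso.inv_apply_self f t
  · have := hf.2.symm
    rwa [hf.1 l le_rfl] at this

theorem Lead.conj {f c : ℝ ≃o ℝ} {l m : ℝ} (hf : Lead f l m) (hc : ∃ k, RAt c l k) :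
    Lead (c * f * c⁻¹ : ℝ ≃o ℝ) (c l) m := by
  obtain ⟨k, hk⟩ := hc
  refine ⟨?_, ?_⟩
  · intro t ht
    show c (f (c⁻¹ t)) = t
    have h1 : c⁻¹ t ≤ l := by
      have := c⁻¹.monotone ht
      rwa [RelIso.inv_apply_self] at this
    rw [hf.1 _ h1, RelIso.apply_inv_self]
  · have h1 : RAt (c⁻¹ : ℝ ≃o ℝ) (c l) k⁻¹ := hk.symm
    have h2 : RAt f (c⁻¹ (c l)) m := by
      rw [RelIso.inv_apply_self]; exact hf.2
    have h3 : RAt c (f (c⁻¹ (c l))) k := by
      rw [RelIso.inv_apply_self, hf.1 l le_rfl]; exact hk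
    have h4 := RAt.comp (f := c) (g := fun t => f (c⁻¹ t)) h3 (h2.comp h1)
    have h5 : k * (m * k⁻¹) = m := by
      have := hk.1.ne'
      field_simp
    rw [h5] at h4
    exact h4

theorem Lead.unique {f : ℝ → ℝ} {l m l' m' : ℝ} (h : Lead f l m) (h' : Lead f l' m')
    (hm : m ≠ 1) (hm' : m' ≠ 1) : l = l' ∧ m = m' := by
  have key : ∀ {a b u v : ℝ}, Lead f a u → Lead f b v → u ≠ 1 → ¬ a < b := by
    intro a b u v ha hb hu hab
    have h1 := (hb.of_lt hab).2
    exact hu (ha.2.unique h1)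
  have h1 : l = l' := le_antisymm (not_lt.mp (key h' h hm')) (not_lt.mp (key h h' hm))
  subst h1
  exact ⟨rfl, h.2.unique h'.2⟩

theorem Lead.pos {f : ℝ ≃o ℝ} (hG : f ∈ RAG) {l m : ℝ} (h : Lead f l m) (hm : m ≠ 1) :
    0 < l := by
  obtain ⟨_, ε, hε, hid⟩ := hG
  by_contra hl
  push Not at hl
  have h2 : Lead f l 1 := by
    refine ⟨h.1, ?_⟩
    refine (RAt.id l).congr ε hε ?_
    intro t _ ht
    exact hid t (by linarith)
  exact hm (h.2.unique h2.2)

theorem exists_lead {f : ℝ ≃o ℝ} (hG : f ∈ RAG) (hf : f ≠ 1) :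
    ∃ l m, m ≠ 1 ∧ Lead f l m := by
  obtain ⟨hra, ε, hε, hid⟩ := hG
  set S : Set ℝ := {t | f t ≠ t} with hS
  have hne : S.Nonempty := by
    by_contra hcon
    rw [Set.not_nonempty_iff_eq_empty] at hcon
    apply hf
    ext t
    by_contra ht
    have : t ∈ S := ht
    rw [hcon] at this
    exact this
  have hbdd : BddBelow S := ⟨ε, fun t ht => by
    by_contra h
    push Not at h
    exact ht (hid t h.le)⟩
  set l := sInf S with hl
  have hlt : ∀ t, t < l → f t = t := by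
    intro t ht
    by_contra h
    exact absurd (csInf_le hbdd h) (not_le.mpr ht)
  have hfl : f l = l := by
    apply le_antisymm
    · by_contra h
      push Not at h
      -- l < f l, so take t between
      have h1 : f⁻¹ l < l := by
        have := f⁻¹.strictMono h
        rwa [RelIso.inv_apply_self] at this
      obtain ⟨t, ht1, ht2⟩ := exists_between h1
      have h2 : f t = t := hlt t ht2
      have h3 : f (f⁻¹ l) < f t := f.strictMono ht1
      rw [RelIso.apply_inv_self, h2] at h3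
      linarith
    · by_contra h
      push Not at h
      obtain ⟨t, ht1, ht2⟩ := exists_between h
      have h2 : f t = t := hlt t ht2
      have h3 : f t < f l := f.strictMono ht2
      linarith
  obtain ⟨m, hm⟩ := hra l
  refine ⟨l, m, ?_, ?_, hm⟩
  · rintro rfl
    obtain ⟨_, e, he, h1⟩ := hm
    have h2 : l + e ≤ sInf S := by
      apply le_csInf hne
      intro t ht
      by_contra hcon
      push Not at hcon
      rcases lt_or_ge t l with h | h
      · exact ht (hlt t h)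
      · apply ht
        have := h1 (t - l) (by linarith) (by linarith)
        rw [hfl] at this
        have h3 : l + (t - l) = t := by ring
        rw [h3] at this
        linarith
    linarith
  · intro t ht
    rcases lt_or_eq_of_le ht with h | h
    · exact hlt t h
    · rw [h]; exact hfl

end Pool.Agent.Helper950
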