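import Mathlib

set_option autoImplicit false

namespace Pool.Agent.Helper950.RatApx

open MeasureTheory Filter Topology Set

/-- product of the distances of `(x,0)` to `(0,h)` and `(b,k)` -/
noncomputable def ww (h k b x : ℝ) : ℝ := Real.sqrt ((x ^ 2 + h ^ 2) * ((x - b) ^ 2 + k ^ 2))

noncomputable def WW (h k b x : ℝ) : ℝ := 2 * x ^ 2 - 2 * b * x + h ^ 2 + k ^ 2 + 2 * ww h k b x

noncomputable def WM (h k b x : ℝ) : ℝ := 2 * x ^ 2 - 2 * b * x + h ^ 2 + k ^ 2 - 2 * ww h k b x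

noncomputable def x1 (h k b : ℝ) : ℝ :=
  (4 * b ^ 2 * h ^ 2 - (h ^ 2 - k ^ 2) ^ 2) / (4 * b * (h ^ 2 - k ^ 2))

noncomputable def php (h k b x : ℝ) : ℝ := b - x + b * (h ^ 2 - k ^ 2) / WW h k b x

noncomputable def phm (h k b x : ℝ) : ℝ := b - x + WW h k b x / (4 * (x - x1 h k b))

noncomputable def FF (h k b x : ℝ) : ℝ := ∫ t in Iic x, 1 / ww h k b t

noncomputable def Om (h k b : ℝ) : ℝ := ∫ t, 1 / ww h k b t

structure OK (h k b : ℝ) : Prop where
  h0 : 0 < h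
  k0 : 0 < k
  b0 : b ≠ 0
  hk : h ≠ k

/-! ### A -/

theorem ww_sq (h k b x : ℝ) : ww h k b x ^ 2 = (x ^ 2 + h ^ 2) * ((x - b) ^ 2 + k ^ 2) := by
  unfold ww
  rw [Real.sq_sqrt]
  positivity

theorem ww_nonneg (h k b x : ℝ) : 0 ≤ ww h k b x := Real.sqrt_nonneg _

theorem ww_pos {h k b : ℝ} (hO : OK h k b) (x : ℝ) : 0 < ww h k b x := by
  have := hO.h0
  have := hO.k0
  unfold ww
  positivity

theorem ww_cont (h k b : ℝ) : Continuous (ww h k b) := by
  unfold ww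
  fun_prop

theorem ww_ge1 (h k b x : ℝ) : h * k - x * (x - b) ≤ ww h k b x := by
  unfold ww
  apply Real.le_sqrt_of_sq_le
  nlinarith [sq_nonneg (x * k + h * (x - b))]

theorem ww_ge2 (h k b x : ℝ) : h * k + x * (x - b) ≤ ww h k b x := by
  unfold ww
  apply Real.le_sqrt_of_sq_le
  nlinarith [sq_nonneg (x * k - h * (x - b))]

theorem WW_ge (h k b x : ℝ) : (h + k) ^ 2 ≤ WW h k b x := by
  have := ww_ge1 h k b x
  unfold WW
  nlinarith

theorem WM_le (h k b x : ℝ) : WM h k b x ≤ (h - k) ^ 2 := by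
  have := ww_ge2 h k b x
  unfold WM
  nlinarith

theorem WW_pos {h k b : ℝ} (hO : OK h k b) (x : ℝ) : 0 < WW h k b x := by
  have h1 := WW_ge h k b x
  have h2 := hO.h0
  have h3 := hO.k0
  have : 0 < (h + k) ^ 2 := by positivity
  linarith

theorem OK.N_ne {h k b : ℝ} (hO : OK h k b) : h ^ 2 - k ^ 2 ≠ 0 := by
  have h2 := hO.h0
  have h3 := hO.k0
  have h4 := hO.hk
  intro h0
  have : (h - k) * (h + k) = 0 := by linarith
  rcases mul_eq_zero.1 this with h5 | h5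
  · exact h4 (by linarith)
  · linarith

theorem WW_mul_WM {h k b : ℝ} (hO : OK h k b) (x : ℝ) :
    WW h k b x * WM h k b x = 4 * b * (h ^ 2 - k ^ 2) * (x - x1 h k b) := by
  have h1 := ww_sq h k b x
  have hb := hO.b0
  have hN := hO.N_ne
  unfold WW WM x1
  have : (2 * x ^ 2 - 2 * b * x + h ^ 2 + k ^ 2 + 2 * ww h k b x) *
      (2 * x ^ 2 - 2 * b * x + h ^ 2 + k ^ 2 - 2 * ww h k b x) =
      (2 * x ^ 2 - 2 * b * x + h ^ 2 + k ^ 2) ^ 2 - 4 * ((x ^ 2 + h ^ 2) * ((x - b) ^ 2 + k ^ 2)) := by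
    rw [← h1]; ring
  rw [this]
  field_simp
  ring

theorem ww_deriv {h k b : ℝ} (hO : OK h k b) (x : ℝ) :
    HasDerivAt (ww h k b) ((x * ((x - b) ^ 2 + k ^ 2) + (x - b) * (x ^ 2 + h ^ 2)) / ww h k b x) x := by
  have hh := hO.h0
  have hk := hO.k0
  have h1 : HasDerivAt (fun y : ℝ => y ^ 2 + h ^ 2) (2 * x) x := by
    have := (hasDerivAt_pow 2 x).add_const (h ^ 2)
    simpa using this
  have h2 : HasDerivAt (fun y : ℝ => (y - b) ^ 2 + k ^ 2) (2 * (x - b)) x := by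
    have := (((hasDerivAt_id x).sub_const b).pow 2).add_const (k ^ 2)
    simpa using this
  have h0 : (x ^ 2 + h ^ 2) * ((x - b) ^ 2 + k ^ 2) ≠ 0 := by positivity
  have h3 := (h1.mul h2).sqrt h0
  have e : (x * ((x - b) ^ 2 + k ^ 2) + (x - b) * (x ^ 2 + h ^ 2)) / ww h k b x =
      (2 * x * ((x - b) ^ 2 + k ^ 2) + (x ^ 2 + h ^ 2) * (2 * (x - b))) /
        (2 * Real.sqrt ((x ^ 2 + h ^ 2) * ((x - b) ^ 2 + k ^ 2))) := by
    have h4 : 0 < Real.sqrt ((x ^ 2 + h ^ 2) * ((x - b) ^ 2 + k ^ 2)) := by positivity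
    unfold ww
    field_simp
  rw [e]
  exact h3

theorem keyQ' (h k b V x x' : ℝ)
    (h1 : (V - (2 * x ^ 2 - 2 * b * x + h ^ 2 + k ^ 2)) ^ 2 = 4 * ((x ^ 2 + h ^ 2) * ((x - b) ^ 2 + k ^ 2)))
    (h3 : V * (x + x') = b * V + b * (h ^ 2 - k ^ 2)) :
    (V - (2 * x' ^ 2 - 2 * b * x' + h ^ 2 + k ^ 2)) ^ 2 =
      4 * ((x' ^ 2 + h ^ 2) * ((x' - b) ^ 2 + k ^ 2)) := by
  linear_combination h1 - 4 * (x' - x) * h3

theorem ww_php {h k b : ℝ} (hO : OK h k b) (x : ℝ) :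
    ww h k b (php h k b x) =
      (WW h k b x - h ^ 2 - k ^ 2) / 2 - (php h k b x ^ 2 - b * php h k b x) := by
  have hW := WW_pos hO x
  have hh := hO.h0
  have hk := hO.k0
  have e1 : WW h k b x * (x + php h k b x) = b * WW h k b x + b * (h ^ 2 - k ^ 2) := by
    unfold php
    field_simp
    ring
  have e2 : (WW h k b x - (2 * x ^ 2 - 2 * b * x + h ^ 2 + k ^ 2)) ^ 2 =
      4 * ((x ^ 2 + h ^ 2) * ((x - b) ^ 2 + k ^ 2)) := by
    rw [← ww_sq]
    unfold WW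
    ring
  have e3 := keyQ' h k b _ x _ e2 e1
  have g1 := WW_ge h k b x
  have g2 := WM_le h k b (php h k b x)
  have g3 : WM h k b (php h k b x) = 2 * php h k b x ^ 2 - 2 * b * php h k b x + h ^ 2 + k ^ 2
    - 2 * ww h k b (php h k b x) := rfl
  rw [← ww_sq] at e3
  generalize php h k b x = x' at *
  generalize WW h k b x = W at *
  have e4 : (W - (2 * x' ^ 2 - 2 * b * x' + h ^ 2 + k ^ 2) - 2 * ww h k b x') *
      (W - (2 * x' ^ 2 - 2 * b * x' + h ^ 2 + k ^ 2) + 2 * ww h k b x') = 0 := by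
    linear_combination e3
  rcases mul_eq_zero.mp e4 with h5 | h5
  · linarith
  · exfalso
    have h6 : 0 < h * k := mul_pos hh hk
    nlinarith

theorem ww_phm {h k b : ℝ} (hO : OK h k b) (x : ℝ) (hx : x ≠ x1 h k b) :
    ww h k b (phm h k b x) = phm h k b x ^ 2 - b * phm h k b x + ww h k b x - x ^ 2 + b * x := by
  have hW := WW_pos hO x
  have hh := hO.h0
  have hk := hO.k0
  have hx' : x - x1 h k b ≠ 0 := sub_ne_zero.mpr hx
  have hWM := WW_mul_WM hO x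
  have e1 : WM h k b x * (x + phm h k b x) = b * WM h k b x + b * (h ^ 2 - k ^ 2) := by
    unfold phm
    have : WM h k b x * (x + (b - x + WW h k b x / (4 * (x - x1 h k b)))) =
      b * WM h k b x + (WW h k b x * WM h k b x) / (4 * (x - x1 h k b)) := by
      ring
    rw [this, hWM]
    field_simp
  have e2 : (WM h k b x - (2 * x ^ 2 - 2 * b * x + h ^ 2 + k ^ 2)) ^ 2 =
      4 * ((x ^ 2 + h ^ 2) * ((x - b) ^ 2 + k ^ 2)) := by
    rw [← ww_sq]
    unfold WM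
    ring
  have e3 := keyQ' h k b _ x _ e2 e1
  have g1 := WM_le h k b x
  have g2 := WW_ge h k b (phm h k b x)
  have g3 : WW h k b (phm h k b x) = 2 * phm h k b x ^ 2 - 2 * b * phm h k b x + h ^ 2 + k ^ 2
    + 2 * ww h k b (phm h k b x) := rfl
  have g4 : WM h k b x = 2 * x ^ 2 - 2 * b * x + h ^ 2 + k ^ 2 - 2 * ww h k b x := rfl
  rw [← ww_sq] at e3
  generalize phm h k b x = x' at *
  generalize WM h k b x = M at *
  have e4 : (M - (2 * x' ^ 2 - 2 * b * x' + h ^ 2 + k ^ 2) - 2 * ww h k b x') *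
      (M - (2 * x' ^ 2 - 2 * b * x' + h ^ 2 + k ^ 2) + 2 * ww h k b x') = 0 := by
    linear_combination e3
  rcases mul_eq_zero.mp e4 with h5 | h5
  · exfalso
    have h6 : 0 < h * k := mul_pos hh hk
    nlinarith
  · linarith

theorem php_deriv {h k b : ℝ} (hO : OK h k b) (x : ℝ) :
    HasDerivAt (php h k b) (-(ww h k b (php h k b x) / ww h k b x)) x := by
  have hw := ww_pos hO x
  have hW := WW_pos hO x
  have hwd := ww_deriv hO x
  have hWd : HasDerivAt (WW h k b) (4 * x - 2 * b + 2 * ((x * ((x - b) ^ 2 + k ^ 2) +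
      (x - b) * (x ^ 2 + h ^ 2)) / ww h k b x)) x := by
    have h1 : HasDerivAt (fun y : ℝ => 2 * y ^ 2 - 2 * b * y + h ^ 2 + k ^ 2) (4 * x - 2 * b) x := by
      have h2 := ((((hasDerivAt_pow 2 x).const_mul 2).sub ((hasDerivAt_id x).const_mul (2 * b))).add_const
        (h ^ 2)).add_const (k ^ 2)
      have h3 : (4 * x - 2 * b : ℝ) = 2 * (((2:ℕ):ℝ) * x ^ (2 - 1)) - 2 * b * 1 := by
        norm_num
        ring
      rw [h3]
      exact h2
    exact h1.add (hwd.const_mul 2)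
  have hP : HasDerivAt (php h k b) (-1 + (0 * WW h k b x - b * (h ^ 2 - k ^ 2) *
      (4 * x - 2 * b + 2 * ((x * ((x - b) ^ 2 + k ^ 2) +
      (x - b) * (x ^ 2 + h ^ 2)) / ww h k b x))) / WW h k b x ^ 2) x := by
    have h1 : HasDerivAt (fun y : ℝ => b - y) (-1) x := by
      simpa using (hasDerivAt_id x).const_sub b
    exact h1.add ((hasDerivAt_const x (b * (h ^ 2 - k ^ 2))).div hWd hW.ne')
  convert hP using 1
  rw [ww_php hO x]
  unfold php
  have hWe : WW h k b x = 2 * x ^ 2 - 2 * b * x + h ^ 2 + k ^ 2 + 2 * ww h k b x := rfl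
  generalize WW h k b x = W at *
  generalize ww h k b x = w at *
  have hw' := hw.ne'
  have hW' := hW.ne'
  field_simp
  rw [hWe]
  ring

theorem phm_deriv {h k b : ℝ} (hO : OK h k b) (x : ℝ) (hx : x ≠ x1 h k b) :
    HasDerivAt (phm h k b) (-(ww h k b (phm h k b x) / ww h k b x)) x := by
  have hwd := ww_deriv hO x
  have hw0 : ww h k b x ≠ 0 := (ww_pos hO x).ne'
  have hd0 : x - x1 h k b ≠ 0 := sub_ne_zero.mpr hx
  have hWM := WW_mul_WM hO x
  have hWW : HasDerivAt (WW h k b)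
      (4 * x - 2 * b + 2 * ((x * ((x - b) ^ 2 + k ^ 2) + (x - b) * (x ^ 2 + h ^ 2)) /
        ww h k b x)) x := by
    have h1 : HasDerivAt (fun y : ℝ => 2 * y ^ 2 - 2 * b * y + h ^ 2 + k ^ 2)
        (4 * x - 2 * b) x := by
      have h2 : HasDerivAt (fun y : ℝ => 2 * y ^ 2) (2 * (2 * x)) x := by
        simpa using (hasDerivAt_pow 2 x).const_mul 2
      have h3 : HasDerivAt (fun y : ℝ => 2 * b * y) (2 * b) x := by
        simpa using (hasDerivAt_id x).const_mul (2 * b)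
      have h4 := ((h2.sub h3).add_const (h ^ 2)).add_const (k ^ 2)
      refine h4.congr_deriv ?_
      ring
    exact h1.add (hwd.const_mul 2)
  have hden : HasDerivAt (fun y : ℝ => 4 * (y - x1 h k b)) 4 x := by
    simpa using ((hasDerivAt_id x).sub_const (x1 h k b)).const_mul 4
  have hmain := ((hasDerivAt_id x).const_sub b).add
    (hWW.div hden (mul_ne_zero (by norm_num) hd0))
  have hphm : HasDerivAt (phm h k b) _ x := hmain
  refine hphm.congr_deriv ?_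
  rw [ww_phm hO x hx]
  have hu : phm h k b x = b - x + WW h k b x / (4 * (x - x1 h k b)) := rfl
  have hW : WW h k b x = 2 * x ^ 2 - 2 * b * x + h ^ 2 + k ^ 2 + 2 * ww h k b x := rfl
  have hM : WM h k b x = WW h k b x - 4 * ww h k b x := by unfold WM WW; ring
  rw [hM] at hWM
  rw [hu]
  generalize hdd : x - x1 h k b = d at *
  generalize hww : ww h k b x = w at *
  generalize hWWW : WW h k b x = W at *
  have key : b * (h ^ 2 - k ^ 2) + ((4 * x - 2 * b) * w +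
      2 * (x * ((x - b) ^ 2 + k ^ 2) + (x - b) * (x ^ 2 + h ^ 2))) + (b - 2 * x) * W = 0 := by
    rw [hW]; ring
  field_simp
  linear_combination hWM + 4 * d * key

theorem ww_le (h k b x : ℝ) : ww h k b x ≤ ((x ^ 2 + h ^ 2) + ((x - b) ^ 2 + k ^ 2)) / 2 := by
  unfold ww
  apply Real.sqrt_le_iff.2
  constructor
  · positivity
  · nlinarith [sq_nonneg ((x ^ 2 + h ^ 2) - ((x - b) ^ 2 + k ^ 2))]

theorem phm_lim_aux {h k b : ℝ} (l : Filter ℝ)
    (hl : Tendsto (fun x => |x - x1 h k b|) l atTop) :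
    Tendsto (phm h k b) l (𝓝 (x1 h k b)) := by
  obtain ⟨X, hX⟩ : ∃ X, X = x1 h k b := ⟨_, rfl⟩
  rw [← hX] at hl ⊢
  obtain ⟨C, hC⟩ : ∃ C, C = |X ^ 2 - b * X| + (2 * h ^ 2 + 2 * k ^ 2 + b ^ 2) / 4 := ⟨_, rfl⟩
  have h1 : Tendsto (fun x => C / |x - X|) l (𝓝 0) := tendsto_const_nhds.div_atTop hl
  have hpos : ∀ᶠ x in l, 0 < |x - X| := hl.eventually (eventually_gt_atTop 0)
  rw [tendsto_iff_norm_sub_tendsto_zero]
  refine squeeze_zero' (Eventually.of_forall fun x => norm_nonneg _) ?_ h1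
  filter_upwards [hpos] with x hx
  have hne : x - X ≠ 0 := abs_pos.1 hx
  have e : phm h k b x - X =
      (X ^ 2 - b * X + (WW h k b x - 4 * (x ^ 2 - b * x)) / 4) / (x - X) := by
    unfold phm
    rw [← hX]
    field_simp
    ring
  rw [e, Real.norm_eq_abs, abs_div]
  apply div_le_div_of_nonneg_right _ hx.le
  rw [hC]
  refine (abs_add_le _ _).trans ?_
  have h2 := ww_le h k b x
  have h3 := ww_ge2 h k b x
  have h4 : |(WW h k b x - 4 * (x ^ 2 - b * x)) / 4| ≤ (2 * h ^ 2 + 2 * k ^ 2 + b ^ 2) / 4 := by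
    unfold WW
    rw [abs_le]
    constructor
    · nlinarith [sq_nonneg (h + k), sq_nonneg h, sq_nonneg k, sq_nonneg b]
    · nlinarith
  linarith

theorem php_atTop {h k b : ℝ} (hO : OK h k b) : Tendsto (php h k b) atTop atBot := by
  have h0 := hO.h0
  have k0 := hO.k0
  have hle : ∀ x, php h k b x ≤ (b + |b * (h ^ 2 - k ^ 2)| / (h + k) ^ 2) + -x := by
    intro x
    unfold php
    have h1 : b * (h ^ 2 - k ^ 2) / WW h k b x ≤ |b * (h ^ 2 - k ^ 2)| / (h + k) ^ 2 := by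
      calc b * (h ^ 2 - k ^ 2) / WW h k b x ≤ |b * (h ^ 2 - k ^ 2)| / WW h k b x :=
            div_le_div_of_nonneg_right (le_abs_self _) (WW_pos hO x).le
        _ ≤ |b * (h ^ 2 - k ^ 2)| / (h + k) ^ 2 :=
            div_le_div_of_nonneg_left (abs_nonneg _) (by positivity) (WW_ge h k b x)
    linarith
  exact tendsto_atBot_mono hle (tendsto_atBot_add_const_left _ _ tendsto_neg_atTop_atBot)

theorem phm_atTop {h k b : ℝ} (hO : OK h k b) : Tendsto (phm h k b) atTop (𝓝 (x1 h k b)) := by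
  apply phm_lim_aux
  apply tendsto_abs_atTop_atTop.comp
  simp only [sub_eq_add_neg]
  exact tendsto_atTop_add_const_right _ _ tendsto_id

theorem phm_atBot {h k b : ℝ} (hO : OK h k b) : Tendsto (phm h k b) atBot (𝓝 (x1 h k b)) := by
  apply phm_lim_aux
  apply tendsto_abs_atBot_atTop.comp
  simp only [sub_eq_add_neg]
  exact tendsto_atBot_add_const_right _ _ tendsto_id

theorem inv_integrable {h k b : ℝ} (hO : OK h k b) : Integrable (fun t => 1 / ww h k b t) := by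
  have hh := hO.h0
  have hk := hO.k0
  have hD : 0 < 1 + 2 * b ^ 2 + 2 * k ^ 2 := by positivity
  have hH : 0 < 1 + h ^ 2 := by positivity
  set m : ℝ := Real.sqrt (h ^ 2 * k ^ 2 / ((1 + h ^ 2) * (1 + 2 * b ^ 2 + 2 * k ^ 2))) with hm
  have hm2 : m ^ 2 = h ^ 2 * k ^ 2 / ((1 + h ^ 2) * (1 + 2 * b ^ 2 + 2 * k ^ 2)) := by
    rw [hm, Real.sq_sqrt (by positivity)]
  have hm0 : 0 < m := Real.sqrt_pos.2 (by positivity)
  have hle : ∀ x, m * (1 + x ^ 2) ≤ ww h k b x := by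
    intro x
    unfold ww
    apply Real.le_sqrt_of_sq_le
    rw [mul_pow, hm2, div_mul_eq_mul_div, div_le_iff₀ (by positivity)]
    have a1 : h ^ 2 * (1 + x ^ 2) ≤ (x ^ 2 + h ^ 2) * (1 + h ^ 2) := by
      nlinarith [sq_nonneg x, sq_nonneg h, mul_nonneg (sq_nonneg h) (sq_nonneg h)]
    have a2 : k ^ 2 * (1 + x ^ 2) ≤ ((x - b) ^ 2 + k ^ 2) * (1 + 2 * b ^ 2 + 2 * k ^ 2) := by
      have e1 : 1 + x ^ 2 ≤ 1 + 2 * b ^ 2 + 2 * (x - b) ^ 2 := by
        nlinarith [sq_nonneg (x - 2 * b)]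
      have e2 : k ^ 2 * (1 + x ^ 2) ≤ k ^ 2 * (1 + 2 * b ^ 2 + 2 * (x - b) ^ 2) :=
        mul_le_mul_of_nonneg_left e1 (sq_nonneg k)
      nlinarith [sq_nonneg (x - b), sq_nonneg k, sq_nonneg b,
        mul_nonneg (sq_nonneg (x - b)) (sq_nonneg b), mul_nonneg (sq_nonneg k) (sq_nonneg k)]
    calc h ^ 2 * k ^ 2 * (1 + x ^ 2) ^ 2 = (h ^ 2 * (1 + x ^ 2)) * (k ^ 2 * (1 + x ^ 2)) := by ring
      _ ≤ ((x ^ 2 + h ^ 2) * (1 + h ^ 2)) * (((x - b) ^ 2 + k ^ 2) * (1 + 2 * b ^ 2 + 2 * k ^ 2)) :=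
          mul_le_mul a1 a2 (by positivity) (by positivity)
      _ = (x ^ 2 + h ^ 2) * ((x - b) ^ 2 + k ^ 2) *
          ((1 + h ^ 2) * (1 + 2 * b ^ 2 + 2 * k ^ 2)) := by ring
  refine Integrable.mono' (g := fun x => (1 / m) * (1 + x ^ 2)⁻¹)
    (integrable_inv_one_add_sq.const_mul (1 / m)) ?_ ?_
  · exact (continuous_const.div (ww_cont h k b)
      (fun x => (ww_pos hO x).ne')).aestronglyMeasurable
  · refine Filter.Eventually.of_forall (fun x => ?_)
    rw [Real.norm_eq_abs, abs_of_pos (div_pos one_pos (ww_pos hO x))]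
    have hx : 0 < m * (1 + x ^ 2) := by positivity
    calc 1 / ww h k b x ≤ 1 / (m * (1 + x ^ 2)) := one_div_le_one_div_of_le hx (hle x)
      _ = (1 / m) * (1 + x ^ 2)⁻¹ := by
          field_simp

theorem FF_deriv {h k b : ℝ} (hO : OK h k b) (x : ℝ) :
    HasDerivAt (FF h k b) (1 / ww h k b x) x := by
  have hc : Continuous (fun t => 1 / ww h k b t) :=
    continuous_const.div (ww_cont h k b) fun t => (ww_pos hO t).ne'
  have hi := inv_integrable hO
  have h1 : FF h k b = fun y => FF h k b x + ∫ t in x..y, 1 / ww h k b t := by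
    funext y
    have h2 := intervalIntegral.integral_Iic_sub_Iic (μ := volume) (f := fun t => 1 / ww h k b t)
      (a := x) (b := y) hi.integrableOn hi.integrableOn
    unfold FF
    rw [← h2]; ring
  rw [h1]
  have h3 : HasDerivAt (fun y => ∫ t in x..y, 1 / ww h k b t) (1 / ww h k b x) x :=
    intervalIntegral.integral_hasDerivAt_right (hc.intervalIntegrable _ _)
      (hc.stronglyMeasurableAtFilter _ _) hc.continuousAt
  exact h3.const_add _

theorem FF_mono {h k b : ℝ} (hO : OK h k b) : StrictMono (FF h k b) := by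
  apply strictMono_of_hasDerivAt_pos (f' := fun x => 1 / ww h k b x) (fun x => FF_deriv hO x)
  intro x
  have := ww_pos hO x
  positivity

theorem FF_atBot {h k b : ℝ} (hO : OK h k b) : Tendsto (FF h k b) atBot (𝓝 0) := by
  have hi := inv_integrable hO
  have h1 : Tendsto (fun x : ℝ => ∫ t in Ioi x, 1 / ww h k b t) atBot (𝓝 (Om h k b)) :=
    (aecover_Ioi tendsto_id).integral_tendsto_of_countably_generated hi
  have h2 : FF h k b = fun x => Om h k b - ∫ t in Ioi x, 1 / ww h k b t := by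
    funext x
    unfold FF Om
    rw [← intervalIntegral.integral_Iic_add_Ioi (b := x) hi.integrableOn hi.integrableOn]
    ring
  rw [h2]
  have h3 := (tendsto_const_nhds (x := Om h k b) (f := (atBot : Filter ℝ))).sub h1
  rwa [sub_self] at h3

theorem FF_atTop {h k b : ℝ} (hO : OK h k b) : Tendsto (FF h k b) atTop (𝓝 (Om h k b)) := by
  exact (aecover_Iic tendsto_id).integral_tendsto_of_countably_generated (inv_integrable hO)

theorem FF_pos {h k b : ℝ} (hO : OK h k b) (x : ℝ) : 0 < FF h k b x := by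
  have h1 : 0 ≤ FF h k b (x - 1) := (FF_mono hO).monotone.le_of_tendsto (FF_atBot hO) _
  have h2 : FF h k b (x - 1) < FF h k b x := FF_mono hO (by linarith)
  linarith

theorem FF_lt {h k b : ℝ} (hO : OK h k b) (x : ℝ) : FF h k b x < Om h k b := by
  have h1 : FF h k b (x + 1) ≤ Om h k b := (FF_mono hO).monotone.ge_of_tendsto (FF_atTop hO) _
  have h2 : FF h k b x < FF h k b (x + 1) := FF_mono hO (by linarith)
  linarith

theorem Om_pos {h k b : ℝ} (hO : OK h k b) : 0 < Om h k b :=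
  (FF_pos hO 0).trans (FF_lt hO 0)

theorem FF_surj {h k b : ℝ} (hO : OK h k b) (t : ℝ) (h0 : 0 < t) (h1 : t < Om h k b) :
    ∃ x, FF h k b x = t := by
  have hc : Continuous (FF h k b) :=
    continuous_iff_continuousAt.2 fun x => (FF_deriv hO x).continuousAt
  obtain ⟨a, ha⟩ := ((FF_atBot hO).eventually_lt_const h0).exists
  obtain ⟨c, hc'⟩ := ((FF_atTop hO).eventually_const_lt h1).exists
  exact mem_range_of_exists_le_of_exists_ge hc ⟨a, ha.le⟩ ⟨c, hc'.le⟩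

theorem FFc {h k b : ℝ} (hO : OK h k b) : Continuous (FF h k b) :=
  continuous_iff_continuousAt.mpr fun x => (FF_deriv hO x).continuousAt

theorem G_deriv {h k b : ℝ} (hO : OK h k b) {g : ℝ → ℝ} {x : ℝ}
    (hg : HasDerivAt g (-(ww h k b (g x) / ww h k b x)) x) :
    HasDerivAt (fun y => FF h k b (g y) + FF h k b y) 0 x := by
  have h1 := (FF_deriv hO (g x)).comp x hg
  have h2 := h1.add (FF_deriv hO x)
  have h3 : 1 / ww h k b (g x) * -(ww h k b (g x) / ww h k b x) + 1 / ww h k b x = 0 := by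
    have := (ww_pos hO (g x)).ne'
    have := (ww_pos hO x).ne'
    field_simp
    ring
  rw [h3] at h2
  exact h2

theorem FF_php {h k b : ℝ} (hO : OK h k b) (x : ℝ) :
    FF h k b (php h k b x) + FF h k b x = Om h k b := by
  have hd : ∀ y, HasDerivAt (fun y => FF h k b (php h k b y) + FF h k b y) 0 y := fun y =>
    G_deriv hO (php_deriv hO y)
  have hc := is_const_of_deriv_eq_zero (fun y => (hd y).differentiableAt) (fun y => (hd y).deriv)
  have h1 : Tendsto (fun y => FF h k b (php h k b y) + FF h k b y) atTop (𝓝 (0 + Om h k b)) :=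
    ((FF_atBot hO).comp (php_atTop hO)).add (FF_atTop hO)
  have h2 : Tendsto (fun y => FF h k b (php h k b y) + FF h k b y) atTop
      (𝓝 (FF h k b (php h k b x) + FF h k b x)) := by
    refine tendsto_const_nhds.congr fun y => ?_
    exact hc x y
  have := tendsto_nhds_unique h2 h1
  rw [zero_add] at this
  exact this

theorem FF_phm_gt {h k b : ℝ} (hO : OK h k b) (x : ℝ) (hx : x1 h k b < x) :
    FF h k b (phm h k b x) + FF h k b x = FF h k b (x1 h k b) + Om h k b := by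
  have hd : ∀ y ∈ Ioi (x1 h k b), HasDerivAt (fun y => FF h k b (phm h k b y) + FF h k b y) 0 y :=
    fun y hy => G_deriv hO (phm_deriv hO y (ne_of_gt hy))
  have hc : ∀ y ∈ Ioi (x1 h k b), FF h k b (phm h k b x) + FF h k b x =
      FF h k b (phm h k b y) + FF h k b y := fun y hy =>
    isOpen_Ioi.is_const_of_deriv_eq_zero isPreconnected_Ioi
      (fun y hy => (hd y hy).differentiableAt.differentiableWithinAt)
      (fun y hy => (hd y hy).deriv) (mem_Ioi.mpr hx) hy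
  have h1 : Tendsto (fun y => FF h k b (phm h k b y) + FF h k b y) atTop
      (𝓝 (FF h k b (x1 h k b) + Om h k b)) :=
    (((FFc hO).tendsto _).comp (phm_atTop hO)).add (FF_atTop hO)
  have h2 : Tendsto (fun y => FF h k b (phm h k b y) + FF h k b y) atTop
      (𝓝 (FF h k b (phm h k b x) + FF h k b x)) := by
    refine tendsto_const_nhds.congr' ?_
    filter_upwards [Ioi_mem_atTop (x1 h k b)] with y hy
    exact hc y hy
  exact tendsto_nhds_unique h2 h1

theorem FF_phm_lt {h k b : ℝ} (hO : OK h k b) (x : ℝ) (hx : x < x1 h k b) :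
    FF h k b (phm h k b x) + FF h k b x = FF h k b (x1 h k b) := by
  have hd : ∀ y ∈ Iio (x1 h k b), HasDerivAt (fun y => FF h k b (phm h k b y) + FF h k b y) 0 y :=
    fun y hy => G_deriv hO (phm_deriv hO y (ne_of_lt hy))
  have hc : ∀ y ∈ Iio (x1 h k b), FF h k b (phm h k b x) + FF h k b x =
      FF h k b (phm h k b y) + FF h k b y := fun y hy =>
    isOpen_Iio.is_const_of_deriv_eq_zero isPreconnected_Iio
      (fun y hy => (hd y hy).differentiableAt.differentiableWithinAt)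
      (fun y hy => (hd y hy).deriv) (mem_Iio.mpr hx) hy
  have h1 : Tendsto (fun y => FF h k b (phm h k b y) + FF h k b y) atBot
      (𝓝 (FF h k b (x1 h k b) + 0)) :=
    (((FFc hO).tendsto _).comp (phm_atBot hO)).add (FF_atBot hO)
  have h2 : Tendsto (fun y => FF h k b (phm h k b y) + FF h k b y) atBot
      (𝓝 (FF h k b (phm h k b x) + FF h k b x)) := by
    refine tendsto_const_nhds.congr' ?_
    filter_upwards [Iio_mem_atBot (x1 h k b)] with y hy
    exact hc y hy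
  have := tendsto_nhds_unique h2 h1
  rw [add_zero] at this
  exact this

/-- 2-adic conditions -/
structure Ad (h k b : ℚ) : Prop where
  nh : padicNorm 2 h = 1
  nk : padicNorm 2 k ≤ 1 / 2
  nb : padicNorm 2 b ≤ 1 / 2
  b0 : b ≠ 0

def y1 (h k b : ℚ) : ℚ := (4 * b ^ 2 * h ^ 2 - (h ^ 2 - k ^ 2) ^ 2) / (4 * b * (h ^ 2 - k ^ 2))

/-- 2-adic invariant of a point `(x,w)` of the orbit number `n` -/
structure Inv (h k b : ℚ) (n : ℤ) (x w : ℚ) : Prop where
  x0 : x ≠ 0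
  z : padicNorm 2 (1 / x - n * (1 / y1 h k b)) ≤ padicNorm 2 b / 8
  q : padicNorm 2 (w - x ^ 2 + b * x) ≤ 2

theorem ra8_two : padicNorm 2 (2 : ℚ) = 1 / 2 := by
  have := padicNorm.padicNorm_p (p := 2) (by norm_num)
  norm_num at this ⊢
  exact this

theorem ra8_four : padicNorm 2 (4 : ℚ) = 1 / 4 := by
  rw [show (4 : ℚ) = 2 * 2 by norm_num, padicNorm.mul, ra8_two]
  norm_num

theorem ra8_h2 {h k b : ℚ} (hA : Ad h k b) : padicNorm 2 (h ^ 2) = 1 := by
  rw [sq, padicNorm.mul, hA.nh, one_mul]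

theorem ra8_k2 {h k b : ℚ} (hA : Ad h k b) : padicNorm 2 (k ^ 2) ≤ 1 / 4 := by
  rw [sq, padicNorm.mul]
  have h1 := hA.nk
  have h2 : 0 ≤ padicNorm 2 k := padicNorm.nonneg k
  nlinarith

theorem ra8_bpos {h k b : ℚ} (hA : Ad h k b) : 0 < padicNorm 2 b :=
  lt_of_le_of_ne (padicNorm.nonneg b) (padicNorm.nonzero hA.b0).symm

/-- sum of an element of norm one and a smaller one -/
theorem ra8_add {x y : ℚ} (hx : padicNorm 2 x = 1) (hy : padicNorm 2 y < 1) :
    padicNorm 2 (x + y) = 1 := by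
  rw [padicNorm.add_eq_max_of_ne (by rw [hx]; exact hy.ne'), hx]
  exact max_eq_left hy.le

theorem Ad.nN {h k b : ℚ} (hA : Ad h k b) : padicNorm 2 (h ^ 2 - k ^ 2) = 1 := by
  rw [sub_eq_add_neg]
  apply ra8_add (ra8_h2 hA)
  rw [padicNorm.neg]
  exact lt_of_le_of_lt (ra8_k2 hA) (by norm_num)

theorem Ad.ny1 {h k b : ℚ} (hA : Ad h k b) : padicNorm 2 (y1 h k b) = 4 / padicNorm 2 b := by
  have hb := ra8_bpos hA
  have h1 : padicNorm 2 (4 * b ^ 2 * h ^ 2) < 1 := by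
    rw [padicNorm.mul, padicNorm.mul, ra8_h2 hA, ra8_four, mul_one, sq b, padicNorm.mul]
    have := hA.nb
    nlinarith
  have h2 : padicNorm 2 ((h ^ 2 - k ^ 2) ^ 2) = 1 := by
    rw [sq (h ^ 2 - k ^ 2), padicNorm.mul, hA.nN, one_mul]
  have h3 : padicNorm 2 (4 * b ^ 2 * h ^ 2 - (h ^ 2 - k ^ 2) ^ 2) = 1 := by
    rw [← padicNorm.neg, neg_sub, sub_eq_add_neg]
    apply ra8_add h2
    rw [padicNorm.neg]
    exact h1
  unfold y1
  rw [padicNorm.div, h3, padicNorm.mul, padicNorm.mul, hA.nN, ra8_four]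
  field_simp

theorem ra8_y1 {h k b : ℚ} (hA : Ad h k b) : y1 h k b ≠ 0 := by
  intro h0
  have h1 := hA.ny1
  have hb := ra8_bpos hA
  rw [h0, padicNorm.zero] at h1
  have : 0 < 4 / padicNorm 2 b := by positivity
  linarith

theorem ra8_inv {h k b : ℚ} (hA : Ad h k b) : padicNorm 2 (1 / y1 h k b) = padicNorm 2 b / 4 := by
  have hb := ra8_bpos hA
  rw [padicNorm.div, padicNorm.one, hA.ny1]
  field_simp

theorem ra8_odd (n : ℤ) : padicNorm 2 ((1 : ℚ) - n) ≤ 1 / 2 ↔ Odd n := by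
  have h1 := padicNorm.dvd_iff_norm_le (p := 2) (n := 1) (z := 1 - n)
  push_cast at h1
  have h2 : ((2 : ℚ) ^ (-1 : ℤ)) = 1 / 2 := by norm_num
  rw [h2] at h1
  rw [← h1]
  constructor
  · rintro ⟨m, hm⟩
    exact ⟨-m, by omega⟩
  · rintro ⟨m, hm⟩
    exact ⟨-m, by omega⟩

theorem Inv.start {h k b : ℚ} (hA : Ad h k b) (n : ℤ) (hn : Odd n) :
    Inv h k b n (y1 h k b) ((b * h ^ 2 / (h ^ 2 - k ^ 2) + (h ^ 2 - k ^ 2) / (4 * b)) *
      (b * k ^ 2 / (h ^ 2 - k ^ 2) + (h ^ 2 - k ^ 2) / (4 * b))) := by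
  have hb := ra8_bpos hA
  refine ⟨ra8_y1 hA, ?_, ?_⟩
  · rw [show 1 / y1 h k b - n * (1 / y1 h k b) = (1 - n) * (1 / y1 h k b) by ring,
      padicNorm.mul, ra8_inv hA]
    have := (ra8_odd n).2 hn
    nlinarith
  · have hN : h ^ 2 - k ^ 2 ≠ 0 := by
      intro h0
      have := hA.nN
      rw [h0, padicNorm.zero] at this
      norm_num at this
    have hb0 := hA.b0
    have e1 : (b * h ^ 2 / (h ^ 2 - k ^ 2) + (h ^ 2 - k ^ 2) / (4 * b)) *
      (b * k ^ 2 / (h ^ 2 - k ^ 2) + (h ^ 2 - k ^ 2) / (4 * b)) - y1 h k b ^ 2 + b * y1 h k b =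
        (h ^ 2 + k ^ 2) / 2 := by
      unfold y1
      field_simp
      ring
    rw [e1, padicNorm.div, ra8_two]
    have h3 : padicNorm 2 (h ^ 2 + k ^ 2) = 1 :=
      ra8_add (ra8_h2 hA) (lt_of_le_of_lt (ra8_k2 hA) (by norm_num))
    rw [h3]
    norm_num

set_option maxHeartbeats 4000000 in
theorem Inv.stepp {h k b : ℚ} (hA : Ad h k b) (n : ℤ) (x w W x' w' : ℚ) (hI : Inv h k b n x w)
    (hW : W = 2 * x ^ 2 - 2 * b * x + h ^ 2 + k ^ 2 + 2 * w)
    (hx' : x' = b - x + b * (h ^ 2 - k ^ 2) / W)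
    (hw' : w' = (W - h ^ 2 - k ^ 2) / 2 - (x' ^ 2 - b * x')) :
    Inv h k b (-n) x' w' ∧ x' ≠ x := by
  have hN := hA.nN
  have hY := hA.ny1
  have hx0 := hI.x0
  have hz := hI.z
  have hq := hI.q
  have hnb := hA.nb
  have hβ : 0 < padicNorm 2 b :=
    lt_of_le_of_ne (padicNorm.nonneg _) (Ne.symm (padicNorm.nonzero hA.b0))
  have hX : 0 < padicNorm 2 x :=
    lt_of_le_of_ne (padicNorm.nonneg _) (Ne.symm (padicNorm.nonzero hx0))
  have h2 : padicNorm 2 (2 : ℚ) = 1 / 2 := by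
    have := padicNorm.padicNorm_p_of_prime (p := 2)
    rw [Nat.cast_ofNat] at this
    rw [this]; norm_num
  have h4 : padicNorm 2 (4 : ℚ) = 1 / 4 := by
    have : (4 : ℚ) = 2 * 2 := by norm_num
    rw [this, padicNorm.mul, h2]; norm_num
  -- |1/x| ≤ β/4
  have hny : padicNorm 2 ((n : ℚ) * (1 / y1 h k b)) ≤ padicNorm 2 b / 4 := by
    rw [padicNorm.mul, padicNorm.div, padicNorm.one, hY, one_div_div]
    have := padicNorm.of_int (p := 2) n
    have h3 := padicNorm.nonneg (p := 2) (n : ℚ)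
    nlinarith
  have hinv : padicNorm 2 (1 / x) ≤ padicNorm 2 b / 4 := by
    have h5 : 1 / x = (1 / x - n * (1 / y1 h k b)) + (n : ℚ) * (1 / y1 h k b) := by ring
    rw [h5]
    refine (padicNorm.nonarchimedean).trans (max_le ?_ hny)
    linarith
  rw [padicNorm.div, padicNorm.one] at hinv
  have hXβ : 4 ≤ padicNorm 2 x * padicNorm 2 b := by
    rw [div_le_iff₀ hX] at hinv
    nlinarith
  have hX8 : 8 ≤ padicNorm 2 x := by nlinarith
  -- |x - b| = |x|
  have hxb : padicNorm 2 (x - b) = padicNorm 2 x := by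
    have h6 : padicNorm 2 x ≠ padicNorm 2 (-b) := by
      rw [padicNorm.neg]; intro h; linarith
    rw [sub_eq_add_neg, padicNorm.add_eq_max_of_ne h6, padicNorm.neg]
    exact max_eq_left (by linarith)
  have hWe : W = 4 * (x * (x - b)) + (h ^ 2 + k ^ 2 + 2 * (w - x ^ 2 + b * x)) := by
    rw [hW]; ring
  have hsm : padicNorm 2 (h ^ 2 + k ^ 2 + 2 * (w - x ^ 2 + b * x)) ≤ 1 := by
    refine (padicNorm.nonarchimedean).trans (max_le ?_ ?_)
    · refine (padicNorm.nonarchimedean).trans (max_le ?_ ?_)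
      · rw [pow_two, padicNorm.mul, hA.nh]; norm_num
      · rw [pow_two, padicNorm.mul]
        have := hA.nk
        have h3 := padicNorm.nonneg (p := 2) k
        nlinarith
    · rw [padicNorm.mul, h2]; linarith
  have hbig : padicNorm 2 (4 * (x * (x - b))) = padicNorm 2 x ^ 2 / 4 := by
    rw [padicNorm.mul, padicNorm.mul, hxb, h4]; ring
  have hbig16 : 16 ≤ padicNorm 2 x ^ 2 / 4 := by nlinarith
  have hWn : padicNorm 2 W = padicNorm 2 x ^ 2 / 4 := by
    have h6 : padicNorm 2 (4 * (x * (x - b))) ≠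
        padicNorm 2 (h ^ 2 + k ^ 2 + 2 * (w - x ^ 2 + b * x)) := by
      rw [hbig]; intro h; linarith
    rw [hWe, padicNorm.add_eq_max_of_ne h6, hbig]
    exact max_eq_left (by linarith)
  -- |bN/W|
  have hu : padicNorm 2 (b * (h ^ 2 - k ^ 2) / W) = 4 * padicNorm 2 b / padicNorm 2 x ^ 2 := by
    rw [padicNorm.div, padicNorm.mul, hN, hWn]
    field_simp
  have hu' : padicNorm 2 (b * (h ^ 2 - k ^ 2) / W) ≤ padicNorm 2 b / 16 := by
    rw [hu, div_le_div_iff₀ (by positivity) (by norm_num)]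
    nlinarith
  set u : ℚ := b * (h ^ 2 - k ^ 2) / W with hudef
  have hbu : padicNorm 2 (b + u) ≤ padicNorm 2 b := by
    refine (padicNorm.nonarchimedean).trans (max_le le_rfl ?_)
    linarith
  have hx'n : padicNorm 2 x' = padicNorm 2 x := by
    have h5 : x' = -x + (b + u) := by rw [hx']; ring
    have h6 : padicNorm 2 (-x) ≠ padicNorm 2 (b + u) := by
      rw [padicNorm.neg]; intro h; linarith
    rw [h5, padicNorm.add_eq_max_of_ne h6, padicNorm.neg]
    exact max_eq_left (by linarith)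
  have hx'0 : x' ≠ 0 := by
    intro h
    rw [h, padicNorm.zero] at hx'n
    linarith
  have hsum : padicNorm 2 (1 / x' + 1 / x) ≤ padicNorm 2 b / padicNorm 2 x ^ 2 := by
    have h5 : 1 / x' + 1 / x = (b + u) / (x * x') := by
      have h7 : b + u = x + x' := by rw [hx']; ring
      rw [h7]
      field_simp
    rw [h5, padicNorm.div, padicNorm.mul, hx'n, ← pow_two]
    gcongr
  have hsum8 : padicNorm 2 (1 / x' + 1 / x) ≤ padicNorm 2 b / 8 := by
    refine hsum.trans ?_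
    apply div_le_div_of_nonneg_left hβ.le (by norm_num)
    nlinarith
  refine ⟨⟨hx'0, ?_, ?_⟩, ?_⟩
  · have h5 : 1 / x' - ((-n : ℤ) : ℚ) * (1 / y1 h k b) =
        (1 / x' + 1 / x) + -(1 / x - n * (1 / y1 h k b)) := by
      push_cast; ring
    rw [h5]
    refine (padicNorm.nonarchimedean).trans (max_le hsum8 ?_)
    rw [padicNorm.neg]
    exact hz
  · have h5 : w' - x' ^ 2 + b * x' = (w - x ^ 2 + b * x) + 2 * (x - x') * u := by
      have h6 : u = x + x' - b := by rw [hx']; ring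
      rw [hw', h6, hW]
      ring
    rw [h5]
    refine (padicNorm.nonarchimedean).trans (max_le hq ?_)
    rw [padicNorm.mul, padicNorm.mul, h2]
    have h6 : padicNorm 2 (x - x') ≤ padicNorm 2 x := by
      refine (padicNorm.sub).trans (max_le le_rfl hx'n.le)
    have h7 : padicNorm 2 (x - x') * padicNorm 2 u ≤
        padicNorm 2 x * (4 * padicNorm 2 b / padicNorm 2 x ^ 2) := by
      rw [← hu]
      exact mul_le_mul_of_nonneg_right h6 (padicNorm.nonneg _)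
    have h8 : padicNorm 2 x * (4 * padicNorm 2 b / padicNorm 2 x ^ 2) =
        4 * padicNorm 2 b / padicNorm 2 x := by
      field_simp
    have h9 : 4 * padicNorm 2 b / padicNorm 2 x ≤ 1 := by
      rw [div_le_one hX]
      linarith
    have h10 : padicNorm 2 (x - x') * padicNorm 2 u ≤ 1 := by
      rw [h8] at h7
      exact h7.trans h9
    have h11 : 1 / 2 * padicNorm 2 (x - x') * padicNorm 2 u =
        (padicNorm 2 (x - x') * padicNorm 2 u) / 2 := by ring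
    rw [h11]
    linarith
  · intro h
    rw [h] at hsum
    have h5 : 1 / x + 1 / x = 2 / x := by ring
    rw [h5, padicNorm.div, h2, div_le_div_iff₀ hX (by positivity)] at hsum
    have : padicNorm 2 x * (padicNorm 2 x / 2 - padicNorm 2 b) ≤ 0 := by nlinarith
    have h6 : 0 < padicNorm 2 x / 2 - padicNorm 2 b := by linarith
    nlinarith [mul_pos hX h6]

theorem Inv.stepm {h k b : ℚ} (hA : Ad h k b) (n : ℤ) (x w W x' w' : ℚ) (hI : Inv h k b n x w)
    (hx : x ≠ y1 h k b)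
    (hW : W = 2 * x ^ 2 - 2 * b * x + h ^ 2 + k ^ 2 + 2 * w)
    (hx' : x' = b - x + W / (4 * (x - y1 h k b)))
    (hw' : w' = x' ^ 2 - b * x' + w - x ^ 2 + b * x) :
    Inv h k b (1 - n) x' w' := by
  have hadd : ∀ (a b r : ℚ), padicNorm 2 a ≤ r → padicNorm 2 b ≤ r → padicNorm 2 (a + b) ≤ r :=
    fun a b r ha hb => le_trans (padicNorm.nonarchimedean) (max_le ha hb)
  have hsub : ∀ (a b r : ℚ), padicNorm 2 a ≤ r → padicNorm 2 b ≤ r → padicNorm 2 (a - b) ≤ r :=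
    fun a b r ha hb => le_trans (padicNorm.sub) (max_le ha hb)
  have hny := hA.ny1
  have hb0 := hA.b0
  have hnb := hA.nb
  have hnk := hA.nk
  have hnh := hA.nh
  obtain ⟨x0, hz, hq⟩ := hI
  generalize hy : y1 h k b = y at *
  have hbpos : 0 < padicNorm 2 b := by
    have h1 : padicNorm 2 b ≠ 0 := padicNorm.nonzero hb0
    exact lt_of_le_of_ne (padicNorm.nonneg b) (Ne.symm h1)
  have y0 : y ≠ 0 := by
    rintro rfl
    have h0 : padicNorm 2 (0:ℚ) = 0 := padicNorm.zero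
    rw [h0] at hny
    have : (0:ℚ) < 4 / padicNorm 2 b := by positivity
    linarith
  have hiny : padicNorm 2 (1 / y) = padicNorm 2 b / 4 := by
    rw [padicNorm.div, hny, padicNorm.one]
    field_simp
  have hn1 : padicNorm 2 ((n : ℚ) * (1 / y)) ≤ padicNorm 2 b / 4 := by
    rw [padicNorm.mul, hiny]
    have h1 : padicNorm 2 (n : ℚ) ≤ 1 := padicNorm.of_int n
    nlinarith
  have hix : padicNorm 2 (1 / x) ≤ padicNorm 2 b / 4 := by
    have h1 : 1 / x = (1 / x - n * (1 / y)) + n * (1 / y) := by ring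
    rw [h1]
    apply hadd
    · linarith
    · exact hn1
  have hxy : x - y ≠ 0 := sub_ne_zero.2 hx
  have hdz : padicNorm 2 (1 / y - 1 / x) ≤ padicNorm 2 b / 4 := hsub _ _ _ hiny.le hix
  have hd0 : 1 / y - 1 / x ≠ 0 := by
    intro h0
    apply hxy
    field_simp at h0
    linarith
  set q : ℚ := w - x ^ 2 + b * x with hqdef
  set A : ℚ := x' * (1 / y - 1 / x) - 1 with hAdef
  have hAeq : A = -(b * (1 / x)) + (h ^ 2 + k ^ 2 + 2 * q) * (1 / 4) * ((1 / x) * (1 / y)) := by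
    rw [hAdef, hx', hW, hqdef]
    field_simp
    ring
  have h2 : padicNorm 2 (2:ℚ) = 1 / 2 := by
    have := padicNorm.padicNorm_p_of_prime (p := 2)
    rw [show ((2:ℕ):ℚ) = 2 by norm_num] at this
    rw [this]; norm_num
  have h4 : padicNorm 2 (1 / 4 : ℚ) = 4 := by
    rw [show (1/4:ℚ) = 1 / (2 * 2) by norm_num, padicNorm.div, padicNorm.mul, h2, padicNorm.one]
    norm_num
  have hc : padicNorm 2 (h ^ 2 + k ^ 2 + 2 * q) ≤ 1 := by
    apply hadd
    · apply hadd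
      · rw [pow_two, padicNorm.mul, hnh]; norm_num
      · rw [pow_two, padicNorm.mul]
        have := padicNorm.nonneg (p := 2) k
        nlinarith
    · rw [padicNorm.mul, h2]; linarith
  have hAn : padicNorm 2 A ≤ 1 / 16 := by
    rw [hAeq]
    have hbn := padicNorm.nonneg (p := 2) b
    have hxn := padicNorm.nonneg (p := 2) (1 / x)
    have hcn := padicNorm.nonneg (p := 2) (h ^ 2 + k ^ 2 + 2 * q)
    apply hadd
    · rw [padicNorm.neg, padicNorm.mul]
      have h8 : padicNorm 2 (1 / x) ≤ 1 / 8 := by linarith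
      calc padicNorm 2 b * padicNorm 2 (1 / x) ≤ (1 / 2) * (1 / 8) :=
            mul_le_mul hnb h8 hxn (by norm_num)
        _ = 1 / 16 := by norm_num
    · rw [padicNorm.mul, padicNorm.mul, h4, padicNorm.mul, hiny]
      have h8 : padicNorm 2 (1 / x) ≤ 1 / 8 := by linarith
      have h8' : padicNorm 2 b / 4 ≤ 1 / 8 := by linarith
      have h64 : padicNorm 2 (1 / x) * (padicNorm 2 b / 4) ≤ (1 / 8) * (1 / 8) :=
        mul_le_mul h8 h8' (by positivity) (by norm_num)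
      have h64n : 0 ≤ padicNorm 2 (1 / x) * (padicNorm 2 b / 4) := by positivity
      calc padicNorm 2 (h ^ 2 + k ^ 2 + 2 * q) * 4 * (padicNorm 2 (1 / x) * (padicNorm 2 b / 4))
          ≤ (1 * 4) * ((1 / 8) * (1 / 8)) :=
            mul_le_mul (by linarith) h64 h64n (by norm_num)
        _ = 1 / 16 := by norm_num
  have h1A : padicNorm 2 (1 + A) = 1 := by
    have hne : padicNorm 2 (1:ℚ) ≠ padicNorm 2 A := by
      rw [padicNorm.one]; intro h0; rw [← h0] at hAn; norm_num at hAn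
    rw [padicNorm.add_eq_max_of_ne hne, padicNorm.one]
    apply max_eq_left
    linarith
  have h1A0 : 1 + A ≠ 0 := by
    intro h0
    rw [h0, padicNorm.zero] at h1A
    norm_num at h1A
  have hxA : x' * (1 / y - 1 / x) = 1 + A := by rw [hAdef]; ring
  have hx'0 : x' ≠ 0 := by
    intro h0
    rw [h0, zero_mul] at hxA
    exact h1A0 hxA.symm
  have hinv : 1 / x' = (1 / y - 1 / x) / (1 + A) := by
    rw [← hxA]
    generalize 1 / y - 1 / x = d at *
    field_simp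
  have hdiff : padicNorm 2 (1 / x' - (1 / y - 1 / x)) ≤ padicNorm 2 b / 8 := by
    have he : 1 / x' - (1 / y - 1 / x) = -((1 / y - 1 / x) * (A / (1 + A))) := by
      rw [hinv]
      generalize 1 / y - 1 / x = d at *
      field_simp
      ring
    rw [he, padicNorm.neg, padicNorm.mul, padicNorm.div, h1A, div_one]
    calc padicNorm 2 (1 / y - 1 / x) * padicNorm 2 A ≤ (padicNorm 2 b / 4) * (1 / 16) :=
          mul_le_mul hdz hAn (padicNorm.nonneg _) (by positivity)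
      _ ≤ padicNorm 2 b / 8 := by linarith
  refine ⟨hx'0, ?_, ?_⟩
  · rw [hy]
    have he : 1 / x' - ((1 - n : ℤ) : ℚ) * (1 / y) =
        (1 / x' - (1 / y - 1 / x)) - (1 / x - n * (1 / y)) := by
      push_cast; ring
    rw [he]
    exact hsub _ _ _ hdiff hz
  · have : w' - x' ^ 2 + b * x' = q := by rw [hw', hqdef]; ring
    rw [this]; exact hq

theorem Inv.odd {h k b : ℚ} (hA : Ad h k b) (n : ℤ) (w : ℚ) (hI : Inv h k b n (y1 h k b) w) :
    Odd n := by
  have hb := ra8_bpos hA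
  have h1 := hI.z
  rw [show 1 / y1 h k b - n * (1 / y1 h k b) = (1 - n) * (1 / y1 h k b) by ring,
    padicNorm.mul, ra8_inv hA] at h1
  rw [← ra8_odd]
  by_contra hcon
  push Not at hcon
  nlinarith

structure Pt (h k b x u v : ℚ) : Prop where
  hu : u ^ 2 = x ^ 2 + h ^ 2
  hv : v ^ 2 = (x - b) ^ 2 + k ^ 2
  pos : 0 < u * v

theorem Pt.hww {h k b x u v : ℚ} (hP : Pt h k b x u v) :
    ww (h : ℝ) k b x = ((u * v : ℚ) : ℝ) := by
  have h1 : (x : ℝ) ^ 2 + (h : ℝ) ^ 2 = (u : ℝ) ^ 2 := by exact_mod_cast hP.hu.symm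
  have h2 : ((x : ℝ) - b) ^ 2 + (k : ℝ) ^ 2 = (v : ℝ) ^ 2 := by exact_mod_cast hP.hv.symm
  have h3 : (0 : ℝ) < (u : ℝ) * v := by exact_mod_cast hP.pos
  unfold ww
  rw [h1, h2, ← mul_pow, Real.sqrt_sq h3.le]
  push_cast
  rfl

theorem Pt.aux_root {h k b x u v x' c : ℚ} (hu : u ^ 2 = x ^ 2 + h ^ 2)
    (hv : v ^ 2 = (x - b) ^ 2 + k ^ 2) (hc : c = u + v) (hc0 : c ≠ 0)
    (key : (c ^ 2 - b ^ 2) * (x + x') = b * (c ^ 2 + h ^ 2 - k ^ 2 - b ^ 2)) :
    ∃ u' v' : ℚ, u' ^ 2 = x' ^ 2 + h ^ 2 ∧ v' ^ 2 = (x' - b) ^ 2 + k ^ 2 ∧ u' + v' = c := by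
  have he : (2 * b * x + (h ^ 2 - k ^ 2 - b ^ 2)) = c * (u - v) := by
    rw [hc]; linear_combination hv - hu
  have hQ : c ^ 2 * (c ^ 2 - 2 * (2 * x ^ 2 - 2 * b * x + b ^ 2 + h ^ 2 + k ^ 2)) +
      (2 * b * x + (h ^ 2 - k ^ 2 - b ^ 2)) ^ 2 = 0 := by
    rw [he, hc]
    linear_combination (-2 * (u + v) ^ 2) * (- hu - hv)
  have hQ' : c ^ 2 * (c ^ 2 - 2 * (2 * x' ^ 2 - 2 * b * x' + b ^ 2 + h ^ 2 + k ^ 2)) +
      (2 * b * x' + (h ^ 2 - k ^ 2 - b ^ 2)) ^ 2 = 0 := by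
    linear_combination hQ - 4 * (x' - x) * key
  obtain ⟨d, hd⟩ : ∃ d : ℚ, d * c = 2 * b * x' + (h ^ 2 - k ^ 2 - b ^ 2) :=
    ⟨(2 * b * x' + (h ^ 2 - k ^ 2 - b ^ 2)) / c, div_mul_cancel₀ _ hc0⟩
  rw [← hd] at hQ'
  have hS : c ^ 2 - 2 * (2 * x' ^ 2 - 2 * b * x' + b ^ 2 + h ^ 2 + k ^ 2) + d ^ 2 = 0 := by
    have h1 : c ^ 2 * (c ^ 2 - 2 * (2 * x' ^ 2 - 2 * b * x' + b ^ 2 + h ^ 2 + k ^ 2) + d ^ 2) = 0 := by
      linear_combination hQ'
    rcases mul_eq_zero.1 h1 with h2 | h2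
    · exact absurd h2 (pow_ne_zero 2 hc0)
    · exact h2
  refine ⟨(c + d) / 2, (c - d) / 2, ?_, ?_, by ring⟩
  · linear_combination hS / 4 + hd / 2
  · linear_combination hS / 4 - hd / 2

theorem Pt.stepp {h k b x u v : ℚ} (hO : OK (h : ℝ) k b) (hP : Pt h k b x u v) (W x' : ℚ)
    (hW : W = 2 * x ^ 2 - 2 * b * x + h ^ 2 + k ^ 2 + 2 * (u * v))
    (hx' : x' = b - x + b * (h ^ 2 - k ^ 2) / W) :
    ∃ u' v', Pt h k b x' u' v' ∧ u' * v' = (W - h ^ 2 - k ^ 2) / 2 - (x' ^ 2 - b * x') := by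
  have hww := hP.hww
  have hWR : ((W : ℚ) : ℝ) = WW (h : ℝ) k b x := by
    unfold WW
    rw [hww, hW]
    push_cast
    ring
  have hWpos : 0 < WW (h : ℝ) k b x := WW_pos hO _
  have hW0 : W ≠ 0 := by
    intro h0
    rw [h0] at hWR
    rw [← hWR] at hWpos
    simp at hWpos
  have hWc : W = (u + v) ^ 2 - b ^ 2 := by
    rw [hW]; linear_combination - hP.hu - hP.hv
  have hc0 : u + v ≠ 0 := by
    intro h0
    have h1 : v = -u := by linarith
    have h2 := hP.pos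
    rw [h1] at h2
    nlinarith [sq_nonneg u]
  have key : ((u + v) ^ 2 - b ^ 2) * (x + x') = b * ((u + v) ^ 2 + h ^ 2 - k ^ 2 - b ^ 2) := by
    rw [← hWc, hx']
    have h1 : W * (x + (b - x + b * (h ^ 2 - k ^ 2) / W)) = W * b + b * (h ^ 2 - k ^ 2) := by
      field_simp
      ring
    rw [h1, hWc]
    ring
  obtain ⟨u', v', hu', hv', hc'⟩ := Pt.aux_root hP.hu hP.hv rfl hc0 key
  have hprod : u' * v' = (W - h ^ 2 - k ^ 2) / 2 - (x' ^ 2 - b * x') := by
    have h1 : (u' + v') ^ 2 = W + b ^ 2 := by rw [hc', hWc]; ring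
    linear_combination h1 / 2 - hu' / 2 - hv' / 2
  refine ⟨u', v', ⟨hu', hv', ?_⟩, hprod⟩
  have h1 := ww_php hO (x : ℝ)
  have hxR : ((x' : ℚ) : ℝ) = php (h : ℝ) k b x := by
    unfold php
    rw [← hWR, hx']
    push_cast
    rfl
  rw [← hxR, ← hWR] at h1
  have h2 := ww_pos hO ((x' : ℚ) : ℝ)
  rw [h1] at h2
  rw [hprod]
  have h3 : (0 : ℝ) < (((W - h ^ 2 - k ^ 2) / 2 - (x' ^ 2 - b * x') : ℚ) : ℝ) := by
    push_cast
    exact h2
  exact_mod_cast h3

theorem Pt.stepm {h k b x u v : ℚ} (hO : OK (h : ℝ) k b) (hP : Pt h k b x u v) (W x' : ℚ)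
    (hx : x ≠ y1 h k b)
    (hW : W = 2 * x ^ 2 - 2 * b * x + h ^ 2 + k ^ 2 + 2 * (u * v))
    (hx' : x' = b - x + W / (4 * (x - y1 h k b))) :
    ∃ u' v', Pt h k b x' u' v' ∧ u' * v' = x' ^ 2 - b * x' + u * v - x ^ 2 + b * x := by
  have hww := hP.hww
  have hWR : ((W : ℚ) : ℝ) = WW (h : ℝ) k b x := by
    unfold WW
    rw [hww, hW]
    push_cast
    ring
  have hb : b ≠ 0 := by
    intro h0
    apply hO.b0
    rw [h0]; norm_num
  have hN : h ^ 2 - k ^ 2 ≠ 0 := by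
    intro h0
    apply hO.N_ne
    exact_mod_cast h0
  have hy : 4 * b * (h ^ 2 - k ^ 2) * y1 h k b = 4 * b ^ 2 * h ^ 2 - (h ^ 2 - k ^ 2) ^ 2 := by
    unfold y1
    field_simp
  have hxy : x - y1 h k b ≠ 0 := sub_ne_zero.2 hx
  have hWM : W * ((u - v) ^ 2 - b ^ 2) = 4 * b * (h ^ 2 - k ^ 2) * (x - y1 h k b) := by
    have h1 : (u - v) ^ 2 - b ^ 2 = 2 * x ^ 2 - 2 * b * x + h ^ 2 + k ^ 2 - 2 * (u * v) := by
      linear_combination hP.hu + hP.hv
    have h2 : (u * v) ^ 2 = (x ^ 2 + h ^ 2) * ((x - b) ^ 2 + k ^ 2) := by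
      rw [mul_pow, hP.hu, hP.hv]
    rw [h1, hW]
    linear_combination (-4) * h2 + hy
  have hM0 : (u - v) ^ 2 - b ^ 2 ≠ 0 := by
    intro h0
    rw [h0, mul_zero] at hWM
    have : 4 * b * (h ^ 2 - k ^ 2) * (x - y1 h k b) ≠ 0 :=
      mul_ne_zero (mul_ne_zero (mul_ne_zero (by norm_num) hb) hN) hxy
    exact this hWM.symm
  have key : ((u - v) ^ 2 - b ^ 2) * (x + x') = b * ((u - v) ^ 2 + h ^ 2 - k ^ 2 - b ^ 2) := by
    rw [hx']
    have h1 : ((u - v) ^ 2 - b ^ 2) * (x + (b - x + W / (4 * (x - y1 h k b)))) =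
        ((u - v) ^ 2 - b ^ 2) * b + (W * ((u - v) ^ 2 - b ^ 2)) / (4 * (x - y1 h k b)) := by
      ring
    rw [h1, hWM]
    have h2 : 4 * b * (h ^ 2 - k ^ 2) * (x - y1 h k b) / (4 * (x - y1 h k b)) =
        b * (h ^ 2 - k ^ 2) := by
      field_simp
    rw [h2]
    ring
  have hroot : ∃ u' v' : ℚ, u' ^ 2 = x' ^ 2 + h ^ 2 ∧ v' ^ 2 = (x' - b) ^ 2 + k ^ 2 ∧
      (u' - v') ^ 2 = (u - v) ^ 2 := by
    by_cases hc0 : u - v = 0
    · have huv : u = v := by linarith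
      rw [hc0] at key
      have he : 2 * b * x + (h ^ 2 - k ^ 2 - b ^ 2) = 0 := by
        have h1 := hP.hu
        have h2 := hP.hv
        rw [huv] at h1
        linear_combination h2 - h1
      have hxx : x' = x := by
        have h3 : b ^ 2 * (x' - x) = 0 := by
          linear_combination (-1) * key - b * he
        rcases mul_eq_zero.1 h3 with h4 | h4
        · exact absurd h4 (pow_ne_zero 2 hb)
        · linarith
      rw [hxx]
      exact ⟨u, v, hP.hu, hP.hv, rfl⟩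
    · have hv2 : (-v) ^ 2 = (x - b) ^ 2 + k ^ 2 := by rw [neg_sq]; exact hP.hv
      obtain ⟨u', v', hu', hv', hc'⟩ := Pt.aux_root (c := u - v) hP.hu hv2 (by ring) hc0 key
      refine ⟨u', -v', hu', by rw [neg_sq]; exact hv', ?_⟩
      rw [sub_neg_eq_add, hc']
  obtain ⟨u', v', hu', hv', hc'⟩ := hroot
  have hprod : u' * v' = x' ^ 2 - b * x' + u * v - x ^ 2 + b * x := by
    linear_combination (-1 / 2) * hc' + hu' / 2 + hv' / 2 - hP.hu / 2 - hP.hv / 2
  refine ⟨u', v', ⟨hu', hv', ?_⟩, hprod⟩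
  have hx1 : ((y1 h k b : ℚ) : ℝ) = x1 (h : ℝ) k b := by
    unfold y1 x1
    push_cast
    rfl
  have hxR1 : (x : ℝ) ≠ x1 (h : ℝ) k b := by
    rw [← hx1]
    exact_mod_cast hx
  have h1 := ww_phm hO (x : ℝ) hxR1
  have hxR : ((x' : ℚ) : ℝ) = phm (h : ℝ) k b x := by
    unfold phm
    rw [← hWR, hx', ← hx1]
    push_cast
    rfl
  rw [← hxR, hww] at h1
  have h2 := ww_pos hO ((x' : ℚ) : ℝ)
  rw [h1] at h2
  rw [hprod]
  have h3 : (0 : ℝ) < ((x' ^ 2 - b * x' + u * v - x ^ 2 + b * x : ℚ) : ℝ) := by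
    push_cast at h2 ⊢
    exact h2
  exact_mod_cast h3

theorem Pt.start {h k b : ℚ} (hO : OK (h : ℝ) k b) :
    Pt h k b (y1 h k b) (b * h ^ 2 / (h ^ 2 - k ^ 2) + (h ^ 2 - k ^ 2) / (4 * b))
      (b * k ^ 2 / (h ^ 2 - k ^ 2) + (h ^ 2 - k ^ 2) / (4 * b)) := by
  have hb : b ≠ 0 := by
    intro h0
    apply hO.b0
    rw [h0]; norm_num
  have hN : h ^ 2 - k ^ 2 ≠ 0 := by
    intro h0
    apply hO.N_ne
    exact_mod_cast h0
  refine ⟨?_, ?_, ?_⟩
  · unfold y1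
    field_simp
    ring
  · unfold y1
    field_simp
    ring
  · have e : (b * h ^ 2 / (h ^ 2 - k ^ 2) + (h ^ 2 - k ^ 2) / (4 * b)) *
        (b * k ^ 2 / (h ^ 2 - k ^ 2) + (h ^ 2 - k ^ 2) / (4 * b)) =
        ((4 * b ^ 2 * h ^ 2 + (h ^ 2 - k ^ 2) ^ 2) * (4 * b ^ 2 * k ^ 2 + (h ^ 2 - k ^ 2) ^ 2)) /
          (4 * b * (h ^ 2 - k ^ 2)) ^ 2 := by
      field_simp
    rw [e]
    positivity

/-- the `n`-th point of the orbit -/
def Orb (h k b : ℚ) (n : ℤ) (x : ℚ) : Prop :=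
  ∃ u v, Pt h k b x u v ∧ Inv h k b n x (u * v)

theorem orbit_y1 (h k b : ℚ) : x1 (h : ℝ) k b = ((y1 h k b : ℚ) : ℝ) := by
  unfold x1 y1
  push_cast
  rfl

theorem orbit_WW {h k b x u v : ℚ} (hP : Pt h k b x u v) :
    WW (h : ℝ) k b x = ((2 * x ^ 2 - 2 * b * x + h ^ 2 + k ^ 2 + 2 * (u * v) : ℚ) : ℝ) := by
  unfold WW
  rw [hP.hww]
  push_cast
  ring

theorem orbit_php {h k b x u v : ℚ} (hP : Pt h k b x u v) :
    php (h : ℝ) k b x = ((b - x + b * (h ^ 2 - k ^ 2) /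
      (2 * x ^ 2 - 2 * b * x + h ^ 2 + k ^ 2 + 2 * (u * v)) : ℚ) : ℝ) := by
  unfold php
  rw [orbit_WW hP]
  push_cast
  rfl

theorem orbit_phm {h k b x u v : ℚ} (hP : Pt h k b x u v) :
    phm (h : ℝ) k b x = ((b - x + (2 * x ^ 2 - 2 * b * x + h ^ 2 + k ^ 2 + 2 * (u * v)) /
      (4 * (x - y1 h k b)) : ℚ) : ℝ) := by
  unfold phm
  rw [orbit_WW hP, orbit_y1]
  push_cast
  rfl

theorem orbit {h k b : ℚ} (hO : OK (h : ℝ) k b) (hA : Ad h k b) (n : ℕ) :
    ((((n : ℕ) • ((FF (h : ℝ) k b (x1 h k b) : ℝ) : AddCircle (Om (h : ℝ) k b))) = 0 ∧ Even n) ∨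
      ∃ x : ℚ, Orb h k b n x ∧
        ((FF (h : ℝ) k b x : ℝ) : AddCircle (Om (h : ℝ) k b)) =
          (n : ℕ) • ((FF (h : ℝ) k b (x1 h k b) : ℝ) : AddCircle (Om (h : ℝ) k b))) := by
  induction n with
  | zero => exact Or.inl ⟨zero_smul _ _, Even.zero⟩
  | succ n ih =>
    rcases ih with ⟨h1, h2⟩ | ⟨x, ⟨u, v, hP, hI⟩, hF⟩
    · right
      refine ⟨y1 h k b, ⟨_, _, Pt.start hO, Inv.start hA _ ?_⟩, ?_⟩
      · rw [Int.odd_coe_nat]
        exact h2.add_one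
      · rw [← orbit_y1, succ_nsmul, h1, zero_add]
    · obtain ⟨u', v', hP', hw'⟩ := Pt.stepp hO hP _ _ rfl rfl
      have hI' := (Inv.stepp hA n x (u * v) _ _ _ hI rfl rfl rfl).1
      rw [← hw'] at hI'
      have hF' := FF_php hO (x : ℝ)
      rw [orbit_php hP] at hF'
      generalize b - x + b * (h ^ 2 - k ^ 2) /
        (2 * x ^ 2 - 2 * b * x + h ^ 2 + k ^ 2 + 2 * (u * v)) = x' at *
      have hF2 : ((FF (h : ℝ) k b x' : ℝ) : AddCircle (Om (h : ℝ) k b)) =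
          - ((n : ℕ) • ((FF (h : ℝ) k b (x1 h k b) : ℝ) : AddCircle (Om (h : ℝ) k b))) := by
        rw [← hF, eq_neg_iff_add_eq_zero, ← AddCircle.coe_add, hF', AddCircle.coe_period]
      by_cases hx' : x' = y1 h k b
      · left
        subst hx'
        constructor
        · rw [succ_nsmul]
          rw [← orbit_y1] at hF2
          nth_rewrite 2 [hF2]
          exact add_neg_cancel _
        · have h3 := Inv.odd hA _ _ hI'
          rw [odd_neg, Int.odd_coe_nat] at h3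
          exact h3.add_one
      · right
        obtain ⟨u'', v'', hP'', hw''⟩ := Pt.stepm hO hP' _ _ hx' rfl rfl
        have hI'' := Inv.stepm hA _ x' (u' * v') _ _ _ hI' hx' rfl rfl rfl
        rw [← hw''] at hI''
        have hne : (x' : ℝ) ≠ x1 (h : ℝ) k b := by
          rw [orbit_y1]
          exact_mod_cast hx'
        have hFm : ((FF (h : ℝ) k b (phm (h : ℝ) k b x') : ℝ) : AddCircle (Om (h : ℝ) k b)) +
            ((FF (h : ℝ) k b x' : ℝ) : AddCircle (Om (h : ℝ) k b)) =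
            ((FF (h : ℝ) k b (x1 h k b) : ℝ) : AddCircle (Om (h : ℝ) k b)) := by
          rcases lt_or_gt_of_ne hne with h3 | h3
          · rw [← AddCircle.coe_add, FF_phm_lt hO _ h3]
          · rw [← AddCircle.coe_add, FF_phm_gt hO _ h3, AddCircle.coe_add, AddCircle.coe_period,
              add_zero]
        rw [orbit_phm hP'] at hFm
        refine ⟨_, ⟨u'', v'', hP'', ?_⟩, ?_⟩
        · have h4 : (1 - (-(n : ℤ))) = ((n + 1 : ℕ) : ℤ) := by push_cast; ring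
          rw [← h4]
          exact hI''
        · rw [hF2, add_neg_eq_iff_eq_add] at hFm
          rw [hFm, succ_nsmul, add_comm]

theorem FF_coe_ne_zero {h k b : ℝ} (hO : OK h k b) (y : ℝ) :
    ((FF h k b y : ℝ) : AddCircle (Om h k b)) ≠ 0 := by
  intro h0
  rw [AddCircle.coe_eq_zero_iff] at h0
  obtain ⟨j, hj⟩ := h0
  rw [zsmul_eq_mul] at hj
  have h1 := FF_pos hO y
  have h2 := FF_lt hO y
  have h3 := Om_pos hO
  rw [← hj] at h1 h2
  have h4 : (0 : ℝ) < j := by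
    by_contra h
    push Not at h
    nlinarith
  have h5 : (j : ℝ) < 1 := by
    by_contra h
    push Not at h
    nlinarith
  have h6 : 0 < j := by exact_mod_cast h4
  have h7 : j < 1 := by exact_mod_cast h5
  omega

theorem not_finite {h k b : ℚ} (hO : OK (h : ℝ) k b) (hA : Ad h k b) (n : ℕ) (hn : 0 < n) :
    (n : ℕ) • ((FF (h : ℝ) k b (x1 h k b) : ℝ) : AddCircle (Om (h : ℝ) k b)) ≠ 0 := by
  classical
  intro h0
  have hex : ∃ n : ℕ, 0 < n ∧
      (n : ℕ) • ((FF (h : ℝ) k b (x1 h k b) : ℝ) : AddCircle (Om (h : ℝ) k b)) = 0 := ⟨n, hn, h0⟩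
  obtain ⟨hm0, hm1⟩ := Nat.find_spec hex
  have hmin : ∀ j, j < Nat.find hex → ¬ (0 < j ∧
      j • ((FF (h : ℝ) k b (x1 h k b) : ℝ) : AddCircle (Om (h : ℝ) k b)) = 0) :=
    fun j hj => Nat.find_min hex hj
  generalize Nat.find hex = m at hm0 hm1 hmin
  rcases orbit hO hA m with ⟨_, hev⟩ | ⟨x, _, hx⟩
  · obtain ⟨r, hr⟩ := hev
    have hr0 : 0 < r := by omega
    have hrm : r < m := by omega
    rcases orbit hO hA r with ⟨h1, _⟩ | ⟨x, ⟨u, v, hP, hI⟩, hx⟩
    · exact hmin r hrm ⟨hr0, h1⟩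
    · have h2 : ((FF (h:ℝ) k b x + FF (h:ℝ) k b x : ℝ) : AddCircle (Om (h : ℝ) k b)) = 0 := by
        rw [AddCircle.coe_add, hx, ← add_nsmul, ← hr, hm1]
      rw [AddCircle.coe_eq_zero_iff] at h2
      obtain ⟨j, hj⟩ := h2
      rw [zsmul_eq_mul] at hj
      have h3 := FF_pos hO (x : ℝ)
      have h4 := FF_lt hO (x : ℝ)
      have h5 := Om_pos hO
      have h6 : (0 : ℝ) < j := by
        by_contra h
        push Not at h
        nlinarith
      have h7 : (j : ℝ) < 2 := by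
        by_contra h
        push Not at h
        nlinarith
      have h8 : 0 < j := by exact_mod_cast h6
      have h9 : j < 2 := by exact_mod_cast h7
      have h10 : j = 1 := by omega
      rw [h10, Int.cast_one, one_mul] at hj
      have h11 := FF_php hO (x : ℝ)
      have h12 : php (h : ℝ) k b x = x := (FF_mono hO).injective (by linarith)
      have hs := (Inv.stepp hA (r : ℤ) x (u * v) _ _ _ hI rfl rfl rfl).2
      apply hs
      have h13 : ((b - x + b * (h ^ 2 - k ^ 2) /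
          (2 * x ^ 2 - 2 * b * x + h ^ 2 + k ^ 2 + 2 * (u * v)) : ℚ) : ℝ) = php (h : ℝ) k b x := by
        unfold php WW
        rw [Pt.hww hP]
        push_cast
        ring
      exact_mod_cast (h13.trans h12)
  · exact FF_coe_ne_zero hO (x : ℝ) (hx.trans hm1)

theorem y1_cast352 (h k b : ℚ) : ((y1 h k b : ℚ) : ℝ) = x1 (h : ℝ) k b := by
  unfold y1 x1
  push_cast
  rfl

theorem php_cast352 {h k b x u v : ℚ} (hP : Pt h k b x u v) :
    ((b - x + b * (h ^ 2 - k ^ 2) / (2 * x ^ 2 - 2 * b * x + h ^ 2 + k ^ 2 + 2 * (u * v)) : ℚ) : ℝ)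
      = php (h : ℝ) k b x := by
  have h1 := hP.hww
  unfold php WW
  rw [h1]
  push_cast
  rfl

theorem dense_good {h k b : ℚ} (hO : OK (h : ℝ) k b) (hA : Ad h k b) (y ε : ℝ) (hε : 0 < ε) :
    ∃ x u v : ℚ, |(x : ℝ) - y| < ε ∧ u ^ 2 = x ^ 2 + h ^ 2 ∧ v ^ 2 = (x - b) ^ 2 + k ^ 2 := by
  have hOm : 0 < Om (h : ℝ) k b := Om_pos hO
  have : Fact (0 < Om (h : ℝ) k b) := ⟨hOm⟩
  set θ : AddCircle (Om (h : ℝ) k b) := ((FF (h : ℝ) k b (x1 h k b) : ℝ) :
    AddCircle (Om (h : ℝ) k b)) with hθ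
  have hord : addOrderOf θ = 0 := by
    by_contra h0
    exact not_finite hO hA (addOrderOf θ) (Nat.pos_of_ne_zero h0) (addOrderOf_nsmul_eq_zero θ)
  have hd : DenseRange (fun n : ℤ => n • θ) := AddCircle.denseRange_zsmul_iff.2 hord
  have hmono := FF_mono hO
  set I : Set ℝ := Ioo (FF (h : ℝ) k b (y - ε)) (FF (h : ℝ) k b (y + ε)) with hI
  have hU : IsOpen ((fun t : ℝ => (t : AddCircle (Om (h : ℝ) k b))) '' I) :=
    QuotientAddGroup.isOpenMap_coe _ isOpen_Ioo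
  have hne : ((fun t : ℝ => (t : AddCircle (Om (h : ℝ) k b))) '' I).Nonempty :=
    ⟨_, FF (h : ℝ) k b y, ⟨hmono (by linarith), hmono (by linarith)⟩, rfl⟩
  obtain ⟨n, t, ht, hn⟩ := hd.exists_mem_open hU hne
  have ht0 : 0 < t := (FF_pos hO _).trans ht.1
  have ht1 : t < Om (h : ℝ) k b := ht.2.trans (FF_lt hO _)
  have hIco : ∀ s : ℝ, 0 < s → s < Om (h : ℝ) k b → s ∈ Ico (0 : ℝ) (0 + Om (h : ℝ) k b) :=
    fun s h1 h2 => ⟨h1.le, by rw [zero_add]; exact h2⟩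
  have hinj : ∀ s : ℝ, 0 < s → s < Om (h : ℝ) k b →
      ((s : AddCircle (Om (h : ℝ) k b)) = (t : AddCircle (Om (h : ℝ) k b))) → s = t :=
    fun s h1 h2 h3 => (AddCircle.coe_eq_coe_iff_of_mem_Ico (hIco s h1 h2) (hIco t ht0 ht1)).1 h3
  have hclose : ∀ x : ℝ, FF (h : ℝ) k b x = t → |x - y| < ε := by
    intro x hx
    rw [← hx] at ht
    have h1 := hmono.lt_iff_lt.1 ht.1
    have h2 := hmono.lt_iff_lt.1 ht.2
    rw [abs_lt]
    constructor <;> linarith
  have ht' : ((t : ℝ) : AddCircle (Om (h : ℝ) k b)) ≠ 0 := by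
    intro h0
    have h1 := (AddCircle.coe_eq_zero_iff_of_mem_Ico (p := Om (h : ℝ) k b) ⟨ht0.le, ht1⟩).1 h0
    exact ht0.ne' h1
  have hn' : ((t : ℝ) : AddCircle (Om (h : ℝ) k b)) = n • θ := hn
  have orb : ∀ m : ℕ, 0 < m → ∃ x : ℚ, Orb h k b m x ∧
      ((FF (h : ℝ) k b x : ℝ) : AddCircle (Om (h : ℝ) k b)) = (m : ℕ) • θ := by
    intro m hm
    rcases orbit hO hA m with ⟨h0, _⟩ | h1
    · exact absurd h0 (not_finite hO hA m hm)
    · exact h1
  rcases lt_trichotomy n 0 with hneg | h0 | hpos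
  · obtain ⟨m, hm⟩ := Int.eq_ofNat_of_zero_le (show 0 ≤ -n by omega)
    have hm0 : 0 < m := by omega
    obtain ⟨x, ⟨u, v, hP, _⟩, hF⟩ := orb m hm0
    obtain ⟨u', v', hP', _⟩ := Pt.stepp hO hP _ _ rfl rfl
    refine ⟨_, u', v', hclose _ ?_, hP'.hu, hP'.hv⟩
    rw [php_cast352 hP]
    apply hinj _ (FF_pos hO _) (FF_lt hO _)
    have h1 : FF (h : ℝ) k b (php h k b x) = Om (h : ℝ) k b - FF (h : ℝ) k b x := by
      have := FF_php hO (x : ℝ)
      linarith
    rw [h1, AddCircle.coe_sub, AddCircle.coe_period, zero_sub, hF, hn']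
    have h2 : n = -(m : ℤ) := by omega
    rw [h2, neg_zsmul, natCast_zsmul]
  · rw [h0, zero_zsmul] at hn'
    exact absurd hn' ht'
  · obtain ⟨m, hm⟩ := Int.eq_ofNat_of_zero_le hpos.le
    have hm0 : 0 < m := by omega
    obtain ⟨x, ⟨u, v, hP, _⟩, hF⟩ := orb m hm0
    refine ⟨x, u, v, hclose _ ?_, hP.hu, hP.hv⟩
    apply hinj _ (FF_pos hO _) (FF_lt hO _)
    rw [hF, hn', hm, natCast_zsmul]

theorem RA15_two : padicNorm 2 (2 : ℚ) = 1 / 2 := by
  haveI : Fact (Nat.Prime 2) := ⟨Nat.prime_two⟩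
  have h := padicNorm.padicNorm_p_of_prime (p := 2)
  push_cast at h
  rw [h]; norm_num

theorem RA15_three (N : ℕ) : padicNorm 2 ((3 : ℚ) ^ N) = 1 := by
  haveI : Fact (Nat.Prime 2) := ⟨Nat.prime_two⟩
  have h := (padicNorm.nat_eq_one_iff (p := 2) (3 ^ N)).2 (by
    intro h
    have := Nat.prime_two.dvd_of_dvd_pow h
    omega)
  push_cast at h
  exact h

theorem RA15_N (ε : ℝ) (hε : 0 < ε) : ∃ N : ℕ, 2 / (3 : ℝ) ^ N < ε := by
  obtain ⟨N, hN⟩ := exists_pow_lt_of_lt_one (show (0:ℝ) < ε / 2 by linarith)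
    (show (1 / 3 : ℝ) < 1 by norm_num)
  refine ⟨N, ?_⟩
  have : 2 / (3:ℝ) ^ N = 2 * (1 / 3) ^ N := by
    rw [one_div, inv_pow]; rfl
  rw [this]; linarith

theorem RA15_int (a : ℤ) : padicNorm 2 (a : ℚ) ≤ 1 := by
  haveI : Fact (Nat.Prime 2) := ⟨Nat.prime_two⟩
  exact padicNorm.of_int a

theorem exists_even (y ε : ℝ) (hε : 0 < ε) :
    ∃ q : ℚ, |(q : ℝ) - y| < ε ∧ q ≠ 0 ∧ padicNorm 2 q ≤ 1 / 2 := by
  haveI : Fact (Nat.Prime 2) := ⟨Nat.prime_two⟩
  obtain ⟨N, hN⟩ := RA15_N ε hε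
  have h3 : (0:ℝ) < 3 ^ N := by positivity
  have key : ∃ a : ℤ, a ≠ 0 ∧ |(a : ℝ) - y * 3 ^ N / 2| ≤ 1 := by
    by_cases h0 : ⌊y * 3 ^ N / 2⌋ = 0
    · refine ⟨1, one_ne_zero, ?_⟩
      rw [Int.floor_eq_zero_iff] at h0
      rw [abs_le]
      push_cast
      constructor <;> linarith [h0.1, h0.2.le]
    · refine ⟨_, h0, ?_⟩
      rw [abs_le]
      constructor <;> linarith [Int.floor_le (y * 3 ^ N / 2), Int.lt_floor_add_one (y * 3 ^ N / 2)]
  obtain ⟨a, ha, hle⟩ := key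
  refine ⟨2 * a / 3 ^ N, ?_, ?_, ?_⟩
  · push_cast
    have h1 : 2 * (a : ℝ) / 3 ^ N - y = (2 / 3 ^ N) * (a - y * 3 ^ N / 2) := by
      field_simp
    rw [h1, abs_mul, abs_of_pos (by positivity : (0:ℝ) < 2 / 3 ^ N)]
    calc (2 / 3 ^ N) * |(a : ℝ) - y * 3 ^ N / 2| ≤ (2 / 3 ^ N) * 1 :=
          mul_le_mul_of_nonneg_left hle (by positivity)
      _ < ε := by rw [mul_one]; exact hN
  · have : (a : ℚ) ≠ 0 := by exact_mod_cast ha
    positivity
  · rw [padicNorm.div, RA15_three, padicNorm.mul, RA15_two, div_one]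
    have := RA15_int a
    linarith

theorem exists_unit (y ε : ℝ) (hε : 0 < ε) :
    ∃ q : ℚ, |(q : ℝ) - y| < ε ∧ padicNorm 2 q = 1 := by
  haveI : Fact (Nat.Prime 2) := ⟨Nat.prime_two⟩
  obtain ⟨N, hN⟩ := RA15_N ε hε
  have h3 : (0:ℝ) < 3 ^ N := by positivity
  set a : ℤ := ⌊(y * 3 ^ N - 1) / 2⌋ with ha
  have hle : |(a : ℝ) - (y * 3 ^ N - 1) / 2| ≤ 1 := by
    rw [abs_le]
    constructor <;> linarith [Int.floor_le ((y * 3 ^ N - 1) / 2),
      Int.lt_floor_add_one ((y * 3 ^ N - 1) / 2)]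
  refine ⟨((2 * a + 1 : ℤ) : ℚ) / 3 ^ N, ?_, ?_⟩
  · push_cast
    have h1 : (2 * (a : ℝ) + 1) / 3 ^ N - y = (2 / 3 ^ N) * (a - (y * 3 ^ N - 1) / 2) := by
      field_simp
      ring
    rw [h1, abs_mul, abs_of_pos (by positivity : (0:ℝ) < 2 / 3 ^ N)]
    calc (2 / 3 ^ N) * |(a : ℝ) - (y * 3 ^ N - 1) / 2| ≤ (2 / 3 ^ N) * 1 :=
          mul_le_mul_of_nonneg_left hle (by positivity)
      _ < ε := by rw [mul_one]; exact hN
  · rw [padicNorm.div, RA15_three, div_one]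
    apply (padicNorm.int_eq_one_iff (p := 2) (2 * a + 1)).2
    push_cast
    omega

theorem RA15_real (a b : ℝ) (hb : b ≠ 0) : ∃ l t : ℝ, l * (1 - t ^ 2) = a ∧ 2 * l * t = b := by
  have hb2 : 0 < b ^ 2 := by positivity
  have h1 : Real.sqrt (a ^ 2 + b ^ 2) ^ 2 = a ^ 2 + b ^ 2 := Real.sq_sqrt (by positivity)
  have h2 : 0 ≤ Real.sqrt (a ^ 2 + b ^ 2) := Real.sqrt_nonneg _
  set ρ := Real.sqrt (a ^ 2 + b ^ 2) with hρ
  have h3 : 0 < ρ + a := by
    by_contra hcon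
    push Not at hcon
    nlinarith
  refine ⟨(ρ + a) / 2, b / (ρ + a), ?_, ?_⟩
  · field_simp
    nlinarith
  · field_simp

theorem RA15_cont (l t κ ε : ℝ) (hε : 0 < ε) : ∃ δ > 0, ∀ l' t' κ' : ℝ, |l' - l| < δ →
    |t' - t| < δ → |κ' - κ| < δ →
    |(κ' + l' * (1 - t' ^ 2)) - (κ + l * (1 - t ^ 2))| < ε ∧ |2 * l' * t' - 2 * l * t| < ε := by
  have c1 : Continuous (fun p : ℝ × ℝ × ℝ => p.2.2 + p.1 * (1 - p.2.1 ^ 2)) := by fun_prop
  have c2 : Continuous (fun p : ℝ × ℝ × ℝ => 2 * p.1 * p.2.1) := by fun_prop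
  obtain ⟨δ1, hδ1, H1⟩ := Metric.continuous_iff.1 c1 (l, t, κ) ε hε
  obtain ⟨δ2, hδ2, H2⟩ := Metric.continuous_iff.1 c2 (l, t, κ) ε hε
  refine ⟨min δ1 δ2, lt_min hδ1 hδ2, fun l' t' κ' h1 h2 h3 => ?_⟩
  have hd : dist (l', t', κ') (l, t, κ) < min δ1 δ2 := by
    rw [Prod.dist_eq, Prod.dist_eq]
    simp only [Real.dist_eq]
    exact max_lt h1 (max_lt h2 h3)
  have g1 := H1 (l', t', κ') (hd.trans_le (min_le_left _ _))
  have g2 := H2 (l', t', κ') (hd.trans_le (min_le_right _ _))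
  rw [Real.dist_eq] at g1 g2
  exact ⟨g1, g2⟩

theorem params (h0 k0 b0 ε : ℝ) (hε : 0 < ε) :
    ∃ h k b d : ℚ, |(h : ℝ) - h0| < ε ∧ |(k : ℝ) - k0| < ε ∧ |(b : ℝ) - b0| < ε ∧
      k ≠ 0 ∧ b ≠ 0 ∧ padicNorm 2 h = 1 ∧ padicNorm 2 k ≤ 1 / 2 ∧ padicNorm 2 b ≤ 1 / 2 ∧
      d ^ 2 = b ^ 2 + (h - k) ^ 2 := by
  haveI : Fact (Nat.Prime 2) := ⟨Nat.prime_two⟩
  have hb : ∃ b1 : ℝ, b1 ≠ 0 ∧ |b1 - b0| < ε / 2 := by
    by_cases h : b0 = 0
    · refine ⟨ε / 4, by positivity, ?_⟩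
      rw [h, sub_zero, abs_of_pos (by positivity)]
      linarith
    · exact ⟨b0, h, by simpa using hε⟩
  obtain ⟨b1, hb1, hb2⟩ := hb
  obtain ⟨l, t, hl1, hl2⟩ := RA15_real (h0 - k0) b1 hb1
  obtain ⟨δ, hδ, H⟩ := RA15_cont l t k0 (ε / 2) (by linarith)
  obtain ⟨l', hl', nl⟩ := exists_unit l δ hδ
  obtain ⟨t', ht', nt0, nt⟩ := exists_even t δ hδ
  obtain ⟨k', hk', nk0, nk⟩ := exists_even k0 (min δ ε) (lt_min hδ hε)
  obtain ⟨g1, g2⟩ := H l' t' k' hl' ht' (hk'.trans_le (min_le_left _ _))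
  have hl0 : l' ≠ 0 := by
    rintro rfl
    rw [padicNorm.zero] at nl
    exact zero_ne_one nl
  have hnt : 0 ≤ padicNorm 2 t' := padicNorm.nonneg _
  have hnk : 0 ≤ padicNorm 2 k' := padicNorm.nonneg _
  refine ⟨k' + l' * (1 - t' ^ 2), k', 2 * l' * t', l' * (1 + t' ^ 2), ?_,
    hk'.trans_le (min_le_right _ _), ?_, nk0, by positivity, ?_, nk, ?_, by ring⟩
  · push_cast
    rw [hl1] at g1
    have : (k0 + (h0 - k0)) = h0 := by ring
    rw [this] at g1
    linarith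
  · push_cast
    rw [hl2] at g2
    have : |2 * (l' : ℝ) * t' - b0| ≤ |2 * (l' : ℝ) * t' - b1| + |b1 - b0| := by
      have : 2 * (l' : ℝ) * t' - b0 = (2 * (l' : ℝ) * t' - b1) + (b1 - b0) := by ring
      rw [this]; exact abs_add_le _ _
    linarith
  · have h1 : padicNorm 2 (-t' ^ 2) = padicNorm 2 t' * padicNorm 2 t' := by
      rw [padicNorm.neg, sq, padicNorm.mul]
    have h2 : padicNorm 2 (-t' ^ 2) < 1 := by rw [h1]; nlinarith
    have h3 : padicNorm 2 (1 - t' ^ 2) = 1 := by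
      rw [sub_eq_add_neg, padicNorm.add_eq_max_of_ne (by rw [padicNorm.one]; exact h2.ne'),
        padicNorm.one, max_eq_left h2.le]
    have h4 : padicNorm 2 (l' * (1 - t' ^ 2)) = 1 := by rw [padicNorm.mul, nl, h3, one_mul]
    have h5 : padicNorm 2 k' < 1 := by linarith
    rw [padicNorm.add_eq_max_of_ne (by rw [h4]; exact h5.ne), h4, max_eq_right h5.le]
  · rw [padicNorm.mul, padicNorm.mul, RA15_two, nl]
    nlinarith

theorem dense_good' (h k b : ℚ) (hk0 : k ≠ 0) (hb0 : b ≠ 0) (hh : padicNorm 2 h = 1)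
    (hk : padicNorm 2 k ≤ 1 / 2) (hb : padicNorm 2 b ≤ 1 / 2) (y ε : ℝ) (hε : 0 < ε) :
    ∃ x u v : ℚ, |(x : ℝ) - y| < ε ∧ u ^ 2 = x ^ 2 + h ^ 2 ∧ v ^ 2 = (x - b) ^ 2 + k ^ 2 := by
  have habs : ∀ q : ℚ, padicNorm 2 |q| = padicNorm 2 q := by
    intro q
    rcases abs_choice q with hq | hq <;> rw [hq]
    rw [padicNorm.neg]
  have hh0 : h ≠ 0 := by
    rintro rfl
    simp at hh
  have hO : OK ((|h| : ℚ) : ℝ) ((|k| : ℚ) : ℝ) ((b : ℚ) : ℝ) := by
    refine ⟨?_, ?_, ?_, ?_⟩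
    · exact_mod_cast abs_pos.mpr hh0
    · exact_mod_cast abs_pos.mpr hk0
    · exact_mod_cast hb0
    · intro heq
      have h1 : (|h| : ℚ) = |k| := by exact_mod_cast heq
      have h2 : padicNorm 2 h = padicNorm 2 k := by
        rw [← habs h, ← habs k, h1]
      rw [hh] at h2
      rw [← h2] at hk
      norm_num at hk
  have hA : Ad |h| |k| b :=
    ⟨by rw [habs]; exact hh, by rw [habs]; exact hk, hb, hb0⟩
  obtain ⟨x, u, v, h1, h2, h3⟩ := dense_good hO hA y ε hε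
  refine ⟨x, u, v, h1, ?_, ?_⟩
  · rw [h2, sq_abs]
  · rw [h3, sq_abs]

/-- a set with all distances rational -/
def RatSet {α : Type} [PseudoMetricSpace α] (X : Set α) : Prop :=
  ∀ x ∈ X, ∀ y ∈ X, ∃ q : ℚ, dist x y = (q : ℝ)

/-- rationally approximable sets -/
def RApx {α : Type} [PseudoMetricSpace α] (S : Set α) : Prop :=
  ∀ ε : ℝ, 0 < ε → ∃ X : Set α, RatSet X ∧ ∀ s ∈ S, ∃ x ∈ X, dist s x < ε

theorem RApx.mono {α : Type} [PseudoMetricSpace α] {S T : Set α} (h : S ⊆ T) (hT : RApx T) :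
    RApx S := by
  intro ε hε
  obtain ⟨X, hX, hX'⟩ := hT ε hε
  exact ⟨X, hX, fun s hs => hX' s (h hs)⟩

theorem RApx.image {α β : Type} [PseudoMetricSpace α] [PseudoMetricSpace β] {S : Set α}
    (e : α ≃ᵢ β) (hS : RApx S) : RApx (e '' S) := by
  intro ε hε
  obtain ⟨X, hX, hX'⟩ := hS ε hε
  refine ⟨e '' X, ?_, ?_⟩
  · rintro _ ⟨x, hx, rfl⟩ _ ⟨y, hy, rfl⟩
    rw [e.dist_eq]
    exact hX x hx y hy
  · rintro _ ⟨s, hs, rfl⟩
    obtain ⟨x, hx, hd⟩ := hX' s hs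
    exact ⟨e x, ⟨x, hx, rfl⟩, by rw [e.dist_eq]; exact hd⟩

theorem dist_rat_of_sq (z w : ℂ) (r : ℚ)
    (h : (z.re - w.re) ^ 2 + (z.im - w.im) ^ 2 = ((r : ℚ) : ℝ) ^ 2) :
    ∃ q : ℚ, dist z w = (q : ℝ) := by
  refine ⟨|r|, ?_⟩
  rw [Complex.dist_eq_re_im, h, Real.sqrt_sq_eq_abs]
  push_cast
  rfl

theorem line_axis (P Q : ℂ) : RApx ({z : ℂ | z.im = 0} ∪ {P, Q}) := by
  intro ε hε
  obtain ⟨h, k, b, d, hh, hk, hb, hk0, hb0, nh, nk, nb, hd⟩ :=
    params P.im Q.im (Q.re - P.re) (ε / 2) (by positivity)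
  have hd' : ((d : ℚ) : ℝ) ^ 2 = (b : ℝ) ^ 2 + ((h : ℝ) - k) ^ 2 := by exact_mod_cast hd
  refine ⟨{z : ℂ | ∃ x u v : ℚ, u ^ 2 = x ^ 2 + h ^ 2 ∧ v ^ 2 = (x - b) ^ 2 + k ^ 2 ∧
      z = ⟨P.re + x, 0⟩} ∪ {⟨P.re, h⟩, ⟨P.re + b, k⟩}, ?_, ?_⟩
  · rintro z (⟨x, u, v, hu, hv, rfl⟩ | rfl | rfl) w (⟨x', u', v', hu', hv', rfl⟩ | rfl | rfl)
    · exact dist_rat_of_sq _ _ (x - x') (by push_cast; ring)
    · have hu2 : ((u : ℚ) : ℝ) ^ 2 = (x : ℝ) ^ 2 + (h : ℝ) ^ 2 := by exact_mod_cast hu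
      exact dist_rat_of_sq _ _ u (by simp only; rw [hu2]; ring)
    · have hv2 : ((v : ℚ) : ℝ) ^ 2 = ((x : ℝ) - b) ^ 2 + (k : ℝ) ^ 2 := by exact_mod_cast hv
      exact dist_rat_of_sq _ _ v (by simp only; rw [hv2]; ring)
    · have hu2 : ((u' : ℚ) : ℝ) ^ 2 = (x' : ℝ) ^ 2 + (h : ℝ) ^ 2 := by exact_mod_cast hu'
      exact dist_rat_of_sq _ _ u' (by simp only; rw [hu2]; ring)
    · exact dist_rat_of_sq _ _ 0 (by simp only; push_cast; ring)
    · exact dist_rat_of_sq _ _ d (by simp only; rw [hd']; ring)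
    · have hv2 : ((v' : ℚ) : ℝ) ^ 2 = ((x' : ℝ) - b) ^ 2 + (k : ℝ) ^ 2 := by exact_mod_cast hv'
      exact dist_rat_of_sq _ _ v' (by simp only; rw [hv2]; ring)
    · exact dist_rat_of_sq _ _ d (by simp only; rw [hd']; ring)
    · exact dist_rat_of_sq _ _ 0 (by simp only; push_cast; ring)
  · rintro s (hs | rfl | rfl)
    · obtain ⟨x, u, v, hx, hu, hv⟩ := dense_good' h k b hk0 hb0 nh nk nb (s.re - P.re) ε hε
      refine ⟨⟨P.re + x, 0⟩, Or.inl ⟨x, u, v, hu, hv, rfl⟩, ?_⟩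
      have hs' : s.im = 0 := hs
      rw [Complex.dist_eq_re_im, hs']
      simp only
      have : (s.re - (P.re + (x : ℝ))) ^ 2 + ((0 : ℝ) - 0) ^ 2 = ((x : ℝ) - (s.re - P.re)) ^ 2 := by
        ring
      rw [this, Real.sqrt_sq_eq_abs]
      exact hx
    · refine ⟨⟨s.re, h⟩, Or.inr (Or.inl rfl), ?_⟩
      rw [Complex.dist_eq_re_im]
      simp only
      have : (s.re - s.re) ^ 2 + (s.im - (h : ℝ)) ^ 2 = ((h : ℝ) - s.im) ^ 2 := by ring
      rw [this, Real.sqrt_sq_eq_abs]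
      linarith
    · refine ⟨⟨P.re + b, k⟩, Or.inr (Or.inr rfl), ?_⟩
      rw [Complex.dist_eq]
      refine (Complex.norm_le_abs_re_add_abs_im _).trans_lt ?_
      simp only [Complex.sub_re, Complex.sub_im]
      have e1 : |s.re - (P.re + (b : ℝ))| < ε / 2 := by
        rw [abs_sub_comm]
        have : P.re + (b : ℝ) - s.re = (b : ℝ) - (s.re - P.re) := by ring
        rw [this]; exact hb
      have e2 : |s.im - (k : ℝ)| < ε / 2 := by
        rw [abs_sub_comm]; exact hk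
      linarith

theorem line_two (p v P Q : ℂ) (hv : v ≠ 0) :
    RApx ({z : ℂ | ∃ t : ℝ, z = p + t * v} ∪ {P, Q}) := by
  have hv0 : (‖v‖ : ℂ) ≠ 0 := by
    rw [Ne, Complex.ofReal_eq_zero]; exact norm_ne_zero_iff.2 hv
  have hu : ‖v / ‖v‖‖ = 1 := by
    rw [norm_div, Complex.norm_real, norm_norm, div_self (norm_ne_zero_iff.2 hv)]
  set u : Circle := ⟨v / ‖v‖, mem_sphere_zero_iff_norm.2 hu⟩ with hudef
  set e : ℂ ≃ᵢ ℂ := (rotation u).toIsometryEquiv.trans (IsometryEquiv.addLeft p) with he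
  have hez : ∀ z, e z = p + v / ‖v‖ * z := fun z => rfl
  have h1 := (line_axis (e.symm P) (e.symm Q)).image e
  apply h1.mono
  rintro z (⟨t, rfl⟩ | hz)
  · refine ⟨((t * ‖v‖ : ℝ) : ℂ), Or.inl (Complex.ofReal_im _), ?_⟩
    rw [hez]
    push_cast
    field_simp
  · rcases hz with rfl | hz
    · exact ⟨e.symm z, Or.inr (Or.inl rfl), e.apply_symm_apply z⟩
    · rw [Set.mem_singleton_iff] at hz
      subst hz
      exact ⟨e.symm z, Or.inr (Or.inr rfl), e.apply_symm_apply z⟩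

/-- distance of inverted points -/
theorem circle_one_inv (A x y : ℂ) (hx : x ≠ A) (hy : y ≠ A) :
    dist (A + 1 / (starRingEnd ℂ) (x - A)) (A + 1 / (starRingEnd ℂ) (y - A)) =
      dist x y / (dist x A * dist y A) := by
  have hx' : x - A ≠ 0 := sub_ne_zero.2 hx
  have hy' : y - A ≠ 0 := sub_ne_zero.2 hy
  have hxc : (starRingEnd ℂ) (x - A) ≠ 0 := (map_ne_zero _).2 hx'
  have hyc : (starRingEnd ℂ) (y - A) ≠ 0 := (map_ne_zero _).2 hy'
  rw [dist_eq_norm, dist_eq_norm, dist_eq_norm, dist_eq_norm]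
  have e1 : A + 1 / (starRingEnd ℂ) (x - A) - (A + 1 / (starRingEnd ℂ) (y - A)) =
      (starRingEnd ℂ) (y - x) / ((starRingEnd ℂ) (x - A) * (starRingEnd ℂ) (y - A)) := by
    field_simp
    rw [map_sub, map_sub, map_sub]
    ring
  rw [e1, norm_div, norm_mul, Complex.norm_conj, Complex.norm_conj, Complex.norm_conj, norm_sub_rev]

theorem circle_one_dist (A x : ℂ) :
    dist A (A + 1 / (starRingEnd ℂ) (x - A)) = 1 / dist x A := by
  rw [dist_eq_norm, dist_eq_norm]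
  have e1 : A - (A + 1 / (starRingEnd ℂ) (x - A)) = -(1 / (starRingEnd ℂ) (x - A)) := by ring
  rw [e1, norm_neg, norm_div, norm_one, Complex.norm_conj]

/-- the inverted rational set -/
theorem circle_one_ratset (X : Set ℂ) (hX : RatSet X) (A : ℂ) (hA : A ∈ X) :
    RatSet ({A} ∪ {y : ℂ | ∃ x ∈ X, x ≠ A ∧ y = A + 1 / (starRingEnd ℂ) (x - A)}) := by
  have h1 : ∀ x ∈ X, ∃ q : ℚ, dist A (A + 1 / (starRingEnd ℂ) (x - A)) = (q : ℝ) := by
    intro x hx
    obtain ⟨q, hq⟩ := hX x hx A hA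
    refine ⟨1 / q, ?_⟩
    rw [circle_one_dist, hq]
    push_cast
    rfl
  rintro y (hy | ⟨x, hx, hxA, rfl⟩) z (hz | ⟨x', hx', hxA', rfl⟩)
  · rw [Set.mem_singleton_iff] at hy hz
    subst hy
    subst hz
    exact ⟨0, by simp⟩
  · rw [Set.mem_singleton_iff] at hy
    subst hy
    exact h1 x' hx'
  · rw [Set.mem_singleton_iff] at hz
    subst hz
    rw [dist_comm]
    exact h1 x hx
  · obtain ⟨q1, hq1⟩ := hX x hx x' hx'
    obtain ⟨q2, hq2⟩ := hX x hx A hA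
    obtain ⟨q3, hq3⟩ := hX x' hx' A hA
    refine ⟨q1 / (q2 * q3), ?_⟩
    rw [circle_one_inv A x x' hxA hxA', hq1, hq2, hq3]
    push_cast
    rfl

/-- the approximation estimate -/
theorem circle_one_est (A A' z x' : ℂ) (hz : z ≠ A) (m δ : ℝ) (hm : 0 < m)
    (hms : m ≤ 1 / ‖z - A‖) (hδ : δ ≤ m / 4) (h1 : dist A A' < δ)
    (h2 : dist (A + 1 / (starRingEnd ℂ) (z - A)) x' < δ) :
    x' ≠ A' ∧ dist z (A' + 1 / (starRingEnd ℂ) (x' - A')) ≤ δ + 4 * δ / m ^ 2 := by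
  have hz' : z - A ≠ 0 := sub_ne_zero.2 hz
  set s := 1 / (starRingEnd ℂ) (z - A) with hs
  have hsn : ‖s‖ = 1 / ‖z - A‖ := by
    rw [hs, norm_div, norm_one, Complex.norm_conj]
  have hs0 : s ≠ 0 := by
    rw [hs]
    exact one_div_ne_zero ((map_ne_zero _).2 hz')
  have hzs : z = A + 1 / (starRingEnd ℂ) s := by
    rw [hs, map_div₀, map_one, Complex.conj_conj]
    field_simp
    ring
  have hms' : m ≤ ‖s‖ := by rw [hsn]; exact hms
  set w := x' - A' with hw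
  have hws : ‖w - s‖ < 2 * δ := by
    have e1 : w - s = (A - A') - (A + s - x') := by rw [hw]; ring
    rw [e1]
    rw [dist_eq_norm] at h1 h2
    have := norm_sub_le (A - A') (A + s - x')
    linarith
  have hδ0 : 0 < δ := lt_of_le_of_lt dist_nonneg h1
  have hwn : m / 2 ≤ ‖w‖ := by
    have := norm_sub_norm_le s (s - w)
    rw [sub_sub_cancel, norm_sub_rev s w] at this
    linarith
  have hw0 : w ≠ 0 := by
    intro h
    rw [h, norm_zero] at hwn
    linarith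
  refine ⟨fun h => hw0 (by rw [hw, h, sub_self]), ?_⟩
  rw [dist_eq_norm]
  have e2 : z - (A' + 1 / (starRingEnd ℂ) w) =
      (A - A') + (starRingEnd ℂ) (w - s) / ((starRingEnd ℂ) s * (starRingEnd ℂ) w) := by
    have hsc : (starRingEnd ℂ) s ≠ 0 := (map_ne_zero _).2 hs0
    have hwc : (starRingEnd ℂ) w ≠ 0 := (map_ne_zero _).2 hw0
    have e5 : (starRingEnd ℂ) (w - s) = (starRingEnd ℂ) w - (starRingEnd ℂ) s := map_sub _ _ _
    rw [e5]
    have e6 : ∀ S W' : ℂ, S ≠ 0 → W' ≠ 0 →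
        A + 1 / S - (A' + 1 / W') = (A - A') + (W' - S) / (S * W') := by
      intro S W' hS hW
      field_simp
      ring
    rw [← e6 _ _ hsc hwc]
    conv_lhs => rw [hzs]
  rw [e2]
  refine (norm_add_le _ _).trans ?_
  rw [norm_div, norm_mul, Complex.norm_conj, Complex.norm_conj, Complex.norm_conj]
  rw [dist_eq_norm] at h1
  have e3 : ‖w - s‖ / (‖s‖ * ‖w‖) ≤ 4 * δ / m ^ 2 := by
    rw [div_le_div_iff₀ (by positivity) (by positivity)]
    have e4 : m * (m / 2) ≤ ‖s‖ * ‖w‖ := mul_le_mul hms' hwn (by positivity) (norm_nonneg _)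
    calc ‖w - s‖ * m ^ 2 ≤ (2 * δ) * m ^ 2 := mul_le_mul_of_nonneg_right hws.le (sq_nonneg m)
      _ = 4 * δ * (m * (m / 2)) := by ring
      _ ≤ 4 * δ * (‖s‖ * ‖w‖) := mul_le_mul_of_nonneg_left e4 (by positivity)
  linarith

theorem circle_one (c : ℂ) (r : ℝ) (hr : 0 < r) (Q : ℂ) : RApx (Metric.sphere c r ∪ {Q}) := by
  -- choose A
  obtain ⟨A, hAc, hAQ⟩ : ∃ A : ℂ, ‖A - c‖ = r ∧ Q ≠ A := by
    by_cases h : Q = c + r
    · refine ⟨c - r, ?_, ?_⟩
      · rw [sub_sub_cancel_left, norm_neg, Complex.norm_real, Real.norm_eq_abs, abs_of_pos hr]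
      · rw [h]
        intro h2
        have h3 : ((2 * r : ℝ) : ℂ) = 0 := by
          push_cast
          linear_combination h2
        rw [Complex.ofReal_eq_zero] at h3
        linarith
    · refine ⟨c + r, ?_, h⟩
      rw [add_sub_cancel_left, Complex.norm_real, Real.norm_eq_abs, abs_of_pos hr]
  set a := A - c with ha
  have ha0 : a ≠ 0 := by
    intro h
    rw [h, norm_zero] at hAc
    linarith
  have hac : (starRingEnd ℂ) a ≠ 0 := (map_ne_zero _).2 ha0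
  have hQA : Q - A ≠ 0 := sub_ne_zero.2 hAQ
  intro ε hε
  set m := min (1 / (2 * r)) (1 / ‖Q - A‖) with hm
  have hm0 : 0 < m := lt_min (by positivity) (by have := norm_pos_iff.2 hQA; positivity)
  set δ := min (m / 4) (ε / 2 / (1 + 4 / m ^ 2)) with hδ
  have hδ0 : 0 < δ := lt_min (by positivity) (by positivity)
  have hδ1 : δ ≤ m / 4 := min_le_left _ _
  have hδ2 : δ + 4 * δ / m ^ 2 < ε := by
    have h1 : δ ≤ ε / 2 / (1 + 4 / m ^ 2) := min_le_right _ _
    rw [le_div_iff₀ (by positivity)] at h1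
    have h2 : δ + 4 * δ / m ^ 2 = δ * (1 + 4 / m ^ 2) := by ring
    rw [h2]
    linarith
  obtain ⟨X, hX, hX'⟩ := line_two (A - 1 / (2 * (starRingEnd ℂ) a)) (Complex.I / (starRingEnd ℂ) a) A
    (A + 1 / (starRingEnd ℂ) (Q - A)) (div_ne_zero Complex.I_ne_zero hac) δ hδ0
  obtain ⟨A', hA'X, hA'⟩ := hX' A (Or.inr (Or.inl rfl))
  refine ⟨_, circle_one_ratset X hX A' hA'X, ?_⟩
  have key : ∀ z : ℂ, z ≠ A → m ≤ 1 / ‖z - A‖ →
      (A + 1 / (starRingEnd ℂ) (z - A) ∈ ({w : ℂ | ∃ t : ℝ, w = A - 1 / (2 * (starRingEnd ℂ) a) +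
        t * (Complex.I / (starRingEnd ℂ) a)} ∪ {A, A + 1 / (starRingEnd ℂ) (Q - A)} : Set ℂ)) →
      ∃ x ∈ ({A'} ∪ {y : ℂ | ∃ x ∈ X, x ≠ A' ∧ y = A' + 1 / (starRingEnd ℂ) (x - A')} : Set ℂ),
        dist z x < ε := by
    intro z hz hms hmem
    obtain ⟨x', hx'X, hx'⟩ := hX' _ hmem
    obtain ⟨h3, h4⟩ := circle_one_est A A' z x' hz m δ hm0 hms hδ1 hA' hx'
    exact ⟨_, Or.inr ⟨x', hx'X, h3, rfl⟩, lt_of_le_of_lt h4 hδ2⟩
  rintro z (hz | hz)
  · by_cases hzA : z = A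
    · subst hzA
      refine ⟨A', Or.inl rfl, hA'.trans_le ?_⟩
      have : 0 ≤ 4 * δ / m ^ 2 := by positivity
      linarith
    · have hz' : z - A ≠ 0 := sub_ne_zero.2 hzA
      have hzc : (starRingEnd ℂ) (z - A) ≠ 0 := (map_ne_zero _).2 hz'
      have hzn : 0 < ‖z - A‖ := norm_pos_iff.2 hz'
      rw [mem_sphere_iff_norm] at hz
      apply key z hzA
      · refine (min_le_left _ _).trans ?_
        apply one_div_le_one_div_of_le hzn
        have e1 : z - A = (z - c) - a := by rw [ha]; ring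
        rw [e1]
        have := norm_sub_le (z - c) a
        linarith
      · left
        -- real part computation
        set b := z - A with hb
        have h5 : Complex.normSq (a + b) = Complex.normSq a := by
          have e1 : a + b = z - c := by rw [ha, hb]; ring
          rw [e1, Complex.normSq_eq_norm_sq, Complex.normSq_eq_norm_sq, hz, hAc]
        rw [Complex.normSq_add] at h5
        have h6 : (a * (starRingEnd ℂ) b).re = - Complex.normSq b / 2 := by linarith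
        have hnb : Complex.normSq b ≠ 0 := by
          rw [Ne, Complex.normSq_eq_zero]; exact hz'
        refine ⟨(a * (starRingEnd ℂ) b).im * (-1 / Complex.normSq b), ?_⟩
        have h7 : (starRingEnd ℂ) a * b = ((- Complex.normSq b / 2 : ℝ) : ℂ) -
            (((a * (starRingEnd ℂ) b).im : ℝ) : ℂ) * Complex.I := by
          have e2 : (starRingEnd ℂ) a * b = (starRingEnd ℂ) (a * (starRingEnd ℂ) b) := by
            rw [map_mul, Complex.conj_conj]
          rw [e2]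
          apply Complex.ext
          · rw [Complex.conj_re, h6]; simp
          · rw [Complex.conj_im]; simp
        have h8 : (starRingEnd ℂ) b * b = ((Complex.normSq b : ℝ) : ℂ) := by
          rw [mul_comm, Complex.mul_conj]
        have hnbc : ((Complex.normSq b : ℝ) : ℂ) ≠ 0 := by exact_mod_cast hnb
        have hb0 : b ≠ 0 := hz'
        have h9 : 1 / (starRingEnd ℂ) b = ((starRingEnd ℂ) a * b) /
            ((starRingEnd ℂ) a * ((Complex.normSq b : ℝ) : ℂ)) := by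
          rw [← h8]
          field_simp
        rw [h9, h7]
        push_cast
        field_simp
        ring
  · rw [Set.mem_singleton_iff] at hz
    subst hz
    exact key z hAQ (min_le_right _ _) (Or.inr (Or.inr rfl))

/-- the isometry of `ℂ` and the plane -/
noncomputable def E833 : ℂ ≃ₗᵢ[ℝ] EuclideanSpace ℝ (Fin 2) := Complex.orthonormalBasisOneI.repr

theorem E833_apply (z : ℂ) : E833.toIsometryEquiv z = E833 z := rfl

theorem collinear_two (S : Set (EuclideanSpace ℝ (Fin 2))) (hS : Collinear ℝ S)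
    (P Q : EuclideanSpace ℝ (Fin 2)) : RApx (S ∪ {P, Q}) := by
  rw [collinear_iff_exists_forall_eq_smul_vadd] at hS
  obtain ⟨p0, v, hv⟩ := hS
  have hv' : ∃ v' : EuclideanSpace ℝ (Fin 2), v' ≠ 0 ∧ ∀ p ∈ S, ∃ r : ℝ, p = r • v' + p0 := by
    by_cases h0 : v = 0
    · refine ⟨EuclideanSpace.single 0 1, ?_, ?_⟩
      · intro h
        have h1 := congrArg norm h
        rw [EuclideanSpace.norm_single, norm_one, norm_zero] at h1
        exact one_ne_zero h1
      · intro p hp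
        obtain ⟨r, hr⟩ := hv p hp
        refine ⟨0, ?_⟩
        rw [hr, h0]; simp
    · exact ⟨v, h0, fun p hp => by
        obtain ⟨r, hr⟩ := hv p hp
        exact ⟨r, hr⟩⟩
  obtain ⟨v', hv0, hv''⟩ := hv'
  have hne : E833.symm v' ≠ 0 := by
    intro h
    exact hv0 ((map_eq_zero_iff _ E833.symm.injective).1 h)
  refine RApx.mono ?_ (RApx.image E833.toIsometryEquiv
    (line_two (E833.symm p0) (E833.symm v') (E833.symm P) (E833.symm Q) hne))
  rintro x (hx | hx | hx)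
  · obtain ⟨r, hr⟩ := hv'' x hx
    refine ⟨E833.symm p0 + r * E833.symm v', Or.inl ⟨r, rfl⟩, ?_⟩
    rw [E833_apply, ← Complex.real_smul, map_add, map_smul, LinearIsometryEquiv.apply_symm_apply,
      LinearIsometryEquiv.apply_symm_apply, hr, add_comm]
  · refine ⟨E833.symm P, Or.inr (Or.inl rfl), ?_⟩
    rw [E833_apply, LinearIsometryEquiv.apply_symm_apply, hx]
  · refine ⟨E833.symm Q, Or.inr (Or.inr rfl), ?_⟩
    rw [E833_apply, LinearIsometryEquiv.apply_symm_apply, hx]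

theorem cospherical_one (S : Set (EuclideanSpace ℝ (Fin 2)))
    (hS : EuclideanGeometry.Cospherical S) (Q : EuclideanSpace ℝ (Fin 2)) : RApx (S ∪ {Q}) := by
  obtain ⟨c, r, hr⟩ := hS
  by_cases h0 : r ≤ 0
  · have hS' : S ⊆ {c} := by
      intro x hx
      have h1 := hr x hx
      have h2 : dist x c ≤ 0 := by rw [h1]; exact h0
      exact dist_le_zero.1 h2
    have hcol : Collinear ℝ S := (collinear_singleton ℝ c).subset hS'
    refine RApx.mono ?_ (collinear_two S hcol Q Q)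
    rintro x (hx | hx)
    · exact Or.inl hx
    · exact Or.inr (Or.inl hx)
  · push Not at h0
    refine RApx.mono ?_ (RApx.image E833.toIsometryEquiv
      (circle_one (E833.symm c) r h0 (E833.symm Q)))
    rintro x (hx | hx)
    · refine ⟨E833.symm x, Or.inl ?_, ?_⟩
      · rw [Metric.mem_sphere, LinearIsometryEquiv.dist_map]
        exact hr x hx
      · rw [E833_apply, LinearIsometryEquiv.apply_symm_apply]
    · refine ⟨E833.symm Q, Or.inr rfl, ?_⟩
      rw [E833_apply, LinearIsometryEquiv.apply_symm_apply, hx]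

theorem five (p : Fin 5 → EuclideanSpace ℝ (Fin 2))
    (h : (∃ s : Finset (Fin 5), s.card = 3 ∧ Collinear ℝ (p '' s)) ∨
      (∃ s : Finset (Fin 5), s.card = 4 ∧ EuclideanGeometry.Cospherical (p '' s)))
    (ε : ℝ) (hε : 0 < ε) :
    ∃ q : Fin 5 → EuclideanSpace ℝ (Fin 2), (∀ i, dist (p i) (q i) < ε) ∧
      ∀ i j, ∃ r : ℚ, dist (q i) (q j) = (r : ℝ) := by
  have key : RApx (Set.range p) := by
    rcases h with ⟨s, hs, hc⟩ | ⟨s, hs, hc⟩
    · have h2 : (sᶜ : Finset (Fin 5)).card = 2 := by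
        rw [Finset.card_compl, hs]; rfl
      obtain ⟨i, j, -, hij⟩ := Finset.card_eq_two.1 h2
      refine RApx.mono ?_ (collinear_two (p '' s) hc (p i) (p j))
      rintro _ ⟨k, rfl⟩
      by_cases hk : k ∈ s
      · exact Or.inl ⟨k, hk, rfl⟩
      · have h3 : k ∈ (sᶜ : Finset (Fin 5)) := Finset.mem_compl.2 hk
        rw [hij, Finset.mem_insert, Finset.mem_singleton] at h3
        rcases h3 with rfl | rfl
        · exact Or.inr (Or.inl rfl)
        · exact Or.inr (Or.inr rfl)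
    · have h2 : (sᶜ : Finset (Fin 5)).card = 1 := by
        rw [Finset.card_compl, hs]; rfl
      obtain ⟨i, hi⟩ := Finset.card_eq_one.1 h2
      refine RApx.mono ?_ (cospherical_one (p '' s) hc (p i))
      rintro _ ⟨k, rfl⟩
      by_cases hk : k ∈ s
      · exact Or.inl ⟨k, hk, rfl⟩
      · have h3 : k ∈ (sᶜ : Finset (Fin 5)) := Finset.mem_compl.2 hk
        rw [hi, Finset.mem_singleton] at h3
        rw [h3]
        exact Or.inr rfl
  obtain ⟨X, hX, hX'⟩ := key ε hε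
  choose q hq hq' using fun i => hX' (p i) ⟨i, rfl⟩
  exact ⟨q, hq', fun i j => hX (q i) (hq i) (q j) (hq j)⟩


end Pool.Agent.Helper950.RatApx
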