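import Pool.Agent.Helper950.Dom

namespace Pool.Agent.Helper950

/-- The pointwise maximum with the identity. -/
theorem exists_sup {g : ℝ ≃o ℝ} (hg : g ∈ RAG) : ∃ p ∈ RAG, ∀ t, p t = max (g t) t := by
  set c : ℝ → ℝ := fun t => max (g t) t with hc
  have hmono : StrictMono c := by
    intro x y hxy
    exact max_lt_max (g.strictMono hxy) hxy
  have hsurj : Function.Surjective c := by
    intro y
    rcases le_total (g⁻¹ y) y with h | h
    · refine ⟨g⁻¹ y, ?_⟩
      show max (g (g⁻¹ y)) (g⁻¹ y) = y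
      rw [RelIso.apply_inv_self]
      exact max_eq_left h
    · refine ⟨y, ?_⟩
      show max (g y) y = y
      have h1 := g.monotone h
      rw [RelIso.apply_inv_self] at h1
      exact max_eq_right h1
  obtain ⟨hra, ε, hε, hid⟩ := id hg
  refine ⟨StrictMono.orderIsoOfSurjective c hmono hsurj, ⟨?_, ε, hε, ?_⟩, fun t => rfl⟩
  · intro x
    obtain ⟨k, hk, e, he, haff⟩ := hra x
    show ∃ m, RAt c x m
    rcases lt_trichotomy (g x) x with h | h | h
    · refine ⟨1, (RAt.id x).congr (min e ((x - g x) / k)) (lt_min he (div_pos (by linarith) hk)) ?_⟩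
      intro t ht1 ht2
      show max (g t) t = t
      apply max_eq_right
      have h1 := haff (t - x) (by linarith) (by linarith [min_le_left e ((x - g x) / k)])
      have h2 : x + (t - x) = t := by ring
      rw [h2] at h1
      have h3 : t - x < (x - g x) / k := by linarith [min_le_right e ((x - g x) / k)]
      rw [lt_div_iff₀ hk] at h3
      linarith
    · refine ⟨max k 1, lt_of_lt_of_le hk (le_max_left _ _), e, he, ?_⟩
      intro s hs0 hs
      show max (g (x + s)) (x + s) = max (g x) x + max k 1 * s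
      rw [haff s hs0 hs, h, max_self, max_add_add_left, max_mul_of_nonneg _ _ hs0, one_mul]
    · refine ⟨k, RAt.congr (f := g) ⟨hk, e, he, haff⟩ (g x - x) (by linarith) ?_⟩
      intro t ht1 ht2
      show max (g t) t = g t
      apply max_eq_left
      have := g.monotone ht1
      linarith
  · intro t ht
    show max (g t) t = t
    rw [hid t ht, max_self]

/-- Every element of `RAG` lies in every normal subgroup containing a strongly positive element. -/
theorem normal_of_SP (N : Subgroup RAG) (hN : N.Normal) {z : ℝ ≃o ℝ} (hz : z ∈ RAG)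
    (hzN : (⟨z, hz⟩ : RAG) ∈ N) {l m : ℝ} (hSP : SP z l m) : N = ⊤ := by
  have hm : 1 < m := hSP.one_lt
  -- every strongly positive element with slope m is in N
  have h1 : ∀ (w : ℝ ≃o ℝ) (hw : w ∈ RAG) (l' : ℝ), SP w l' m → (⟨w, hw⟩ : RAG) ∈ N := by
    intro w hw l' hwSP
    obtain ⟨c, hc, hcz⟩ := conj_all hz hw hSP hwSP
    have h2 := hN.conj_mem _ hzN ⟨c, hc⟩
    have h3 : (⟨c, hc⟩ : RAG) * ⟨z, hz⟩ * (⟨c, hc⟩ : RAG)⁻¹ = ⟨w, hw⟩ := by
      apply Subtype.ext
      exact hcz
    rwa [h3] at h2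
  -- sups are in N
  have h2 : ∀ (g : ℝ ≃o ℝ), g ∈ RAG → ∀ (p : ℝ ≃o ℝ) (hp : p ∈ RAG), (∀ t, p t = max (g t) t) →
      (⟨p, hp⟩ : RAG) ∈ N := by
    intro g hg p hp hpm
    obtain ⟨_, ε, hε, hid⟩ := id hg
    obtain ⟨w, hw, hw1, hw2⟩ := exists_elem (ε / 2) m (by linarith) (by linarith)
    have hpid : ∀ t, t ≤ ε → p t = t := by
      intro t ht
      rw [hpm, hid t ht, max_self]
    have hwSP : SP w (ε / 2) m := by
      refine ⟨⟨hw1, by linarith, 1, one_pos, ?_⟩, ?_⟩
      · intro s hs _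
        rw [hw2 _ (by linarith), hw1 _ le_rfl]
        ring
      · intro t ht
        rw [hw2 t ht.le]
        nlinarith
    have hwpSP : SP (w * p : ℝ ≃o ℝ) (ε / 2) m := by
      refine ⟨?_, ?_⟩
      · have h3 : Lead p (ε / 2) 1 := by
          refine ⟨fun t ht => hpid t (by linarith), ?_⟩
          refine (RAt.id _).congr (ε / 2) (by linarith) ?_
          intro t _ ht
          exact hpid t (by linarith)
        have h4 := hwSP.1.mul h3
        rwa [mul_one] at h4
      · intro t ht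
        show t < w (p t)
        have h5 : t ≤ p t := by rw [hpm]; exact le_max_right _ _
        exact lt_of_le_of_lt h5 (hwSP.2 _ (by linarith))
    have h6 := h1 w hw _ hwSP
    have h7 := h1 (w * p) (RAG.mul_mem hw hp) _ hwpSP
    have h8 : (⟨p, hp⟩ : RAG) = (⟨w, hw⟩ : RAG)⁻¹ * ⟨w * p, RAG.mul_mem hw hp⟩ := by
      apply Subtype.ext
      show p = w⁻¹ * (w * p)
      group
    rw [h8]
    exact N.mul_mem (N.inv_mem h6) h7
  rw [eq_top_iff]
  rintro ⟨g, hg⟩ _
  obtain ⟨p, hp, hpm⟩ := exists_sup hg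
  obtain ⟨q, hq, hqm⟩ := exists_sup (RAG.inv_mem hg)
  have h3 := h2 g hg p hp hpm
  have h4 := h2 g⁻¹ (RAG.inv_mem hg) q hq hqm
  have h5 : (⟨g, hg⟩ : RAG) = (⟨q, hq⟩ : RAG)⁻¹ * ⟨p, hp⟩ := by
    apply Subtype.ext
    show g = q⁻¹ * p
    rw [eq_inv_mul_iff_mul_eq]
    ext t
    show q (g t) = p t
    rw [hqm, hpm, RelIso.inv_apply_self, max_comm]
  rw [h5]
  exact N.mul_mem (N.inv_mem h4) h3

end Pool.Agent.Helper950
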